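import Mathlib
import Pool.Agent.N183.U5.Stm2
import Pool.Agent.N183.U8.StmN
import Pool.Agent.Y224.TS.Stm

/-!
# Points which are not `ℓ`-Galois special: definitions

The first part is linear algebra over `ℂ`: `V` is a vector space (later `V = ℂ ⊗ H_1(X, ℚ)`), `S` is a
set of involutions of `V`, `𝔤 = gen S` is the Lie algebra generated by `S`, `Hh` is a Lie algebra of
endomorphisms of `V` which contains `S`, and `U` is a subspace of `V` stable under `Hh`.
-/

namespace Pool.Agent.H24GS.St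

open Module Pool.Agent.Y90 Pool.Agent.R915 TensorProduct Polynomial
open Pool.Agent.H204R3.SP (IsTate Kills)
open Pool.Agent.N183.U5 (IsHodgeTensor MaxField CopMult)
open Pool.Agent.N183.U8 (IsFamily)
open Pool.Agent.Y224.TS.St (IsHodgeTate IsTateModule)

section lin

variable {V : Type} [AddCommGroup V] [Module ℂ V] (S : Set (End ℂ V))
  (Hh : Submodule ℂ (End ℂ V)) (U : Submodule ℂ V)

/-- The involution `2 h - 1` attached to an idempotent `h`. -/
def dbl (h : End ℂ V) : End ℂ V := (2 : ℂ) • h - 1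

/-- The subspace `U` is irreducible under `Hh`. -/
def Irr : Prop :=
  U ≠ ⊥ ∧ (∀ A ∈ Hh, ∀ u ∈ U, A u ∈ U) ∧
    ∀ W ≤ U, (∀ A ∈ Hh, ∀ w ∈ W, A w ∈ W) → W = ⊥ ∨ W = U

/-- The Lie algebra generated by `S`. -/
def gen : Submodule ℂ (End ℂ V) :=
  sInf {L | S ⊆ L ∧ ∀ A ∈ L, ∀ B ∈ L, A * B - B * A ∈ L}

/-- The elements of `S` do not act by scalars on `U`. -/
def NonScal : Prop := ∀ D ∈ S, ∀ c : ℂ, ∃ u ∈ U, D u ≠ c • u

/-- `U` has a nonzero invariant bilinear form. -/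
def SelfDual : Prop :=
  ∃ β : V →ₗ[ℂ] V →ₗ[ℂ] ℂ, (∀ A ∈ Hh, ∀ u ∈ U, ∀ v ∈ U, β (A u) v + β u (A v) = 0) ∧
    ∃ u ∈ U, ∃ v ∈ U, β u v ≠ 0

/-- For some `D` in `S` both eigenvalues `1` and `-1` of `D` on `U` are multiple. -/
def Multi : Prop :=
  ∃ D ∈ S, 2 ≤ finrank ℂ (U ⊓ LinearMap.ker (D - 1) : Submodule ℂ V) ∧
    2 ≤ finrank ℂ (U ⊓ LinearMap.ker (D + 1) : Submodule ℂ V)

/-- The exterior powers of `U` of degree `k` with `2 ≤ k ≤ dim U - 2` occur in `V` as
representations of `Hh`, up to twists by characters. -/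
def ExtPow : Prop :=
  ∀ k : ℕ, 2 ≤ k → k + 2 ≤ finrank ℂ U → ∃ B : V [⋀^Fin k]→ₗ[ℂ] V,
    (∃ u : Fin k → V, (∀ j, u j ∈ U) ∧ B u ≠ 0) ∧
      ∀ A ∈ Hh, ∃ c : ℂ, ∀ u : Fin k → V, (∀ j, u j ∈ U) →
        A (B u) = ∑ j, B (Function.update u j (A (u j))) + c • B u

/-- The alternative for `U`. -/
def Alt : Prop := SelfDual Hh U ∨ Multi S U ∨ ExtPow Hh U

/-- The brackets of elements of `Hh` act on `U` as elements of `𝔤` (the Mumford-Tate conjecture for
`U`). -/
def Full : Prop :=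
  ∀ A ∈ Hh, ∀ B ∈ Hh, ∃ C ∈ gen S, ∀ u ∈ U, C u = (A * B - B * A) u

/-- The restriction of `Hh` to `U` is a simple Lie algebra, up to scalars: an ideal `Q` acts by
scalars, or it contains all brackets. -/
def Simple : Prop :=
  ∀ Q ≤ Hh, (∀ A ∈ Hh, ∀ X ∈ Q, A * X - X * A ∈ Q) →
    (∀ X ∈ Q, ∃ c : ℂ, ∀ u ∈ U, X u = c • u) ∨
      ∀ A ∈ Hh, ∀ B ∈ Hh, ∃ X ∈ Q, ∀ u ∈ U, X u = (A * B - B * A) u

section rep

variable {R : Type} [AddCommGroup R] [Module ℂ R] (r : End ℂ V →ₗ[ℂ] End ℂ R)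

/-- `r` is an irreducible representation of the restriction of `Hh` to `U`. (Only the values of `r` on
`Hh` matter.) -/
structure IsRep : Prop where
  br : ∀ A ∈ Hh, ∀ B ∈ Hh, r (A * B - B * A) = r A * r B - r B * r A
  zero : ∀ A ∈ Hh, (∀ u ∈ U, A u = 0) → r A = 0
  irr : ∀ W : Submodule ℂ R, (∀ A ∈ Hh, ∀ w ∈ W, r A w ∈ W) → W = ⊥ ∨ W = ⊤

/-- The elements of `S` act with two weights: `r D + c` is an involution for some `c`, and `r D` is
not a scalar. -/
def TwoWeights : Prop :=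
  ∀ D ∈ S, (∃ c : ℂ, (r D + c • 1) * (r D + c • 1) = 1) ∧ ∀ c : ℂ, r D ≠ c • 1

/-- The representation `r` occurs in `V`, up to a twist by a character. -/
def Occurs : Prop :=
  ∃ f : R →ₗ[ℂ] V, f ≠ 0 ∧ ∀ A ∈ Hh, ∃ c : ℂ, ∀ x, A (f x) = f (r A x) + c • f x

end rep

/-- `V` is saturated at `U`: all irreducible representations of the restriction of `Hh` to `U` on which
the elements of `S` have two weights occur in `V`, up to twists. -/
def Saturated : Prop :=
  ∀ (R : Type) [AddCommGroup R] [Module ℂ R] [FiniteDimensional ℂ R] [Nontrivial R]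
    (r : End ℂ V →ₗ[ℂ] End ℂ R), IsRep Hh U r → TwoWeights S r → Occurs Hh r

/-- The first condition on the irreducible parts `U` of `V₀`. -/
def AltAll (V₀ : Submodule ℂ V) : Prop := ∀ U ≤ V₀, Irr Hh U → Alt S Hh U

/-- The second condition: `𝔤` contains an element of rank one on `U`. -/
def RankAll (V₀ : Submodule ℂ V) : Prop :=
  ∀ U ≤ V₀, Irr Hh U → NonScal S U ∧ (∃ N ∈ gen S, finrank ℂ (U.map N) = 1) ∧ Alt S Hh U

/-- The third condition: the Mumford-Tate conjecture holds for `U`, and `V` is saturated. -/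
def FullAll (V₀ : Submodule ℂ V) : Prop :=
  ∀ U ≤ V₀, Irr Hh U → NonScal S U ∧ Full S Hh U ∧ Simple Hh U ∧ Saturated S Hh U

end lin

/-! ### Abelian varieties -/

/-- `ℚ[a]` is a maximal subfield of the endomorphism algebra of `Y`, `a` acts as `Ψ` on the tangent
space, and all embeddings `s` of `ℚ[a]` occur in the tangent space. There is no condition on the
multiplicities. -/
def EmbAll (Y : AV) : Prop :=
  ∃ (a : Module.End ℚ Y.H) (Ψ : Module.End ℂ Y.T), MaxField Y a ∧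
    (∀ v, Ψ (Y.per v) = Y.per (a v)) ∧
    ∀ s : ℂ, aeval s (minpoly ℚ a) = 0 → Ψ.eigenspace s ≠ ⊥

/-- The endomorphism `t` belongs to the Lie algebra `𝔥` of the Hodge group of `X` (the Lie algebra of
the Mumford-Tate group without the homotheties): it kills all Hodge tensors. -/
def InHg (X : AV) (t : Module.End ℚ X.H) : Prop :=
  ∀ (n : ℕ) (r : MultilinearMap ℚ (fun _ : Fin n => X.H) ℚ), IsHodgeTensor X.per r → Kills t r

/-- The Lie algebra `𝔫 = 𝔫(X, Y)`: the elements `t` of `𝔥` such that `t f` has trace zero for all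
endomorphisms `f` of `X` (that is, `t` belongs to the derived algebra of `𝔥`) and which commute with
the elements of `𝔥` which vanish on the images of all homomorphisms `Y → X`. This is the smallest
ideal of `𝔥` which has the same image in `End H_1(Y, ℚ)` as the derived algebra of `𝔥`. -/
structure InNS (X Y : AV) (t : Module.End ℚ X.H) : Prop where
  hg : InHg X t
  trace : ∀ f : Module.End ℚ X.H, IsHom X X f → LinearMap.trace ℚ X.H (t * f) = 0
  cen : ∀ u : Module.End ℚ X.H, InHg X u →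
    (∀ i : Y.H →ₗ[ℚ] X.H, IsHom Y X i → u ∘ₗ i = 0) → t * u = u * t

/-- `X₀` is a direct factor of `X`, up to isogeny. -/
structure IsDirect (X₀ X : AV) (i : X₀.H →ₗ[ℚ] X.H) (p : X.H →ₗ[ℚ] X₀.H) : Prop where
  inj : IsHom X₀ X i
  proj : IsHom X X₀ p
  retr : ∀ v, p (i v) = v

section

variable (K : Type) [Field K] [CharZero K] [Algebra K ℂ]

/-- Extension of scalars to `ℂ ⊗ H_1(X, ℚ)`. -/
noncomputable def bcE (X : AV) (t : Module.End ℚ X.H) :
    Module.End ℂ (ℂ ⊗[K] (K ⊗[ℚ] X.H)) := (t.baseChange K).baseChange ℂ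

/-- The Lie algebra `ℂ ⊗ 𝔥` of endomorphisms of `ℂ ⊗ H_1(X, ℚ)`. -/
def hgC (X : AV) : Submodule ℂ (Module.End ℂ (ℂ ⊗[K] (K ⊗[ℚ] X.H))) :=
  Submodule.span ℂ (bcE K X '' {t | InHg X t})

/-- The part of `ℂ ⊗ H_1(X, ℚ)` which belongs to `Y`: the span of the images of all
homomorphisms `Y → X`. -/
def isoP (X Y : AV) : Submodule ℂ (ℂ ⊗[K] (K ⊗[ℚ] X.H)) :=
  Submodule.span ℂ ((fun v : X.H => (1 : ℂ) ⊗ₜ[K] ((1 : K) ⊗ₜ[ℚ] v)) ''
    {v | ∃ i : Y.H →ₗ[ℚ] X.H, IsHom Y X i ∧ v ∈ LinearMap.range i})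

variable {K} {Γ : Type} [Group Γ]

/-- The involutions `2 h - 1` for the Hodge-Tate elements `h` of `X`. -/
def htS (X : AV) (ρ : Representation K Γ (K ⊗[ℚ] X.H)) (χ : Γ →* K) :
    Set (Module.End ℂ (ℂ ⊗[K] (K ⊗[ℚ] X.H))) :=
  dbl '' {h | ∃ σ, IsHodgeTate X.per ρ χ σ h}

/-- The Hodge tensors are Tate tensors (a theorem of Deligne, for the Tate modules of abelian
varieties). -/
def Deligne (X : AV) (ρ : Representation K Γ (K ⊗[ℚ] X.H)) (χ : Γ →* K) : Prop :=
  ∀ (m : ℕ) (r : MultilinearMap ℚ (fun _ : Fin m × Fin 2 => X.H) ℚ)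
    (Φ : MultilinearMap K (fun _ : Fin m × Fin 2 => K ⊗[ℚ] X.H) K), IsHodgeTensor X.per r →
      (∀ v : Fin m × Fin 2 → X.H, Φ (fun k => (1 : K) ⊗ₜ[ℚ] v k) = ((r v : ℚ) : K)) →
        IsTate ρ χ m Φ

/-- The known properties of the Tate module `K ⊗ H_1(X, ℚ)` (`K = ℚ_ℓ`) of an abelian variety `X` with
the polarization `E`: those in `IsTateModule`, and the theorem of Deligne. -/
structure IsTateMod (X : AV) (E : X.H → X.H → ℚ) (ρ : Representation K Γ (K ⊗[ℚ] X.H))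
    (χ : Γ →* K) : Prop where
  /-- the Weil pairing, Faltings, the Hodge-Tate decomposition, Serre -/
  tate : IsTateModule X.per E ρ χ
  /-- Deligne: the Hodge tensors are Tate tensors -/
  hodge : Deligne X ρ χ

/-- The classes of simple factors `Y` of `X`. -/
def GoodS (X : AV) (ρ : Representation K Γ (K ⊗[ℚ] X.H)) (χ : Γ →* K) (Y : AV) : Prop :=
  (EmbAll Y ∧ CopMult Y ∧ AltAll (htS X ρ χ) (hgC K X) (isoP K X Y)) ∨
    RankAll (htS X ρ χ) (hgC K X) (isoP K X Y) ∨ FullAll (htS X ρ χ) (hgC K X) (isoP K X Y)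

end

section

variable {K : Type} [Field K] {V : Type} [AddCommGroup V] [Module K V] {Γ : Type} [Group Γ]

/-- The map `j` is equivariant for a subgroup of finite index. -/
def IsEqv {V₀ : Type} [AddCommGroup V₀] [Module K V₀] (ρ₀ : Representation K Γ V₀)
    (ρ : Representation K Γ V) (j : V₀ →ₗ[K] V) : Prop :=
  ∃ Δ : Subgroup Γ, Δ.FiniteIndex ∧ ∀ g ∈ Δ, ∀ v, ρ g (j v) = j (ρ₀ g v)

/-- The endomorphisms in `N` kill all Tate tensors; and for a family with monodromy in the group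
with the Lie algebra `N` the Tate tensors of the fibre are the Tate tensors of the family. -/
def SameTate (ρ : Representation K Γ V) (χ : Γ →* K) (N : Set (Module.End K V)) : Prop :=
  (∀ (m : ℕ) (φ : MultilinearMap K (fun _ : Fin m × Fin 2 => V) K), IsTate ρ χ m φ →
    ∀ t ∈ N, Kills t φ) ∧
  ∀ {Γ' : Type} [Group Γ'] (ρ' : Representation K Γ' V) (χ' : Γ' →* K) (s : Γ →* Γ')
    (P : Subgroup Γ'), IsFamily ρ χ N ρ' χ' s P →
      ∀ (m : ℕ) (φ : MultilinearMap K (fun _ : Fin m × Fin 2 => V) K),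
        IsTate ρ χ m φ ↔ IsTate ρ' χ' m φ

end

end Pool.Agent.H24GS.St
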