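import Mathlib
import Pool.Agent.N183.U8.D6
import Pool.Agent.N183.U8.D3
import Pool.Agent.N183.JP.Nondeg

/-!
# The ideal attached to a stable subspace: linear algebra
-/

set_option autoImplicit false
set_option linter.unusedSectionVars false
set_option linter.unusedVariables false

namespace Pool.Agent.H24GS

open Module Pool.Agent.N183.U8

/-! ### Irreducible Lie algebras -/

section dec

variable {U : Type} [AddCommGroup U] [Module ℂ U]

/-- The span of the brackets. -/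
def Dr (M : Submodule ℂ (End ℂ U)) : Submodule ℂ (End ℂ U) :=
  Submodule.span ℂ {X | ∃ A ∈ M, ∃ B ∈ M, X = A * B - B * A}

theorem Dr_le {M : Submodule ℂ (End ℂ U)} (hbr : Br M) : Dr M ≤ M := by
  refine Submodule.span_le.2 ?_
  rintro _ ⟨A, hA, B, hB, rfl⟩
  exact hbr A hA B hB

theorem Dr_mono {M M' : Submodule ℂ (End ℂ U)} (h : M ≤ M') : Dr M ≤ Dr M' := by
  refine Submodule.span_mono ?_
  rintro _ ⟨A, hA, B, hB, rfl⟩
  exact ⟨A, h hA, B, h hB, rfl⟩

variable [FiniteDimensional ℂ U]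

theorem Dr_tr {M : Submodule ℂ (End ℂ U)} {X : End ℂ U} (hX : X ∈ Dr M) :
    LinearMap.trace ℂ U X = 0 := by
  have h1 : Dr M ≤ LinearMap.ker (LinearMap.trace ℂ U) := by
    refine Submodule.span_le.2 ?_
    rintro _ ⟨A, hA, B, hB, rfl⟩
    change LinearMap.trace ℂ U (A * B - B * A) = 0
    rw [map_sub, LinearMap.trace_mul_comm, sub_self]
  exact h1 hX

theorem dec {M : Submodule ℂ (End ℂ U)} (hbr : Br M)
    (hirr : ∀ W : Submodule ℂ U, (∀ X ∈ M, X * X = (1 / 4 : ℂ) • 1 → ∀ u ∈ W, X u ∈ W) →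
      W = ⊥ ∨ W = ⊤) {X : End ℂ U} (hX : X ∈ M) : ∃ c : ℂ, X - c • 1 ∈ Dr M := by
  by_cases hU : finrank ℂ U = 0
  · have : Subsingleton U := Module.finrank_zero_iff.1 hU
    exact ⟨0, by
      have h1 : X - (0 : ℂ) • 1 = 0 := LinearMap.ext fun v => Subsingleton.elim _ _
      rw [h1]
      exact (Dr M).zero_mem⟩
  let f : M →ₗ[ℂ] Dual ℂ (Dr M) :=
    LinearMap.mk₂ ℂ (fun (Z : M) (Y : Dr M) => LinearMap.trace ℂ U ((Z : End ℂ U) * Y))
      (fun a b c => by rw [Submodule.coe_add, add_mul, map_add])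
      (fun a b c => by rw [Submodule.coe_smul, smul_mul_assoc, map_smul])
      (fun a b c => by rw [Submodule.coe_add, mul_add, map_add])
      (fun a b c => by rw [Submodule.coe_smul, mul_smul_comm, map_smul])
  have hf : ∀ (Z : M) (Y : Dr M), f Z Y = LinearMap.trace ℂ U ((Z : End ℂ U) * Y) :=
    fun _ _ => rfl
  -- the orthogonal complement consists of scalars
  have hsc : ∀ Z ∈ LinearMap.ker f, ∃ c : ℂ, (Z : End ℂ U) = c • 1 := by
    intro Z hZ
    refine Pool.Agent.Y126.JP.scal_of_irr (G := M)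
      (fun W hW => hirr W fun X hX _ => hW X hX) Z fun A hA => ?_
    have h1 : (Z : End ℂ U) * A - A * Z ∈ M := hbr Z Z.2 A hA
    refine sub_eq_zero.1 (Pool.Agent.N183.JP.trace_nondeg (𝔤 := M) hbr hirr h1 fun B hB => ?_)
    have h2 : f Z ⟨A * B - B * A, Submodule.subset_span ⟨A, hA, B, hB, rfl⟩⟩ = 0 := by
      rw [LinearMap.mem_ker.1 hZ]
      rfl
    rw [hf] at h2
    rw [← h2, sub_mul, map_sub]
    have h3 : LinearMap.trace ℂ U (A * (Z : End ℂ U) * B) =
        LinearMap.trace ℂ U ((Z : End ℂ U) * (B * A)) := by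
      rw [mul_assoc, LinearMap.trace_mul_comm, mul_assoc]
    rw [h3, ← map_sub, mul_assoc, ← mul_sub]
  have hK : (LinearMap.ker f).map M.subtype ⊓ Dr M = ⊥ := by
    rw [eq_bot_iff]
    rintro _ ⟨⟨Z, hZ, rfl⟩, hY⟩
    obtain ⟨c, hc⟩ := hsc Z hZ
    have h1 := Dr_tr hY
    change LinearMap.trace ℂ U (Z : End ℂ U) = 0 at h1
    rw [hc, map_smul, LinearMap.trace_one, smul_eq_mul] at h1
    have h2 : c = 0 := (mul_eq_zero.1 h1).resolve_right (by exact_mod_cast hU)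
    rw [Submodule.mem_bot]
    change (Z : End ℂ U) = 0
    rw [hc, h2, zero_smul]
  have h1 := Submodule.finrank_sup_add_finrank_inf_eq ((LinearMap.ker f).map M.subtype) (Dr M)
  rw [hK, finrank_bot, add_zero] at h1
  have h2 : finrank ℂ ((LinearMap.ker f).map M.subtype) = finrank ℂ (LinearMap.ker f) :=
    Submodule.finrank_map_subtype_eq M (LinearMap.ker f)
  have h3 := LinearMap.finrank_range_add_finrank_ker f
  have h4 : finrank ℂ (LinearMap.range f) ≤ finrank ℂ (Dr M) := by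
    have h5 := Submodule.finrank_le (LinearMap.range f)
    rwa [Subspace.dual_finrank_eq] at h5
  have h6 : (LinearMap.ker f).map M.subtype ⊔ Dr M = M := by
    refine Submodule.eq_of_le_of_finrank_le (sup_le ?_ (Dr_le hbr)) ?_
    · rintro _ ⟨Z, -, rfl⟩
      exact Z.2
    · rw [h1, h2]
      omega
  rw [← h6] at hX
  obtain ⟨_, ⟨Z, hZ, rfl⟩, Y, hY, rfl⟩ := Submodule.mem_sup.1 hX
  obtain ⟨c, hc⟩ := hsc Z hZ
  refine ⟨c, ?_⟩
  change (Z : End ℂ U) + Y - c • 1 ∈ Dr M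
  rw [hc, add_sub_cancel_left]
  exact hY

end dec

variable {V : Type} [AddCommGroup V] [Module ℂ V]

/-- The restrictions to a subspace. -/
def RS (M : Submodule ℂ (End ℂ V)) (U : Submodule ℂ V) : Submodule ℂ (End ℂ U) where
  carrier := {X | ∃ A ∈ M, ∀ u : U, (X u : V) = A u}
  add_mem' := by
    rintro X Y ⟨A, hA, hX⟩ ⟨B, hB, hY⟩
    exact ⟨A + B, M.add_mem hA hB, fun u => by
      rw [LinearMap.add_apply, Submodule.coe_add, hX, hY, LinearMap.add_apply]⟩
  zero_mem' := ⟨0, M.zero_mem, fun u => rfl⟩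
  smul_mem' := by
    rintro c X ⟨A, hA, hX⟩
    exact ⟨c • A, M.smul_mem c hA, fun u => by
      rw [LinearMap.smul_apply, Submodule.coe_smul, hX, LinearMap.smul_apply]⟩

theorem mem_RS {M : Submodule ℂ (End ℂ V)} {U : Submodule ℂ V} {X : End ℂ U} :
    X ∈ RS M U ↔ ∃ A ∈ M, ∀ u : U, (X u : V) = A u := Iff.rfl

theorem RS_br {M : Submodule ℂ (End ℂ V)} (hbr : Br M) (U : Submodule ℂ V) : Br (RS M U) := by
  rintro X ⟨A, hA, hX⟩ Y ⟨B, hB, hY⟩
  refine ⟨A * B - B * A, hbr A hA B hB, fun u => ?_⟩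
  rw [LinearMap.sub_apply, Submodule.coe_sub, End.mul_apply, End.mul_apply, hX, hY, hY, hX]
  rfl

theorem dec_on [FiniteDimensional ℂ V] {S : Set (End ℂ V)} {M : Submodule ℂ (End ℂ V)}
    (hsq : ∀ D ∈ S, D * D = 1) (hS : ∀ D ∈ S, D ∈ M) (hbr : Br M) {U : Submodule ℂ V}
    (hU : Stb M U) (hirr : ∀ W ≤ U, (∀ D ∈ S, ∀ w ∈ W, D w ∈ W) → W = ⊥ ∨ W = U)
    {A : End ℂ V} (hA : A ∈ M) : ∃ (c : ℂ) (C : End ℂ V), C ∈ Dr M ∧ ∀ u ∈ U, A u = c • u + C u := by
  have hir : ∀ W : Submodule ℂ U, (∀ X ∈ RS M U, X * X = (1 / 4 : ℂ) • 1 → ∀ u ∈ W, X u ∈ W) →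
      W = ⊥ ∨ W = ⊤ := by
    intro W hW
    have h1 := hirr (W.map U.subtype) (by
      rintro _ ⟨w, -, rfl⟩
      exact w.2) (by
      rintro D hD _ ⟨w, hw, rfl⟩
      have hDU : ∀ u ∈ U, ((1 / 2 : ℂ) • D) u ∈ U := fun u hu =>
        U.smul_mem _ (hU D (hS D hD) u hu)
      have h2 := hW (((1 / 2 : ℂ) • D).restrict hDU) ⟨(1 / 2 : ℂ) • D, M.smul_mem _ (hS D hD),
        fun u => rfl⟩ (LinearMap.ext fun u => Subtype.ext (by
          change (1 / 2 : ℂ) • D ((1 / 2 : ℂ) • D (u : V)) = (1 / 4 : ℂ) • (u : V)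
          rw [map_smul, smul_smul]
          have h3 : D (D (u : V)) = u := by
            rw [← End.mul_apply, hsq D hD]
            rfl
          rw [h3]
          norm_num)) w hw
      have h3 := W.smul_mem (2 : ℂ) h2
      refine ⟨_, h3, ?_⟩
      change (2 : ℂ) • ((1 / 2 : ℂ) • D (w : V)) = D (w : V)
      rw [smul_smul]
      norm_num)
    rcases h1 with h1 | h1
    · left
      rw [eq_bot_iff]
      intro w hw
      have h2 : (w : V) ∈ W.map U.subtype := ⟨w, hw, rfl⟩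
      rw [h1, Submodule.mem_bot] at h2
      exact (Submodule.mem_bot ℂ).2 (Subtype.ext h2)
    · right
      rw [eq_top_iff]
      intro w _
      have h2 : (w : V) ∈ W.map U.subtype := by
        rw [h1]
        exact w.2
      obtain ⟨w', hw', h3⟩ := h2
      rwa [← (Subtype.ext h3 : w' = w)]
  have hAU : ∀ u ∈ U, A u ∈ U := hU A hA
  obtain ⟨c, hc⟩ := dec (RS_br hbr U) hir (X := A.restrict hAU) ⟨A, hA, fun u => rfl⟩
  have key : ∀ X ∈ Dr (RS M U), ∃ C ∈ Dr M, ∀ u : U, (X u : V) = C u := by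
    intro X hX
    refine Submodule.span_induction (p := fun X _ => ∃ C ∈ Dr M, ∀ u : U, (X u : V) = C u)
      ?_ ?_ ?_ ?_ hX
    · rintro _ ⟨X, ⟨A, hA, hX⟩, Y, ⟨B, hB, hY⟩, rfl⟩
      refine ⟨A * B - B * A, Submodule.subset_span ⟨A, hA, B, hB, rfl⟩, fun u => ?_⟩
      rw [LinearMap.sub_apply, Submodule.coe_sub, End.mul_apply, End.mul_apply, hX, hY, hY, hX]
      rfl
    · exact ⟨0, (Dr M).zero_mem, fun u => rfl⟩
    · rintro X Y - - ⟨A, hA, hX⟩ ⟨B, hB, hY⟩
      exact ⟨A + B, (Dr M).add_mem hA hB, fun u => by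
        rw [LinearMap.add_apply, Submodule.coe_add, hX, hY, LinearMap.add_apply]⟩
    · rintro c X - ⟨A, hA, hX⟩
      exact ⟨c • A, (Dr M).smul_mem c hA, fun u => by
        rw [LinearMap.smul_apply, Submodule.coe_smul, hX, LinearMap.smul_apply]⟩
  obtain ⟨C, hC, hC1⟩ := key _ hc
  refine ⟨c, C, hC, fun u hu => ?_⟩
  rw [← hC1 ⟨u, hu⟩]
  change A u = c • u + (A u - c • u)
  rw [add_sub_cancel]

/-- Schur's lemma. -/
theorem scal_on [FiniteDimensional ℂ V] {L : Submodule ℂ (End ℂ V)} {U : Submodule ℂ V}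
    (hU : IrE L U) {A : End ℂ V} (hA : ∀ u ∈ U, A u ∈ U)
    (hc : ∀ X ∈ L, ∀ u ∈ U, A (X u) = X (A u)) : ∃ c : ℂ, ∀ u ∈ U, A u = c • u := by
  have : Nontrivial U := Submodule.nontrivial_iff_ne_bot.2 hU.1
  obtain ⟨c, hc1⟩ := Module.End.exists_eigenvalue (A.restrict hA)
  obtain ⟨w, hw⟩ := hc1.exists_hasEigenvector
  have h1 : A w = c • (w : V) := congrArg Subtype.val hw.apply_eq_smul
  have h2 : (w : V) ≠ 0 := fun h => hw.2 (Subtype.ext h)
  rcases hU.2.2 (U ⊓ LinearMap.ker (A - c • 1)) inf_le_left (fun X hX u hu => ⟨hU.2.1 X hX u hu.1, by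
      have h3 : A u - c • u = 0 := hu.2
      change A (X u) - c • X u = 0
      rw [hc X hX u hu.1, ← map_smul, ← map_sub, h3, map_zero]⟩) with h3 | h3
  · exfalso
    have h4 : (w : V) ∈ U ⊓ LinearMap.ker (A - c • 1) := ⟨w.2, by
      change A w - c • (w : V) = 0
      rw [h1, sub_self]⟩
    rw [h3, Submodule.mem_bot] at h4
    exact h2 h4
  · refine ⟨c, fun u hu => ?_⟩
    rw [← h3] at hu
    exact sub_eq_zero.1 hu.2

/-! ### The situation -/

/-- The Lie algebra `Hh` contains the involutions and is contained in the double commutant. -/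
structure HC (S : Set (End ℂ V)) (L : Submodule ℂ (End ℂ V)) (om : V →ₗ[ℂ] V →ₗ[ℂ] ℂ)
    (Hh : Submodule ℂ (End ℂ V)) : Prop extends Ctx S L om where
  hbr : Br Hh
  hSL : ∀ D ∈ S, D ∈ Hh
  hdc : ∀ A ∈ Hh, DC S A
  hskw : ∀ A ∈ Hh, Skw om A

/-- The elements of `Hh` of trace zero which kill `U` kill `W`. -/
def Ctrl (S : Set (End ℂ V)) (Hh : Submodule ℂ (End ℂ V)) (U W : Submodule ℂ V) : Prop :=
  ∀ K ∈ Hh, TF S K → (∀ u ∈ U, K u = 0) → ∀ w ∈ W, K w = 0

/-- The restriction to `U` of an element of `Hh` is the restriction of an element of `L` which is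
zero on the irreducible submodules which are not controlled by `U`. -/
def PU (S : Set (End ℂ V)) (L Hh : Submodule ℂ (End ℂ V)) (U : Submodule ℂ V) : Prop :=
  ∀ B ∈ Hh, TF S B → ∃ C ∈ L, TF S C ∧ (∀ u ∈ U, C u = B u) ∧
    ∀ W, IrE L W → Ctrl S Hh U W ∨ ∀ w ∈ W, C w = 0

variable [FiniteDimensional ℂ V] {S : Set (End ℂ V)} {L Hh : Submodule ℂ (End ℂ V)}
  {om : V →ₗ[ℂ] V →ₗ[ℂ] ℂ}

theorem HC.le (k : HC S L om Hh) : L ≤ Hh := k.gen Hh k.hSL k.hbr

theorem HC.stb (k : HC S L om Hh) {A : End ℂ V} (hA : A ∈ Hh) {U : Submodule ℂ V}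
    (hU : Stb L U) : ∀ u ∈ U, A u ∈ U := stab_of_comm k.SL k.cr (k.hdc A hA) hU

theorem tf_add {A B : End ℂ V} (hA : TF S A) (hB : TF S B) : TF S (A + B) := fun P hP => by
  rw [add_mul, map_add, hA P hP, hB P hP, add_zero]

theorem tf_sub {A B : End ℂ V} (hA : TF S A) (hB : TF S B) : TF S (A - B) := fun P hP => by
  rw [sub_mul, map_sub, hA P hP, hB P hP, sub_zero]

/-- Brackets of elements of the double commutant. -/
theorem tf_br' {A B : End ℂ V} (hB : DC S B) : TF S (A * B - B * A) := by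
  intro P hP
  have h1 := hB P hP
  rw [sub_mul, map_sub, mul_assoc A B P, ← h1, ← mul_assoc, LinearMap.trace_mul_comm ℂ (A * P) B,
    mul_assoc B A P, sub_self]

theorem tf_Dr (k : HC S L om Hh) {M : Submodule ℂ (End ℂ V)} (hM : M ≤ Hh) {X : End ℂ V}
    (hX : X ∈ Dr M) : TF S X := by
  refine Submodule.span_induction (p := fun X _ => TF S X) ?_ ?_ ?_ ?_ hX
  · rintro _ ⟨A, hA, B, hB, rfl⟩
    exact tf_br' (k.hdc B (hM hB))
  · intro P _
    rw [zero_mul, map_zero]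
  · intro X Y _ _ h1 h2
    exact tf_add h1 h2
  · intro c X _ h1 P hP
    rw [smul_mul_assoc, map_smul, h1 P hP, smul_zero]

/-- A scalar of trace zero is zero. -/
theorem tf_scal (k : HC S L om Hh) {U : Submodule ℂ V} (hU : Stb L U) (hU0 : U ≠ ⊥)
    {B : End ℂ V} (hB : TF S B) {c : ℂ} (hc : ∀ u ∈ U, B u = c • u) : c = 0 := by
  obtain ⟨π, h1, h2, h3⟩ := exists_pr k.SL k.cr hU
  have h4 := hB π fun D hD => LinearMap.ext fun v => h3 D (k.SL D hD) v
  have h5 : B * π = (c • (1 : End ℂ V)) * π := LinearMap.ext fun v => by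
    rw [End.mul_apply, End.mul_apply, hc _ (h1 v)]
    rfl
  rw [h5, trace_pr (U := U) (A := c • 1) h1 h2 (fun u hu => U.smul_mem c hu)] at h4
  have h6 : (c • (1 : End ℂ V)).restrict (fun u hu => U.smul_mem c hu : ∀ u ∈ U, (c • (1 : End ℂ V)) u ∈ U) =
      c • (1 : End ℂ U) := LinearMap.ext fun u => rfl
  rw [h6, map_smul, LinearMap.trace_one, smul_eq_mul] at h4
  rcases mul_eq_zero.1 h4 with h7 | h7
  · exact h7
  · exfalso
    apply hU0
    rw [← Submodule.finrank_eq_zero (R := ℂ)]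
    exact_mod_cast h7

/-- Stability under the generators. -/
theorem stb_gen (k : HC S L om Hh) {W : Submodule ℂ V} (hW : ∀ D ∈ S, ∀ w ∈ W, D w ∈ W) :
    Stb L W := by
  let L' : Submodule ℂ (End ℂ V) :=
    { carrier := {X | ∀ w ∈ W, X w ∈ W}
      add_mem' := fun {x y} hx hy w hw => W.add_mem (hx w hw) (hy w hw)
      zero_mem' := fun w _ => W.zero_mem
      smul_mem' := fun c x hx w hw => W.smul_mem c (hx w hw) }
  have h1 : L ≤ L' := k.gen L' hW fun X hX Y hY w hw =>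
    W.sub_mem (hX _ (hY w hw)) (hY _ (hX w hw))
  exact fun X hX => h1 hX

theorem irr_gen (k : HC S L om Hh) {U : Submodule ℂ V} (hU : IrE L U) :
    ∀ W ≤ U, (∀ D ∈ S, ∀ w ∈ W, D w ∈ W) → W = ⊥ ∨ W = U :=
  fun W hW h => hU.2.2 W hW (stb_gen k h)

theorem HC.decL (k : HC S L om Hh) {U : Submodule ℂ V} (hU : IrE L U) {A : End ℂ V}
    (hA : A ∈ L) : ∃ (c : ℂ) (C : End ℂ V), C ∈ Dr L ∧ ∀ u ∈ U, A u = c • u + C u :=
  dec_on k.sq k.SL k.br hU.2.1 (irr_gen k hU) hA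

theorem HC.decH (k : HC S L om Hh) {U : Submodule ℂ V} (hU : IrE L U) {A : End ℂ V}
    (hA : A ∈ Hh) : ∃ (c : ℂ) (C : End ℂ V), C ∈ Dr Hh ∧ ∀ u ∈ U, A u = c • u + C u :=
  dec_on k.sq k.hSL k.hbr (fun X hX => k.stb hX hU.2.1) (irr_gen k hU) hA

/-- Elements with given restriction to `V₀`. -/
theorem HC.exists_E (k : HC S L om Hh) {V₀ : Submodule ℂ V} (hV₀ : Stb L V₀)
    (hP : ∀ U ≤ V₀, IrE L U → PU S L Hh U) {B : End ℂ V} (hB : B ∈ Hh) (hBt : TF S B) :
    ∃ C ∈ L, TF S C ∧ (∀ v ∈ V₀, C v = B v) ∧ ∀ W, IrE L W →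
      (∃ U ≤ V₀, IrE L U ∧ Ctrl S Hh U W) ∨ ∀ w ∈ W, C w = 0 := by
  classical
  have key : ∀ (n : ℕ) (C : End ℂ V), C ∈ L → TF S C →
      (∀ W, IrE L W → (∃ U ≤ V₀, IrE L U ∧ Ctrl S Hh U W ∧
        ((∀ w ∈ W, C w = B w) ∨ ∀ w ∈ W, C w = 0)) ∨ ∀ w ∈ W, C w = 0) →
      finrank ℂ V - finrank ℂ (sSup {W : Submodule ℂ V | IrE L W ∧ W ≤ V₀ ∧ ∀ w ∈ W, C w = B w} :
        Submodule ℂ V) = n →
      ∃ C ∈ L, TF S C ∧ (∀ v ∈ V₀, C v = B v) ∧ ∀ W, IrE L W →
        (∃ U ≤ V₀, IrE L U ∧ Ctrl S Hh U W) ∨ ∀ w ∈ W, C w = 0 := by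
    intro n
    induction n using Nat.strong_induction_on with
    | _ n ih =>
      intro C hCL hCt hCW hn
      set K : Submodule ℂ V := sSup {W : Submodule ℂ V | IrE L W ∧ W ≤ V₀ ∧ ∀ w ∈ W, C w = B w}
        with hK
      have hKst : Stb L K := by
        intro X hX
        change K ≤ K.comap X
        refine sSup_le fun W hW x hx => ?_
        exact (le_sSup hW : W ≤ K) (hW.1.2.1 X hX x hx)
      have hKV : K ≤ V₀ := sSup_le fun W hW => hW.2.1
      have hKB : ∀ v ∈ K, C v = B v := by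
        have h1 : K ≤ LinearMap.ker (C - B) := by
          refine sSup_le fun W hW x hx => ?_
          rw [LinearMap.mem_ker, LinearMap.sub_apply, hW.2.2 x hx, sub_self]
        intro v hv
        have h2 := LinearMap.mem_ker.1 (h1 hv)
        rwa [LinearMap.sub_apply, sub_eq_zero] at h2
      by_cases hKt : K = V₀
      · refine ⟨C, hCL, hCt, fun v hv => hKB v (by rw [hKt]; exact hv), fun W hW => ?_⟩
        rcases hCW W hW with ⟨U, h1, h2, h3, -⟩ | h1
        · exact Or.inl ⟨U, h1, h2, h3⟩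
        · exact Or.inr h1
      obtain ⟨Q, hQ, hQc⟩ := k.cr K hKst
      have hQ0 : Q ⊓ V₀ ≠ ⊥ := by
        intro h0
        apply hKt
        refine le_antisymm hKV fun v hv => ?_
        have h1 : v ∈ K ⊔ Q := by rw [hQc.sup_eq_top]; trivial
        obtain ⟨a, ha, b, hb, rfl⟩ := Submodule.mem_sup.1 h1
        have h2 : b ∈ Q ⊓ V₀ := ⟨hb, by
          have h3 := V₀.sub_mem hv (hKV ha)
          rwa [add_sub_cancel_left] at h3⟩
        rw [h0, Submodule.mem_bot] at h2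
        rw [h2, add_zero]
        exact ha
      obtain ⟨U, hUQ, hU⟩ := exists_irE _ (Q ⊓ V₀) rfl hQ0 (hQ.inf hV₀)
      have hUV : U ≤ V₀ := hUQ.trans inf_le_right
      have hUK : ¬ ∀ u ∈ U, C u = B u := by
        intro h1
        have h2 : U ≤ K := le_sSup ⟨hU, hUV, h1⟩
        apply hU.1
        rw [eq_bot_iff, ← hQc.inf_eq_bot]
        exact le_inf h2 (hUQ.trans inf_le_left)
      have hCU : ∀ u ∈ U, C u = 0 := by
        rcases hCW U hU with ⟨-, -, -, -, h1 | h1⟩ | h1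
        · exact absurd h1 hUK
        · exact h1
        · exact h1
      obtain ⟨C₁, h1, h2, h3, h4⟩ := hP U hUV hU B hB hBt
      have hnew : ∀ W, Ctrl S Hh U W → ∀ w ∈ W, (C + C₁) w = B w := by
        intro W hW w hw
        have h5 := hW (B - C₁) (Hh.sub_mem hB (k.le h1)) (tf_sub hBt h2) (fun u hu => by
          rw [LinearMap.sub_apply, h3 u hu, sub_self]) w hw
        have h6 := hW C (k.le hCL) hCt hCU w hw
        rw [LinearMap.sub_apply, sub_eq_zero] at h5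
        rw [LinearMap.add_apply, h6, zero_add, h5]
      have hle : K ≤ sSup {W : Submodule ℂ V | IrE L W ∧ W ≤ V₀ ∧ ∀ w ∈ W, (C + C₁) w = B w} := by
        refine sSup_le fun W hW => le_sSup ⟨hW.1, hW.2.1, fun w hw => ?_⟩
        rcases h4 W hW.1 with h5 | h5
        · exact hnew W h5 w hw
        · rw [LinearMap.add_apply, h5 w hw, add_zero, hW.2.2 w hw]
      have hU' : U ≤ sSup {W : Submodule ℂ V | IrE L W ∧ W ≤ V₀ ∧ ∀ w ∈ W, (C + C₁) w = B w} :=
        le_sSup ⟨hU, hUV, fun u hu => by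
          rw [LinearMap.add_apply, hCU u hu, zero_add, h3 u hu]⟩
      have hlt : K < sSup {W : Submodule ℂ V | IrE L W ∧ W ≤ V₀ ∧ ∀ w ∈ W, (C + C₁) w = B w} := by
        refine lt_of_le_of_ne hle fun h5 => ?_
        apply hU.1
        rw [eq_bot_iff, ← hQc.inf_eq_bot]
        refine le_inf ?_ (hUQ.trans inf_le_left)
        rw [h5]
        exact hU'
      have h5 := Submodule.finrank_lt_finrank_of_lt hlt
      have h6 := Submodule.finrank_le
        (sSup {W : Submodule ℂ V | IrE L W ∧ W ≤ V₀ ∧ ∀ w ∈ W, (C + C₁) w = B w})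
      refine ih _ ?_ (C + C₁) (L.add_mem hCL h1) (tf_add hCt h2) (fun W hW => ?_) rfl
      · omega
      · rcases h4 W hW with h7 | h7
        · exact Or.inl ⟨U, hUV, hU, h7, Or.inl (hnew W h7)⟩
        · rcases hCW W hW with ⟨U₂, h8, h9, h10, h11⟩ | h8
          · refine Or.inl ⟨U₂, h8, h9, h10, ?_⟩
            rcases h11 with h11 | h11
            · left
              intro w hw
              rw [LinearMap.add_apply, h7 w hw, add_zero, h11 w hw]
            · right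
              intro w hw
              rw [LinearMap.add_apply, h7 w hw, add_zero, h11 w hw]
          · right
            intro w hw
            rw [LinearMap.add_apply, h7 w hw, add_zero, h8 w hw]
  exact key _ 0 L.zero_mem (fun P _ => by rw [zero_mul, map_zero])
    (fun W _ => Or.inr fun w _ => rfl) rfl

/-- **The ideal is contained in `L`.** -/
theorem HC.main (k : HC S L om Hh) {V₀ : Submodule ℂ V} (hV₀ : Stb L V₀)
    (hP : ∀ U ≤ V₀, IrE L U → PU S L Hh U) {A : End ℂ V} (hA : A ∈ Hh) (hAt : TF S A)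
    (hAc : ∀ K ∈ Hh, (∀ v ∈ V₀, K v = 0) → A * K = K * A) : A ∈ L := by
  obtain ⟨C, h1, h2, h3, h4⟩ := k.exists_E hV₀ hP hA hAt
  have hAW : ∀ {W : Submodule ℂ V}, IrE L W → ∀ w ∈ W, A w ∈ W := fun hW => k.stb hA hW.2.1
  have h5 : A - C = 0 := by
    refine zero_of_irr k.SL k.cr fun W hW => ?_
    by_cases hc : ∃ U ≤ V₀, IrE L U ∧ Ctrl S Hh U W
    · obtain ⟨U, hUV, hU, hUW⟩ := hc
      exact hUW _ (Hh.sub_mem hA (k.le h1)) (tf_sub hAt h2) fun u hu => by
        rw [LinearMap.sub_apply, h3 u (hUV hu), sub_self]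
    · have hCW : ∀ w ∈ W, C w = 0 := (h4 W hW).resolve_left hc
      -- `A` commutes with the elements of trace zero
      have hcomm : ∀ B ∈ Hh, TF S B → ∀ w ∈ W, A (B w) = B (A w) := by
        intro B hB hBt w hw
        obtain ⟨C', h1', h2', h3', h4'⟩ := k.exists_E hV₀ hP hB hBt
        have hCW' : ∀ w ∈ W, C' w = 0 := (h4' W hW).resolve_left hc
        have h6 := hAc (B - C') (Hh.sub_mem hB (k.le h1')) fun v hv => by
          rw [LinearMap.sub_apply, h3' v hv, sub_self]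
        have h7 := LinearMap.congr_fun h6 w
        rw [End.mul_apply, End.mul_apply, LinearMap.sub_apply, LinearMap.sub_apply, hCW' w hw,
          hCW' _ (hAW hW w hw), sub_zero, sub_zero] at h7
        exact h7
      obtain ⟨c, hc1⟩ := scal_on hW (hAW hW) (fun X hX w hw => by
        obtain ⟨c, Y, hY, hXY⟩ := k.decL hW hX
        have hYt := tf_Dr k k.le hY
        rw [hXY w hw, hXY _ (hAW hW w hw), map_add, map_smul,
          hcomm Y (k.le (Dr_le k.br hY)) hYt w hw])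
      have h6 := tf_scal k hW.2.1 hW.1 hAt hc1
      intro w hw
      rw [LinearMap.sub_apply, hCW w hw, sub_zero, hc1 w hw, h6, zero_smul]
  rw [sub_eq_zero] at h5
  rw [h5]
  exact h1

/-- **The ideal is not trivial.** -/
theorem HC.exists_odd (k : HC S L om Hh) {V₀ U : Submodule ℂ V} (hUV : U ≤ V₀) (hU : IrE L U)
    (hP : PU S L Hh U) {D : End ℂ V} (hD : D ∈ Hh) (hns : ∀ c : ℂ, ∃ u ∈ U, D u ≠ c • u) :
    ∃ A ∈ Hh, TF S A ∧ (∀ K ∈ Hh, (∀ v ∈ V₀, K v = 0) → A * K = K * A) ∧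
      ∃ u ∈ U, A (D u) ≠ D (A u) := by
  have hDU := k.stb hD hU.2.1
  -- a bracket which does not commute with `D` on `U`
  obtain ⟨B, hB, hBt, u₀, hu₀, hne⟩ : ∃ B ∈ L, TF S B ∧ ∃ u ∈ U, B (D u) ≠ D (B u) := by
    by_contra hcon
    push Not at hcon
    obtain ⟨c, hc⟩ := scal_on hU hDU (fun X hX u hu => by
      obtain ⟨c, Y, hY, hXY⟩ := k.decL hU hX
      have h1 := hcon Y (Dr_le k.br hY) (tf_Dr k k.le hY) u hu
      rw [hXY u hu, hXY _ (hDU u hu), map_add, map_smul, h1])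
    obtain ⟨u, hu, h1⟩ := hns c
    exact h1 (hc u hu)
  obtain ⟨C, h1, h2, h3, h4⟩ := hP B (k.le hB) hBt
  refine ⟨C, k.le h1, h2, fun K hK hKV => ?_, u₀, hu₀, ?_⟩
  · refine sub_eq_zero.1 (zero_of_irr k.SL k.cr fun W hW w hw => ?_)
    have hKW := k.stb hK hW.2.1
    have hKU : ∀ u ∈ U, K u = 0 := fun u hu => hKV u (hUV hu)
    rcases h4 W hW with h5 | h5
    · refine h5 _ (k.hbr _ (k.le h1) _ hK) (tf_br' (k.hdc K hK)) (fun u hu => ?_) w hw
      rw [LinearMap.sub_apply, End.mul_apply, End.mul_apply, hKU u hu, map_zero, zero_sub,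
        neg_eq_zero]
      exact hKU _ (hU.2.1 C h1 u hu)
    · rw [LinearMap.sub_apply, End.mul_apply, End.mul_apply, h5 w hw, h5 _ (hKW w hw), map_zero,
        sub_zero]
  · rw [h3 _ (hDU u₀ hu₀), h3 u₀ hu₀]
    exact hne

end Pool.Agent.H24GS
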