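import Mathlib
import Pool.Agent.N183.U5.Stm2
import Pool.Agent.N183.U8.StmN
import Pool.Agent.Y224.TS.Stm
import Pool.Agent.H24GS.St

/-!
# The Lie algebra of the Hodge group and the Lie algebra of the Galois group

`V = ℂ ⊗ H_1(X, ℚ)` is written as `CV K X = ℂ ⊗ (K ⊗ H_1(X, ℚ))` with `K = ℚ_ℓ`.
-/

set_option linter.unusedSectionVars false
set_option linter.unusedVariables false

namespace Pool.Agent.H24GS

open Module Pool.Agent.Y90 Pool.Agent.R915 TensorProduct Polynomial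
open Pool.Agent.H204R3.SP (IsTate Kills)
open Pool.Agent.N183.U5 (IsHodgeTensor MaxField)
open Pool.Agent.Y224.TS.St (IsHodgeTate IsTateModule)

export St (InHg InNS Deligne)

section

variable (K : Type) [Field K] [CharZero K] [Algebra K ℂ]

/-- The vector space `ℂ ⊗ H_1(X, ℚ)`. -/
abbrev CV (X : AV) : Type := ℂ ⊗[K] (K ⊗[ℚ] X.H)

/-- Extension of scalars of homomorphisms. -/
noncomputable def bc {X Y : AV} (t : X.H →ₗ[ℚ] Y.H) : CV K X →ₗ[ℂ] CV K Y :=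
  (t.baseChange K).baseChange ℂ

/-- The Lie algebra `ℂ ⊗ 𝔥`. -/
noncomputable def hgC (X : AV) : Submodule ℂ (Module.End ℂ (CV K X)) :=
  Submodule.span ℂ {T | ∃ t, InHg X t ∧ T = bc K t}

/-- The part of `ℂ ⊗ H_1(X, ℚ)` which belongs to `Y`: the span of the images of all
homomorphisms `Y → X`. -/
def isoP (X Y : AV) : Submodule ℂ (CV K X) :=
  Submodule.span ℂ {w | ∃ (i : Y.H →ₗ[ℚ] X.H) (y : Y.H), IsHom Y X i ∧
    w = (1 : ℂ) ⊗ₜ[K] ((1 : K) ⊗ₜ[ℚ] i y)}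

variable {K} {Γ : Type} [Group Γ]

/-- The involutions `2 h - 1` for the Hodge-Tate elements `h` of `X`. -/
def htS (X : AV) (ρ : Representation K Γ (K ⊗[ℚ] X.H)) (χ : Γ →* K) :
    Set (Module.End ℂ (CV K X)) :=
  {D | ∃ σ h, IsHodgeTate X.per ρ χ σ h ∧ D = (2 : ℂ) • h - 1}

/-- The Lie algebra `ℂ ⊗ 𝔤` generated by the Hodge-Tate elements. It is the complexification of the
Lie algebra of `G_ℓ`, up to the homotheties. -/
def galC (X : AV) (ρ : Representation K Γ (K ⊗[ℚ] X.H)) (χ : Γ →* K) :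
    Submodule ℂ (Module.End ℂ (CV K X)) :=
  sInf {L | (∀ D ∈ htS X ρ χ, D ∈ L) ∧ ∀ A ∈ L, ∀ B ∈ L, A * B - B * A ∈ L}

end

section

variable {V : Type} [AddCommGroup V] [Module ℂ V]

/-- The exterior powers of `U` of degree `k` with `2 ≤ k ≤ dim U - 2` occur in `V` as
representations of `Hh`, up to twists by characters. -/
def ExtS (Hh : Submodule ℂ (Module.End ℂ V)) (U : Submodule ℂ V) : Prop :=
  ∀ k : ℕ, 2 ≤ k → k + 2 ≤ finrank ℂ U → ∃ B : V [⋀^Fin k]→ₗ[ℂ] V,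
    (∃ u : Fin k → V, (∀ j, u j ∈ U) ∧ B u ≠ 0) ∧
      ∀ A ∈ Hh, ∃ c : ℂ, ∀ u : Fin k → V, (∀ j, u j ∈ U) →
        A (B u) = ∑ j, B (Function.update u j (A (u j))) + c • B u

end

end Pool.Agent.H24GS
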