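import Mathlib
import Pool.Agent.N183.U5.Ten
import Pool.Agent.N183.U8.E5
import Pool.Agent.H24GS.Dfs

/-!
# The Lie algebra of the Hodge group, in coordinates
-/

set_option linter.unusedSectionVars false
set_option linter.unusedVariables false

namespace Pool.Agent.H24GS

open Matrix Module Pool.Agent.W437.HC Pool.Agent.W437.HD Pool.Agent.W548.Odd
open Pool.Agent.TH504.CB Pool.Agent.H204R3.SP Pool.Agent.H204R3.GP Pool.Agent.Y90 Pool.Agent.Y224.TS TensorProduct
open Pool.Agent.Y224.TS.St (IsHodgeTate IsTateModule)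
open Pool.Agent.W437.HP (cK cK_mul cK_one)
open Pool.Agent.R915 (VE mem_VE descent_gen commL_of IsFactor RealMax)
open Pool.Agent.N183.TS Pool.Agent.N183.U5 Pool.Agent.N183.U6 Pool.Agent.N183.U8

noncomputable section

section mat

variable {G : ℕ} {Z : Matrix (Fin G) (Fin G) ℂ}

theorem Om_unit {C : Matrix (Fin G ⊕ Fin G) (Fin G ⊕ Fin G) ℂ} (h : C * Om G ℂ = 0) : C = 0 := by
  have h1 : C * Om G ℂ * Om G ℂ = 0 := by rw [h, Matrix.zero_mul]
  rw [Matrix.mul_assoc, Om_sq, Matrix.mul_neg, Matrix.mul_one, neg_eq_zero] at h1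
  exact h1

/-- The elements of the Lie algebra are skew. -/
theorem lieM_om (hZ : PM Z) {M : Matrix (Fin G ⊕ Fin G) (Fin G ⊕ Fin G) ℂ}
    (hM : M ∈ lieM (DZ Z) ℂ) (u v : Fin G ⊕ Fin G → ℂ) :
    om G (M *ᵥ u) v + om G u (M *ᵥ v) = 0 := by
  have h1 := lie_sp hZ.symm hM
  rw [om_apply, om_apply, mulVec_mulVec, ← vecMul_transpose, ← dotProduct_mulVec,
    mulVec_mulVec, ← dotProduct_add, ← add_mulVec, h1, zero_mulVec, dotProduct_zero]

/-- The elements of the Lie algebra commute with the endomorphisms. -/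
theorem lieM_comm (hZ : PM Z) {M : Matrix (Fin G ⊕ Fin G) (Fin G ⊕ Fin G) ℂ}
    (hM : M ∈ lieM (DZ Z) ℂ) {R : Matrix (Fin G ⊕ Fin G) (Fin G ⊕ Fin G) ℚ}
    (hR : qm R * DZ Z = DZ Z * qm R) : M * qm R = qm R * M := by
  have hmap : (R.transpose * Om G ℚ).map (fun x : ℚ => (x : ℂ)) = (qm R).transpose * Om G ℂ := by
    have h1 := qm_mul' R.transpose (Om G ℚ)
    have h2 : qm (Om G ℚ) = Om G ℂ := Om_qm
    rw [h2] at h1
    exact h1
  have h1 : IsH (DZ Z) (bilc (R.transpose * Om G ℚ)) := by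
    refine isH_bilc _ ?_
    rw [hmap]
    have h2 : (DZ Z).transpose * Om G ℂ + Om G ℂ * DZ Z = 0 := lie_sp hZ.symm (D_mem _)
    have h3 : (DZ Z).transpose * (qm R).transpose = (qm R).transpose * (DZ Z).transpose := by
      rw [← Matrix.transpose_mul, hR, Matrix.transpose_mul]
    calc (DZ Z).transpose * ((qm R).transpose * Om G ℂ) + (qm R).transpose * Om G ℂ * DZ Z =
        (qm R).transpose * ((DZ Z).transpose * Om G ℂ + Om G ℂ * DZ Z) := by
          rw [← Matrix.mul_assoc, h3, Matrix.mul_add, Matrix.mul_assoc, Matrix.mul_assoc]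
      _ = 0 := by rw [h2, Matrix.mul_zero]
  have h2 := lieM_bil _ h1 hM
  rw [hmap] at h2
  have h3 := lie_sp hZ.symm hM
  have h4 : (M.transpose * (qm R).transpose - (qm R).transpose * M.transpose) * Om G ℂ = 0 := by
    calc (M.transpose * (qm R).transpose - (qm R).transpose * M.transpose) * Om G ℂ =
        (M.transpose * ((qm R).transpose * Om G ℂ) + (qm R).transpose * Om G ℂ * M) -
          (qm R).transpose * (M.transpose * Om G ℂ + Om G ℂ * M) := by
            rw [Matrix.sub_mul, Matrix.mul_add, Matrix.mul_assoc, Matrix.mul_assoc,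
              Matrix.mul_assoc]
            abel
      _ = 0 := by rw [h2, h3, Matrix.mul_zero, sub_zero]
  have h5 := Om_unit h4
  rw [← Matrix.transpose_mul, ← Matrix.transpose_mul, ← Matrix.transpose_sub,
    Matrix.transpose_eq_zero, sub_eq_zero] at h5
  exact h5.symm

/-- Components of an element of the Lie algebra. -/
theorem lieM_map {M : Matrix (Fin G ⊕ Fin G) (Fin G ⊕ Fin G) ℂ}
    (hM : M ∈ lieM (DZ Z) ℂ) (l : ℂ →ₗ[ℚ] ℚ) : qm (M.map l) ∈ lieM (DZ Z) ℂ :=
  cast_mem _ (map_mem _ hM l)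

theorem trace_map {M : Matrix (Fin G ⊕ Fin G) (Fin G ⊕ Fin G) ℂ}
    {R : Matrix (Fin G ⊕ Fin G) (Fin G ⊕ Fin G) ℚ} (h : (M * qm R).trace = 0) (l : ℂ →ₗ[ℚ] ℚ) :
    (M.map l * R).trace = 0 := by
  have h1 := congrArg l h
  rw [map_zero] at h1
  rw [← h1]
  simp only [Matrix.trace, Matrix.diag_apply, Matrix.mul_apply, map_sum, Matrix.map_apply]
  refine Finset.sum_congr rfl fun i _ => Finset.sum_congr rfl fun j _ => ?_
  have h2 : M i j * (((R j i : ℚ)) : ℂ) = R j i • M i j := by
    rw [Rat.smul_def, mul_comm]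
  have h3 : l (M i j * (qm R) j i) = R j i * l (M i j) :=
    (congrArg l h2).trans (l.map_smul (R j i) (M i j))
  exact (mul_comm _ _).trans h3.symm

theorem mul_map {a : ℕ} {M : Matrix (Fin G ⊕ Fin G) (Fin G ⊕ Fin G) ℂ}
    {R : Matrix (Fin G ⊕ Fin G) (Fin a ⊕ Fin a) ℚ} (h : M * cK ℂ R = 0) (l : ℂ →ₗ[ℚ] ℚ) :
    M.map l * R = 0 := by
  ext i j
  have h1 := congrArg l (congrFun (congrFun h i) j)
  rw [Matrix.zero_apply, map_zero, Matrix.mul_apply, map_sum] at h1
  rw [Matrix.zero_apply, Matrix.mul_apply, ← h1]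
  refine Finset.sum_congr rfl fun k _ => ?_
  have h2 : M i k * (((R k j : ℚ)) : ℂ) = R k j • M i k := by
    rw [Rat.smul_def, mul_comm]
  have h3 : l (M i k * (cK ℂ R) k j) = R k j * l (M i k) :=
    (congrArg l h2).trans (l.map_smul (R k j) (M i k))
  exact (mul_comm _ _).trans h3.symm

theorem comm_map {M : Matrix (Fin G ⊕ Fin G) (Fin G ⊕ Fin G) ℂ}
    {R : Matrix (Fin G ⊕ Fin G) (Fin G ⊕ Fin G) ℚ} (h : M * qm R = qm R * M)
    (l : ℂ →ₗ[ℚ] ℚ) : M.map l * R = R * M.map l := by
  have h1 : ∀ A : Matrix (Fin G ⊕ Fin G) (Fin G ⊕ Fin G) ℚ, qm A = A.map (algebraMap ℚ ℂ) :=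
    fun A => rfl
  rw [h1] at h
  exact map_comm h l

/-- Expansion of a matrix. -/
theorem mat_exp (M : Matrix (Fin G ⊕ Fin G) (Fin G ⊕ Fin G) ℂ) :
    ∃ (m : ℕ) (c : Fin m → ℂ) (l : Fin m → (ℂ →ₗ[ℚ] ℚ)), M = ∑ j, c j • qm (M.map (l j)) :=
  mat_expand (F := ℚ) M

end mat

section hodge

variable {X : AV} {G : ℕ} {Z : Matrix (Fin G) (Fin G) ℂ} (b : Basis (Fin G ⊕ Fin G) ℚ X.H)

/-- Hodge tensors in coordinates. -/
theorem isH_of_hodge {B κ : Type} [Fintype B] [DecidableEq B] [Fintype κ] [DecidableEq κ]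
    {T : Type*} [AddCommGroup T] [Module ℂ T] {per : (B → ℚ) →+ T} {J : Matrix B B ℝ}
    (h : Cht per J) {f : MultilinearMap ℚ (fun _ : κ => B → ℚ) ℚ} (hf : IsHodgeTensor per f) :
    IsH (DJ J) (CF f) := by
  obtain ⟨P, I, hP1, hP2, -, -⟩ := h.ex
  obtain ⟨ψ, hψ1, hψ2⟩ := hf
  rw [Pool.Agent.TH504.CB.act_real (J := J) (D := DJ J) rfl]
  have h1 : ∀ x : κ → B → ℝ, ψ (fun k => P (x k)) = evalF (cst ℝ (CF f)) x := by
    intro x
    rw [show ψ (fun k => P (x k)) = ψ.compLinearMap (fun _ => P) x from rfl, multi_eq]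
    congr 1
    funext I
    change ψ (fun k => P (Pi.single (I k) 1)) = ((f (fun k => Pi.single (I k) 1) : ℚ) : ℝ)
    rw [← hψ1]
    congr 1
    funext k
    rw [← hP1, single_castR]
  apply act_of_rotate
  intro θ x
  rw [← h1, ← h1]
  refine Eq.trans ?_ (hψ2 (Complex.cos θ + Complex.sin θ * Complex.I) (by
    rw [← Complex.exp_mul_I, Complex.norm_exp_ofReal_mul_I]) _)
  congr 1
  funext k
  rw [map_add, map_smul, map_smul, hP2, smul_rot, Complex.ofReal_cos, Complex.ofReal_sin]

theorem mulVec_rep (t : Module.End ℚ X.H) (v : X.H) :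
    LinearMap.toMatrix b b t *ᵥ b.equivFun v = b.equivFun (t v) :=
  LinearMap.toMatrix_mulVec_repr b b t v

/-- The Lie algebra in coordinates. -/
theorem inHg_iff (hC : Cht (X.per.comp b.equivFun.symm.toLinearMap.toAddMonoidHom) (JR Z))
    (t : Module.End ℚ X.H) :
    InHg X t ↔ qm (LinearMap.toMatrix b b t) ∈ lieM (DZ Z) ℂ := by
  have hT : ∀ {n : ℕ} (c : (Fin n → Fin G ⊕ Fin G) → ℚ),
      act (qm (LinearMap.toMatrix b b t)) (cst ℂ c) = 0 ↔
        act (LinearMap.toMatrix b b t) c = 0 := by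
    intro n c
    have h1 := act_cst (K := ℂ) (LinearMap.toMatrix b b t) c
    constructor
    · intro h
      have h2 : cst ℂ (act (LinearMap.toMatrix b b t) c) = cst ℂ 0 := by
        rw [cst_zero, ← h1]
        exact h
      exact cst_injective h2
    · intro h
      rw [h, cst_zero] at h1
      exact h1
  constructor
  · intro h n c hc
    rw [hT]
    refine eq_zero_of_evalF fun x => ?_
    rw [evalF_act]
    have h1 : IsHodgeTensor X.per ((evalM c).compLinearMap fun _ => b.equivFun.toLinearMap) := by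
      refine isHodgeTensor_comp (per := X.per)
        (per' := X.per.comp b.equivFun.symm.toLinearMap.toAddMonoidHom) b.equivFun.toLinearMap
        LinearMap.id (fun v => ?_) (hodge_ten hC hc)
      change X.per v = X.per (b.equivFun.symm (b.equivFun v))
      rw [LinearEquiv.symm_apply_apply]
    have h2 := h n _ h1 (fun k => b.equivFun.symm (x k))
    rw [← h2]
    refine Finset.sum_congr rfl fun k _ => ?_
    change _ = evalF c (fun l => b.equivFun (Function.update (fun k => b.equivFun.symm (x k)) k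
      (t (b.equivFun.symm (x k))) l))
    congr 1
    funext l
    by_cases hl : l = k
    · subst hl
      rw [Function.update_self, Function.update_self, ← mulVec_rep b, LinearEquiv.apply_symm_apply]
    · rw [Function.update_of_ne hl, Function.update_of_ne hl, LinearEquiv.apply_symm_apply]
  · intro h n r hr v
    have h1 : IsHodgeTensor (X.per.comp b.equivFun.symm.toLinearMap.toAddMonoidHom)
        (r.compLinearMap fun _ => b.equivFun.symm.toLinearMap) :=
      isHodgeTensor_comp (per' := X.per)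
        (per := X.per.comp b.equivFun.symm.toLinearMap.toAddMonoidHom)
        b.equivFun.symm.toLinearMap LinearMap.id (fun v => rfl) hr
    have h2 := (hT _).1 (h n _ (isH_of_hodge hC h1))
    have h3 := evalF_act (LinearMap.toMatrix b b t)
      (CF (r.compLinearMap fun _ => b.equivFun.symm.toLinearMap)) (fun k => b.equivFun (v k))
    rw [h2, evalF_zero] at h3
    rw [h3]
    refine Finset.sum_congr rfl fun k _ => ?_
    rw [← CF_eval, MultilinearMap.compLinearMap_apply]
    congr 1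
    funext l
    by_cases hl : l = k
    · subst hl
      rw [Function.update_self, Function.update_self, mulVec_rep b]
      exact (b.equivFun.symm_apply_apply _).symm
    · rw [Function.update_of_ne hl, Function.update_of_ne hl]
      exact (b.equivFun.symm_apply_apply _).symm

end hodge

end

end Pool.Agent.H24GS
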