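import Mathlib
import Pool.Agent.H24GS.M1
import Pool.Agent.H24GS.K1

/-!
# The Hodge-Tate elements belong to the Lie algebra of the Hodge group
-/

set_option linter.unusedSectionVars false
set_option linter.unusedVariables false

namespace Pool.Agent.H24GS

open Matrix Module Pool.Agent.W437.HC Pool.Agent.W437.HD Pool.Agent.W548.Odd
open Pool.Agent.TH504.CB Pool.Agent.H204R3.SP Pool.Agent.H204R3.GP Pool.Agent.Y90 Pool.Agent.Y224.TS TensorProduct
open Pool.Agent.Y224.TS.St (IsHodgeTate IsTateModule)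
open Pool.Agent.W437.HP (cK cK_mul cK_one)
open Pool.Agent.R915 (VE mem_VE descent_gen commL_of IsFactor RealMax)
open Pool.Agent.N183.TS Pool.Agent.N183.U5 Pool.Agent.N183.U6 Pool.Agent.N183.U8

noncomputable section

/-- There are no Hodge tensors in an odd number of variables. -/
theorem hodge_odd {W T : Type*} [AddCommGroup W] [Module ℚ W] [AddCommGroup T] [Module ℂ T]
    {per : W →+ T} {n : ℕ} (hn : Odd n) {f : MultilinearMap ℚ (fun _ : Fin n => W) ℚ}
    (hf : IsHodgeTensor per f) : f = 0 := by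
  obtain ⟨ψ, h1, h2⟩ := hf
  ext v
  have h3 : f (fun l => (-1 : ℚ) • v l) = f v := by
    have h4 : ((f fun l => (-1 : ℚ) • v l : ℚ) : ℝ) = ((f v : ℚ) : ℝ) := by
      rw [← h1, ← h1, ← h2 (-1) (by rw [norm_neg, norm_one])]
      congr 1
      funext l
      rw [neg_one_smul, neg_one_smul, map_neg, neg_neg]
    exact_mod_cast h4
  rw [MultilinearMap.map_smul_univ, Finset.prod_const, Finset.card_univ, Fintype.card_fin,
    hn.neg_one_pow, neg_one_smul] at h3
  change f v = 0
  linarith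

variable {K : Type} [Field K] [CharZero K] [Algebra K ℂ] {Γ : Type} [Group Γ] {X : AV}
  {ρ : Representation K Γ (K ⊗[ℚ] X.H)} {χ : Γ →* K} {G : ℕ} {Z : Matrix (Fin G) (Fin G) ℂ}
  (b : Basis (Fin G ⊕ Fin G) ℚ X.H)

/-- The form over `K` with given rational coefficients. -/
def fK {m : ℕ} (c : (Fin m × Fin 2 → Fin G ⊕ Fin G) → ℚ) :
    MultilinearMap K (fun _ : Fin m × Fin 2 => K ⊗[ℚ] X.H) K :=
  (evalM (cst K c)).compLinearMap fun _ => (bV K b).equivFun.toLinearMap

theorem bV_rat (v : X.H) : (bV K b).equivFun ((1 : K) ⊗ₜ[ℚ] v) =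
    fun i => ((b.equivFun v i : ℚ) : K) := by
  funext i
  rw [Basis.equivFun_apply, bV, Algebra.TensorProduct.basis_repr_tmul]
  simp

theorem fK_rat {m : ℕ} (c : (Fin m × Fin 2 → Fin G ⊕ Fin G) → ℚ) (v : Fin m × Fin 2 → X.H) :
    fK (K := K) b c (fun k => (1 : K) ⊗ₜ[ℚ] v k) =
      ((evalM c (fun k => b.equivFun (v k)) : ℚ) : K) := by
  change evalM (cst K c) (fun k => (bV K b).equivFun ((1 : K) ⊗ₜ[ℚ] v k)) = _
  rw [evalM_apply, evalM_apply]
  have h1 : (fun k => (bV K b).equivFun ((1 : K) ⊗ₜ[ℚ] v k)) =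
      fun k => fun i => ((b.equivFun (v k) i : ℚ) : K) := funext fun k => bV_rat b (v k)
  rw [h1]
  simp [evalF, cst]

/-- **The Hodge-Tate elements kill the Hodge tensors.** -/
theorem SH_lieM (hC : Cht (X.per.comp b.equivFun.symm.toLinearMap.toAddMonoidHom) (JR Z))
    (hdel : Deligne X ρ χ) {D : Matrix (Fin G ⊕ Fin G) (Fin G ⊕ Fin G) ℂ}
    (hD : D ∈ SH X.per ρ χ b) : D ∈ lieM (DZ Z) ℂ := by
  intro n c hc
  have hT := hodge_ten hC hc
  rcases Nat.even_or_odd n with ⟨m, hm⟩ | hn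
  · have e : Fin m × Fin 2 ≃ Fin n := Fintype.equivOfCardEq (by
      rw [Fintype.card_prod, Fintype.card_fin, Fintype.card_fin, Fintype.card_fin]
      omega)
    have hc' : IsH (DZ Z) (fun I : Fin m × Fin 2 → Fin G ⊕ Fin G => c (fun k => I (e.symm k))) :=
      isH_reindex (DZ Z) e hc
    obtain ⟨c', hc'e⟩ : ∃ c' : (Fin m × Fin 2 → Fin G ⊕ Fin G) → ℚ,
      c' = fun I => c (fun k => I (e.symm k)) := ⟨_, rfl⟩
    rw [← hc'e] at hc'
    have h1 : IsHodgeTensor X.per ((evalM c').compLinearMap fun _ => b.equivFun.toLinearMap) := by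
      refine isHodgeTensor_comp (per := X.per)
        (per' := X.per.comp b.equivFun.symm.toLinearMap.toAddMonoidHom) b.equivFun.toLinearMap
        LinearMap.id (fun v => ?_) (hodge_ten hC hc')
      change X.per v = X.per (b.equivFun.symm (b.equivFun v))
      rw [LinearEquiv.symm_apply_apply]
    have h2 : IsTate ρ χ m (fK (K := K) b c') := hdel m _ _ h1 fun v => fK_rat b c' v
    have h3 := act_of_kills (FC_kills b _ h2 D hD)
    have h4 : CF (FC b (fK (K := K) b c')) = cst ℂ c' := by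
      funext I
      change FC b (fK (K := K) b c') (fun k => Pi.single (I k) 1) = _
      have h5 : (fun k => (Pi.single (I k) 1 : Fin G ⊕ Fin G → ℂ)) =
          fun k => Pool.Agent.Y90.cv (Pi.single (I k) 1 : Fin G ⊕ Fin G → ℚ) :=
        funext fun k => (single_cv (I k)).symm
      rw [h5, FC_rat, fK_rat]
      have h6 : (fun k => b.equivFun (b.equivFun.symm (Pi.single (I k) 1 : Fin G ⊕ Fin G → ℚ))) =
          fun k => (Pi.single (I k) 1 : Fin G ⊕ Fin G → ℚ) :=
        funext fun k => b.equivFun.apply_symm_apply _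
      rw [h6, evalM_apply, evalF_single, map_ratCast]
      rfl
    rw [h4] at h3
    have h5 := act_reindex e D (cst ℂ c)
    have h6 : (fun I : Fin m × Fin 2 → Fin G ⊕ Fin G => cst ℂ c (fun k => I (e.symm k))) =
        cst ℂ c' := by
      rw [hc'e]
      rfl
    rw [h6, h3] at h5
    funext J
    have h7 := congrFun h5 (fun k => J (e k))
    rw [Pi.zero_apply] at h7 ⊢
    rw [h7]
    congr 1
    funext k
    change J k = J (e (e.symm k))
    rw [Equiv.apply_symm_apply]
  · have h1 := hodge_odd hn hT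
    have h2 : c = 0 := by
      funext I
      rw [← evalF_single c I, ← evalM_apply, h1]
      rfl
    rw [h2, cst_zero, act_zero_right]

/-- **The situation.** -/
theorem hc_of {S : Set (Matrix (Fin G ⊕ Fin G) (Fin G ⊕ Fin G) ℂ)} (h : TD Z S) (hZ : PM Z)
    (hS : ∀ D ∈ S, D ∈ lieM (DZ Z) ℂ) :
    HC (ph (Fin G ⊕ Fin G) '' S) (GG (Y224.TS.LT S)) (om G) (GG (lieM (DZ Z) ℂ)) where
  toCtx := ctx_of h
  hbr := by
    intro A hA B hB
    obtain ⟨A, hA', rfl⟩ := exists_GG hA
    obtain ⟨B, hB', rfl⟩ := exists_GG hB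
    rw [← map_mul, ← map_mul, ← map_sub]
    exact mem_GG.2 (lieM_bracket _ hA' hB')
  hSL := by
    rintro _ ⟨D, hD, rfl⟩
    exact mem_GG.2 (hS D hD)
  hdc := by
    intro A hA
    obtain ⟨A, hA', rfl⟩ := exists_GG hA
    exact dc_of h fun R hR => lieM_comm hZ hA' hR
  hskw := by
    intro A hA u v
    obtain ⟨A, hA', rfl⟩ := exists_GG hA
    exact lieM_om hZ hA' u v

end

end Pool.Agent.H24GS
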