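import Mathlib
import Pool.Agent.H24GS.K1

/-!
# Saturated stable subspaces
-/

set_option autoImplicit false
set_option linter.unusedSectionVars false
set_option linter.unusedVariables false

namespace Pool.Agent.H24GS

open Module Pool.Agent.N183.U8

variable {V : Type} [AddCommGroup V] [Module ℂ V]

/-- The brackets of `Hh` are restrictions of elements of `L`. -/
def Full (L Hh : Submodule ℂ (End ℂ V)) (U : Submodule ℂ V) : Prop :=
  ∀ A ∈ Hh, ∀ B ∈ Hh, ∃ C ∈ L, ∀ u ∈ U, C u = (A * B - B * A) u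

/-- The restriction of `Hh` is a simple Lie algebra up to scalars. -/
def Simp (Hh : Submodule ℂ (End ℂ V)) (U : Submodule ℂ V) : Prop :=
  ∀ Q ≤ Hh, (∀ A ∈ Hh, ∀ X ∈ Q, A * X - X * A ∈ Q) →
    (∀ X ∈ Q, ∃ c : ℂ, ∀ u ∈ U, X u = c • u) ∨
      ∀ A ∈ Hh, ∀ B ∈ Hh, ∃ X ∈ Q, ∀ u ∈ U, X u = (A * B - B * A) u

/-- All representations of two weights occur. -/
def Sat (S : Set (End ℂ V)) (Hh : Submodule ℂ (End ℂ V)) (U : Submodule ℂ V) : Prop :=
  ∀ (R : Type) [AddCommGroup R] [Module ℂ R] [FiniteDimensional ℂ R] [Nontrivial R]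
    (r : Hh →ₗ[ℂ] End ℂ R),
    (∀ A B C : Hh, (C : End ℂ V) = A * B - B * A → r C = r A * r B - r B * r A) →
    (∀ K : Hh, (∀ u ∈ U, (K : End ℂ V) u = 0) → r K = 0) →
    (∀ W : Submodule ℂ R, (∀ A, ∀ w ∈ W, r A w ∈ W) → W = ⊥ ∨ W = ⊤) →
    (∀ D : Hh, (D : End ℂ V) ∈ S →
      (∃ c : ℂ, (r D + c • 1) * (r D + c • 1) = 1) ∧ ∀ c : ℂ, r D ≠ c • 1) →
    ∃ f : R →ₗ[ℂ] V, f ≠ 0 ∧ ∀ A : Hh, ∃ c : ℂ, ∀ x, (A : End ℂ V) (f x) = f (r A x) + c • f x

variable [FiniteDimensional ℂ V] {S : Set (End ℂ V)} {L Hh : Submodule ℂ (End ℂ V)}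
  {om : V →ₗ[ℂ] V →ₗ[ℂ] ℂ}

/-- The ideal attached to `U`. -/
structure Idl (S : Set (End ℂ V)) (L Hh : Submodule ℂ (End ℂ V)) (U : Submodule ℂ V)
    (I : Submodule ℂ (End ℂ V)) : Prop where
  le : I ≤ L
  idl : ∀ A ∈ L, ∀ C ∈ I, A * C - C * A ∈ I
  inj : ∀ C ∈ I, (∀ u ∈ U, C u = 0) → C = 0
  perf : I ≤ Dr I
  ex : ∀ A ∈ Hh, ∃ (a : ℂ) (C : End ℂ V), C ∈ I ∧ ∀ u ∈ U, A u = a • u + C u

theorem exists_idl (hA : S_A) (k : HC S L om Hh) {U : Submodule ℂ V} (hU : IrE L U)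
    (hfull : Full L Hh U) : ∃ I, Idl S L Hh U I := by
  obtain ⟨I, hIL, hId, hIinj, hIbr⟩ := hA V L k.br k.cr U hU.2.1
  -- elements of the derived algebra
  have hI1 : ∀ X ∈ Dr L, ∃ C ∈ I, ∀ u ∈ U, C u = X u := by
    intro X hX
    refine Submodule.span_induction (p := fun X _ => ∃ C ∈ I, ∀ u ∈ U, C u = X u)
      ?_ ?_ ?_ ?_ hX
    · rintro _ ⟨A, hA, B, hB, rfl⟩
      exact hIbr A hA B hB
    · exact ⟨0, I.zero_mem, fun u _ => rfl⟩
    · rintro X Y - - ⟨A, hA, hX⟩ ⟨B, hB, hY⟩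
      exact ⟨A + B, I.add_mem hA hB, fun u hu => by
        rw [LinearMap.add_apply, hX u hu, hY u hu, LinearMap.add_apply]⟩
    · rintro c X - ⟨A, hA, hX⟩
      exact ⟨c • A, I.smul_mem c hA, fun u hu => by
        rw [LinearMap.smul_apply, hX u hu, LinearMap.smul_apply]⟩
  let I₁ : Submodule ℂ (End ℂ V) :=
    { carrier := {C | C ∈ I ∧ ∃ X ∈ Dr L, ∀ u ∈ U, C u = X u}
      add_mem' := by
        rintro C C' ⟨h1, X, h2, h3⟩ ⟨h1', X', h2', h3'⟩
        exact ⟨I.add_mem h1 h1', X + X', (Dr L).add_mem h2 h2', fun u hu => by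
          rw [LinearMap.add_apply, h3 u hu, h3' u hu, LinearMap.add_apply]⟩
      zero_mem' := ⟨I.zero_mem, 0, (Dr L).zero_mem, fun u _ => rfl⟩
      smul_mem' := by
        rintro c C ⟨h1, X, h2, h3⟩
        exact ⟨I.smul_mem c h1, c • X, (Dr L).smul_mem c h2, fun u hu => by
          rw [LinearMap.smul_apply, h3 u hu, LinearMap.smul_apply]⟩ }
  have hI₁ : ∀ C, C ∈ I₁ ↔ C ∈ I ∧ ∃ X ∈ Dr L, ∀ u ∈ U, C u = X u := fun _ => Iff.rfl
  have hid1 : ∀ A ∈ L, ∀ C ∈ I₁, A * C - C * A ∈ I₁ := by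
    rintro A hA C ⟨h1, X, h2, h3⟩
    refine ⟨hId A hA C h1, A * X - X * A, Submodule.subset_span ⟨A, hA, X, Dr_le k.br h2, rfl⟩,
      fun u hu => ?_⟩
    rw [LinearMap.sub_apply, End.mul_apply, End.mul_apply, h3 u hu, h3 _ (hU.2.1 A hA u hu)]
    rfl
  have hbr1 : Br I₁ := fun A hA B hB => hid1 A (hIL hA.1) B hB
  have hlift : ∀ X ∈ Dr L, ∃ C ∈ I₁, ∀ u ∈ U, C u = X u := by
    intro X hX
    obtain ⟨C, h1, h2⟩ := hI1 X hX
    exact ⟨C, ⟨h1, X, hX, h2⟩, h2⟩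
  have hinj1 : ∀ C ∈ I₁, (∀ u ∈ U, C u = 0) → C = 0 := fun C hC h => hIinj C hC.1 h
  -- perfect
  have hDr : ∀ X ∈ Dr L, ∃ Y ∈ Dr I₁, ∀ u ∈ U, Y u = X u := by
    intro X hX
    refine Submodule.span_induction (p := fun X _ => ∃ C ∈ Dr I₁, ∀ u ∈ U, C u = X u)
      ?_ ?_ ?_ ?_ hX
    · rintro _ ⟨A, hA, B, hB, rfl⟩
      obtain ⟨a, A', hA', hAA⟩ := k.decL hU hA
      obtain ⟨b, B', hB', hBB⟩ := k.decL hU hB
      obtain ⟨CA, h1, h2⟩ := hlift A' hA'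
      obtain ⟨CB, h3, h4⟩ := hlift B' hB'
      refine ⟨CA * CB - CB * CA, Submodule.subset_span ⟨CA, h1, CB, h3, rfl⟩, fun u hu => ?_⟩
      have hAu : ∀ v ∈ U, A v = a • v + CA v := fun v hv => by rw [hAA v hv, h2 v hv]
      have hBu : ∀ v ∈ U, B v = b • v + CB v := fun v hv => by rw [hBB v hv, h4 v hv]
      have hCA : ∀ v ∈ U, CA v ∈ U := fun v hv => hU.2.1 CA (hIL h1.1) v hv
      have hCB : ∀ v ∈ U, CB v ∈ U := fun v hv => hU.2.1 CB (hIL h3.1) v hv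
      rw [LinearMap.sub_apply, LinearMap.sub_apply, End.mul_apply, End.mul_apply, End.mul_apply,
        End.mul_apply, hAu u hu, hBu u hu, map_add, map_add, map_smul, map_smul, hAu u hu,
        hBu u hu, hAu _ (hCB u hu), hBu _ (hCA u hu)]
      module
    · exact ⟨0, (Dr I₁).zero_mem, fun u _ => rfl⟩
    · rintro X Y - - ⟨A, hA, hX⟩ ⟨B, hB, hY⟩
      exact ⟨A + B, (Dr I₁).add_mem hA hB, fun u hu => by
        rw [LinearMap.add_apply, hX u hu, hY u hu, LinearMap.add_apply]⟩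
    · rintro c X - ⟨A, hA, hX⟩
      exact ⟨c • A, (Dr I₁).smul_mem c hA, fun u hu => by
        rw [LinearMap.smul_apply, hX u hu, LinearMap.smul_apply]⟩
  -- the elements of `Hh`
  have hHL : ∀ X ∈ Dr Hh, ∃ C ∈ L, ∀ u ∈ U, C u = X u := by
    intro X hX
    refine Submodule.span_induction (p := fun X _ => ∃ C ∈ L, ∀ u ∈ U, C u = X u)
      ?_ ?_ ?_ ?_ hX
    · rintro _ ⟨A, hA, B, hB, rfl⟩
      exact hfull A hA B hB
    · exact ⟨0, L.zero_mem, fun u _ => rfl⟩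
    · rintro X Y - - ⟨A, hA, hX⟩ ⟨B, hB, hY⟩
      exact ⟨A + B, L.add_mem hA hB, fun u hu => by
        rw [LinearMap.add_apply, hX u hu, hY u hu, LinearMap.add_apply]⟩
    · rintro c X - ⟨A, hA, hX⟩
      exact ⟨c • A, L.smul_mem c hA, fun u hu => by
        rw [LinearMap.smul_apply, hX u hu, LinearMap.smul_apply]⟩
  refine ⟨I₁, fun C hC => hIL hC.1, hid1, hinj1, ?_, ?_⟩
  · rintro C ⟨h1, X, h2, h3⟩
    obtain ⟨Y, h4, h5⟩ := hDr X h2
    have h6 : Y - C = 0 := hinj1 _ (I₁.sub_mem (Dr_le hbr1 h4) ⟨h1, X, h2, h3⟩) fun u hu => by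
      rw [LinearMap.sub_apply, h5 u hu, h3 u hu, sub_self]
    rw [sub_eq_zero] at h6
    rw [← h6]
    exact h4
  · intro A hA
    -- `A = a + A'` with `A'` in the derived algebra of `Hh`, which is in `L` on `U`
    obtain ⟨a, A', hA', hAA⟩ := k.decH hU hA
    obtain ⟨X, hX, hXA⟩ := hHL A' hA'
    obtain ⟨c, Y, hY, hXY⟩ := k.decL hU hX
    obtain ⟨C, hC, hCY⟩ := hlift Y hY
    exact ⟨a + c, C, hC, fun u hu => by
      rw [hAA u hu, ← hXA u hu, hXY u hu, hCY u hu, add_smul, add_assoc]⟩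

namespace Idl

variable {I : Submodule ℂ (End ℂ V)} {U : Submodule ℂ V} (i : Idl S L Hh U I)
  (k : HC S L om Hh) (hU : IrE L U)

include i in
theorem tf (k : HC S L om Hh) {C : End ℂ V} (hC : C ∈ I) : TF S C :=
  tf_Dr k (i.le.trans k.le) (i.perf hC)

include i k hU in
theorem uniq {A C C' : End ℂ V} {a a' : ℂ} (hC : C ∈ I) (hC' : C' ∈ I)
    (h : ∀ u ∈ U, A u = a • u + C u) (h' : ∀ u ∈ U, A u = a' • u + C' u) : C = C' := by
  have h1 : ∀ u ∈ U, (C - C') u = (a' - a) • u := fun u hu => by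
    rw [LinearMap.sub_apply, sub_smul]
    have h2 := (h u hu).symm.trans (h' u hu)
    rw [sub_eq_sub_iff_add_eq_add, add_comm (C u), h2, add_comm]
  have h2 := tf_scal k hU.2.1 hU.1 (tf_sub (i.tf k hC) (i.tf k hC')) h1
  refine sub_eq_zero.1 (i.inj _ (I.sub_mem hC hC') fun u hu => ?_)
  rw [h1 u hu, h2, zero_smul]

include i k hU in
/-- The projection of `Hh` to the ideal. -/
theorem exists_s : ∃ s : Hh →ₗ[ℂ] End ℂ V, (∀ A, s A ∈ I) ∧
    ∀ A : Hh, ∃ a : ℂ, ∀ u ∈ U, (A : End ℂ V) u = a • u + s A u := by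
  classical
  choose a C hC h using fun A : Hh => i.ex A A.2
  refine ⟨{ toFun := C
            map_add' := fun A B => ?_
            map_smul' := fun c A => ?_ }, hC, fun A => ⟨a A, h A⟩⟩
  · refine i.uniq k hU (hC _) (I.add_mem (hC A) (hC B)) (h (A + B)) (a' := a A + a B)
      fun u hu => ?_
    rw [Submodule.coe_add, LinearMap.add_apply, h A u hu, h B u hu, LinearMap.add_apply, add_smul]
    abel
  · refine i.uniq k hU (hC _) (I.smul_mem c (hC A)) (h (c • A)) (a' := c * a A) fun u hu => ?_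
    rw [Submodule.coe_smul, LinearMap.smul_apply, h A u hu, LinearMap.smul_apply, smul_add,
      smul_smul, RingHom.id_apply]

end Idl

/-- The operators on `W` which commute with the ideal. -/
def Cm (I : Submodule ℂ (End ℂ V)) (W : Submodule ℂ V) (Q : End ℂ V) : Prop :=
  (∀ w ∈ W, Q w ∈ W) ∧ ∀ C ∈ I, ∀ w ∈ W, Q (C w) = C (Q w)

/-- Spreading of relations. -/
theorem spread (k : HC S L om Hh) {I : Submodule ℂ (End ℂ V)} (hIL : I ≤ L) {W W' : Submodule ℂ V}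
    (hW : IrE L W) (hD : ∀ D ∈ S, ∃ d ∈ I, Cm I W (D - d)) (hle : W' ≤ W) (hne : W' ≠ ⊥)
    (hst : ∀ C ∈ I, ∀ w ∈ W', C w ∈ W') {F : End ℂ V}
    (hF : ∀ Q, Cm I W Q → ∀ x ∈ W, F (Q x) = Q (F x)) (hF0 : ∀ x ∈ W', F x = 0) :
    ∀ w ∈ W, F w = 0 := by
  set W₁ : Submodule ℂ V := Submodule.span ℂ {y | ∃ Q, Cm I W Q ∧ ∃ x ∈ W', y = Q x} with hW₁
  have hsub : ∀ (X : End ℂ V), (∀ Q, Cm I W Q → ∀ x ∈ W', X (Q x) ∈ W₁) → ∀ w ∈ W₁, X w ∈ W₁ := by
    intro X hX w hw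
    refine Submodule.span_induction (p := fun w _ => X w ∈ W₁) ?_ ?_ ?_ ?_ hw
    · rintro _ ⟨Q, hQ, x, hx, rfl⟩
      exact hX Q hQ x hx
    · rw [map_zero]
      exact W₁.zero_mem
    · intro x y _ _ h1 h2
      rw [map_add]
      exact W₁.add_mem h1 h2
    · intro c x _ h1
      rw [map_smul]
      exact W₁.smul_mem c h1
  have hI : ∀ C ∈ I, ∀ w ∈ W₁, C w ∈ W₁ := by
    intro C hC
    refine hsub C fun Q hQ x hx => ?_
    rw [← hQ.2 C hC x (hle hx)]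
    exact Submodule.subset_span ⟨Q, hQ, C x, hst C hC x hx, rfl⟩
  have hst1 : Stb L W₁ := by
    refine stb_gen k fun D hDS => ?_
    obtain ⟨d, hd, hdQ⟩ := hD D hDS
    refine fun w hw => ?_
    have h1 : (D - d) w ∈ W₁ := by
      refine hsub (D - d) (fun Q hQ x hx => ?_) w hw
      refine Submodule.subset_span ⟨(D - d) * Q, ⟨fun w hw => hdQ.1 _ (hQ.1 w hw),
        fun C hC w hw => ?_⟩, x, hx, rfl⟩
      rw [End.mul_apply, End.mul_apply, hQ.2 C hC w hw, hdQ.2 C hC _ (hQ.1 w hw)]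
    have h2 := W₁.add_mem h1 (hI d hd w hw)
    rwa [LinearMap.sub_apply, sub_add_cancel] at h2
  have hle1 : W₁ ≤ W := by
    refine Submodule.span_le.2 ?_
    rintro _ ⟨Q, hQ, x, hx, rfl⟩
    exact hQ.1 x (hle hx)
  have h1 : W₁ = W := by
    refine (hW.2.2 W₁ hle1 hst1).resolve_left fun h => hne ?_
    rw [eq_bot_iff, ← h]
    intro x hx
    exact Submodule.subset_span ⟨1, ⟨fun w hw => hw, fun C hC w hw => rfl⟩, x, hx, rfl⟩
  intro w hw
  rw [← h1] at hw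
  refine Submodule.span_induction (p := fun w _ => F w = 0) ?_ ?_ ?_ ?_ hw
  · rintro _ ⟨Q, hQ, x, hx, rfl⟩
    rw [hF Q hQ x (hle hx), hF0 x hx, map_zero]
  · exact map_zero _
  · intro x y _ _ h1 h2
    rw [map_add, h1, h2, add_zero]
  · intro c x _ h1
    rw [map_smul, h1, smul_zero]

/-- An eigenvalue on a nonzero stable subspace. -/
theorem exists_eig {W : Submodule ℂ V} (hW : W ≠ ⊥) {A : End ℂ V} (hA : ∀ w ∈ W, A w ∈ W) :
    ∃ (c : ℂ) (w : V), w ∈ W ∧ w ≠ 0 ∧ A w = c • w := by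
  have : Nontrivial W := Submodule.nontrivial_iff_ne_bot.2 hW
  obtain ⟨c, hc1⟩ := Module.End.exists_eigenvalue (A.restrict hA)
  obtain ⟨w, hw⟩ := hc1.exists_hasEigenvector
  exact ⟨c, w, w.2, fun h => hw.2 (Subtype.ext h), congrArg Subtype.val hw.apply_eq_smul⟩

/-- The part of an involution which commutes with the ideal is a scalar. -/
theorem scalar_part (k : HC S L om Hh) {I : Submodule ℂ (End ℂ V)} (hIL : I ≤ L)
    {W : Submodule ℂ V} (hW : IrE L W) (hD : ∀ D ∈ S, ∃ d ∈ I, Cm I W (D - d))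
    {D d : End ℂ V} (hDS : D ∈ S) (hd : d ∈ I) (hdQ : Cm I W (D - d))
    (hns : ∀ c : ℂ, ∃ w ∈ W, d w ≠ c • w) : ∃ c : ℂ, ∀ w ∈ W, (D - d) w = c • w := by
  obtain ⟨P, hP⟩ : ∃ P, P = D - d := ⟨_, rfl⟩
  rw [← hP] at hdQ ⊢
  have hdW : ∀ w ∈ W, d w ∈ W := hW.2.1 d (hIL hd)
  have hPW : ∀ w ∈ W, P w ∈ W := hdQ.1
  have hPd : ∀ w ∈ W, P (d w) = d (P w) := hdQ.2 d hd
  have hDw : ∀ w, D w = d w + P w := fun w => by
    rw [hP, LinearMap.sub_apply, add_sub_cancel]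
  have hsq : ∀ w ∈ W, d (d w) + (2 : ℂ) • d (P w) + P (P w) = w := by
    intro w hw
    have h1 : D (D w) = w := by
      rw [← End.mul_apply, k.sq D hDS]
      rfl
    rw [hDw (D w), hDw w, map_add, map_add, hPd w hw] at h1
    calc d (d w) + (2 : ℂ) • d (P w) + P (P w) =
        d (d w) + d (P w) + (d (P w) + P (P w)) := by rw [two_smul]; abel
      _ = w := h1
  have hQd : ∀ Q, Cm I W Q → ∀ x ∈ W, d (Q x) = Q (d x) := fun Q hQ x hx => (hQ.2 d hd x hx).symm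
  obtain ⟨l, w₀, hw₀, hw₀0, hl⟩ := exists_eig hW.1 hPW
  -- the quadratic relation for `d`
  have hquad : ∀ w ∈ W, d (d w) + (2 * l) • d w + (l * l) • w = w := by
    intro w hw
    have h1 := spread k hIL hW hD (W' := W ⊓ LinearMap.ker (P - l • 1))
      (F := d * d + (2 * l) • d + (l * l) • 1 - 1) inf_le_left (fun h => hw₀0 (by
        have h2 : w₀ ∈ W ⊓ LinearMap.ker (P - l • 1) := ⟨hw₀, by
          change P w₀ - l • w₀ = 0
          rw [hl, sub_self]⟩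
        rwa [h, Submodule.mem_bot] at h2)) (fun C hC w hw => ⟨hW.2.1 C (hIL hC) w hw.1, by
        have h2 : P w - l • w = 0 := hw.2
        change P (C w) - l • C w = 0
        rw [hdQ.2 C hC w hw.1, ← map_smul, ← map_sub, h2, map_zero]⟩) (fun Q hQ x hx => by
        change d (d (Q x)) + (2 * l) • d (Q x) + (l * l) • Q x - Q x =
          Q (d (d x) + (2 * l) • d x + (l * l) • x - x)
        rw [hQd Q hQ x hx, hQd Q hQ _ (hdW x hx), map_sub, map_add, map_add, map_smul, map_smul])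
      (fun x hx => by
        have h2 : P x - l • x = 0 := hx.2
        rw [sub_eq_zero] at h2
        have h3 := hsq x hx.1
        rw [h2, map_smul, map_smul, h2, smul_smul, smul_smul] at h3
        change d (d x) + (2 * l) • d x + (l * l) • x - x = 0
        rw [h3, sub_self]) w hw
    exact sub_eq_zero.1 h1
  have hrel : ∀ w ∈ W, (2 : ℂ) • d (P w - l • w) + P (P w - l • w) + l • (P w - l • w) = 0 := by
    intro w hw
    have h1 := hsq w hw
    have h2 := hquad w hw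
    have h3 : d (d w) + (2 : ℂ) • d (P w) + P (P w) -
        (d (d w) + (2 * l) • d w + (l * l) • w) = 0 := by rw [h1, h2, sub_self]
    rw [← h3, map_sub, map_sub, map_smul, map_smul]
    module
  by_contra hcon
  push Not at hcon
  obtain ⟨w₁, hw₁, hne⟩ := hcon l
  obtain ⟨W₆, hW₆⟩ : ∃ W₆, W₆ = W.map (P - l • 1) := ⟨_, rfl⟩
  have hW₆W : W₆ ≤ W := by
    rw [hW₆]
    rintro _ ⟨w, hw, rfl⟩
    exact W.sub_mem (hPW w hw) (W.smul_mem l hw)
  have hW₆P : ∀ w ∈ W₆, P w ∈ W₆ := by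
    rw [hW₆]
    rintro _ ⟨w, hw, rfl⟩
    refine ⟨P w, hPW w hw, ?_⟩
    change P (P w) - l • P w = P (P w - l • w)
    rw [map_sub, map_smul]
  have hW₆I : ∀ C ∈ I, ∀ w ∈ W₆, C w ∈ W₆ := by
    rw [hW₆]
    rintro C hC _ ⟨w, hw, rfl⟩
    refine ⟨C w, hW.2.1 C (hIL hC) w hw, ?_⟩
    change P (C w) - l • C w = C (P w - l • w)
    rw [map_sub, map_smul, hdQ.2 C hC w hw]
  have hW₆r : ∀ x ∈ W₆, (2 : ℂ) • d x + P x + l • x = 0 := by
    rw [hW₆]
    rintro _ ⟨w, hw, rfl⟩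
    exact hrel w hw
  have hW₆0 : W₆ ≠ ⊥ := by
    intro h
    have h1 : (P - l • 1) w₁ ∈ W₆ := by
      rw [hW₆]
      exact ⟨w₁, hw₁, rfl⟩
    rw [h, Submodule.mem_bot] at h1
    exact hne (sub_eq_zero.1 h1)
  obtain ⟨m, x₀, hx₀, hx₀0, hm⟩ := exists_eig hW₆0 hW₆P
  have h1 := spread k hIL hW hD (W' := W₆ ⊓ LinearMap.ker (P - m • 1))
      (F := d + ((m + l) / 2) • 1) (inf_le_left.trans hW₆W) (fun h => hx₀0 (by
        have h2 : x₀ ∈ W₆ ⊓ LinearMap.ker (P - m • 1) := ⟨hx₀, by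
          change P x₀ - m • x₀ = 0
          rw [hm, sub_self]⟩
        rwa [h, Submodule.mem_bot] at h2)) (fun C hC w hw => ⟨hW₆I C hC w hw.1, by
        have h2 : P w - m • w = 0 := hw.2
        change P (C w) - m • C w = 0
        rw [hdQ.2 C hC w (hW₆W hw.1), ← map_smul, ← map_sub, h2, map_zero]⟩) (fun Q hQ x hx => by
        change d (Q x) + ((m + l) / 2) • Q x = Q (d x + ((m + l) / 2) • x)
        rw [hQd Q hQ x hx, map_add, map_smul])
      (fun x hx => by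
        have h2 : P x - m • x = 0 := hx.2
        rw [sub_eq_zero] at h2
        have h3 := hW₆r x hx.1
        rw [h2] at h3
        change d x + ((m + l) / 2) • x = 0
        have h4 : (2 : ℂ) • (d x + ((m + l) / 2) • x) = 0 := by
          rw [← h3]
          module
        exact (smul_eq_zero.1 h4).resolve_left two_ne_zero)
  obtain ⟨w, hw, hne'⟩ := hns (-((m + l) / 2))
  apply hne'
  have h2 : d w + ((m + l) / 2) • w = 0 := h1 w hw
  rw [neg_smul]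
  exact eq_neg_of_add_eq_zero_left h2

end Pool.Agent.H24GS
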