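import Mathlib
import Pool.Agent.H24GS.K3
import Pool.Agent.H24GS.Dfs

/-!
# Transport of structure
-/

set_option autoImplicit false
set_option linter.unusedSectionVars false
set_option linter.unusedVariables false

namespace Pool.Agent.H24GS

open Module Pool.Agent.N183.U8

variable {V V' : Type} [AddCommGroup V] [Module ℂ V] [AddCommGroup V'] [Module ℂ V']

/-- Corresponding sets of operators. -/
def Rl (e : V ≃ₗ[ℂ] V') (L : Set (End ℂ V)) (L' : Set (End ℂ V')) : Prop :=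
  ∀ T, T ∈ L ↔ e.conj T ∈ L'

variable {e : V ≃ₗ[ℂ] V'} {L Hh : Submodule ℂ (End ℂ V)} {L' Hh' : Submodule ℂ (End ℂ V')}
  {U : Submodule ℂ V}

theorem cj_ap (A : End ℂ V) (u : V) : e.conj A (e u) = e (A u) := by
  rw [LinearEquiv.conj_apply_apply, LinearEquiv.symm_apply_apply]

theorem cj_mul (A B : End ℂ V) : e.conj (A * B) = e.conj A * e.conj B := by
  refine LinearMap.ext fun v => ?_
  rw [End.mul_apply, LinearEquiv.conj_apply_apply, LinearEquiv.conj_apply_apply,
    LinearEquiv.conj_apply_apply, LinearEquiv.symm_apply_apply, End.mul_apply]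

theorem cj_br (A B : End ℂ V) :
    e.conj (A * B - B * A) = e.conj A * e.conj B - e.conj B * e.conj A := by
  rw [map_sub, cj_mul, cj_mul]

theorem Rl.symm {S : Set (End ℂ V)} {S' : Set (End ℂ V')} (h : Rl e S S') :
    Rl e.symm S' S := by
  intro T
  rw [h]
  have h1 : e.conj (e.symm.conj T) = T := by
    refine LinearMap.ext fun v => ?_
    rw [LinearEquiv.conj_apply_apply, LinearEquiv.conj_apply_apply, LinearEquiv.symm_symm,
      LinearEquiv.apply_symm_apply, LinearEquiv.apply_symm_apply]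
  rw [h1]

theorem exists_cj (T : End ℂ V') : ∃ A : End ℂ V, e.conj A = T :=
  e.conj.surjective T

theorem map_symm_map (W : Submodule ℂ V') :
    (W.map e.symm.toLinearMap).map e.toLinearMap = W := by
  ext x
  constructor
  · rintro ⟨_, ⟨y, hy, rfl⟩, rfl⟩
    change e (e.symm y) ∈ W
    rwa [e.apply_symm_apply]
  · intro hx
    exact ⟨e.symm x, ⟨x, hx, rfl⟩, e.apply_symm_apply x⟩

theorem irE_tr (h : Rl e (L : Set (End ℂ V)) L') (hU : IrE L U) :
    IrE L' (U.map e.toLinearMap) := by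
  refine ⟨fun h0 => hU.1 ?_, ?_, fun W hW hst => ?_⟩
  · rw [eq_bot_iff]
    intro u hu
    have h1 : e u ∈ U.map e.toLinearMap := ⟨u, hu, rfl⟩
    rw [h0, Submodule.mem_bot] at h1
    rw [Submodule.mem_bot]
    exact (LinearEquiv.map_eq_zero_iff e).1 h1
  · rintro T hT _ ⟨u, hu, rfl⟩
    obtain ⟨A, rfl⟩ := exists_cj (e := e) T
    refine ⟨A u, hU.2.1 A ((h A).2 hT) u hu, ?_⟩
    exact (cj_ap A u).symm
  · have h1 : W.map e.symm.toLinearMap ≤ U := by
      rintro _ ⟨w, hw, rfl⟩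
      obtain ⟨u, hu, h2⟩ := hW hw
      change e.symm w ∈ U
      rw [← h2]
      change e.symm (e u) ∈ U
      rwa [e.symm_apply_apply]
    have h2 : Stb L (W.map e.symm.toLinearMap) := by
      rintro A hA _ ⟨w, hw, rfl⟩
      refine ⟨e.conj A w, hst _ ((h A).1 hA) w hw, ?_⟩
      change e.symm (e.conj A w) = A (e.symm w)
      rw [LinearEquiv.conj_apply_apply, e.symm_apply_apply]
    rcases hU.2.2 _ h1 h2 with h3 | h3
    · left
      rw [← map_symm_map (e := e) W, h3, Submodule.map_bot]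
    · right
      rw [← map_symm_map (e := e) W, h3]

theorem full_tr (h : Rl e (L : Set (End ℂ V)) L') (hH : Rl e (Hh : Set (End ℂ V)) Hh')
    (hf : Full L Hh U) : Full L' Hh' (U.map e.toLinearMap) := by
  intro A hA B hB
  obtain ⟨A, rfl⟩ := exists_cj (e := e) A
  obtain ⟨B, rfl⟩ := exists_cj (e := e) B
  obtain ⟨C, hC, h1⟩ := hf A ((hH A).2 hA) B ((hH B).2 hB)
  refine ⟨e.conj C, (h C).1 hC, ?_⟩
  rintro _ ⟨u, hu, rfl⟩
  rw [← cj_br]
  change e.conj C (e u) = e.conj (A * B - B * A) (e u)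
  rw [cj_ap, cj_ap, h1 u hu]

theorem simp_tr (hH : Rl e (Hh : Set (End ℂ V)) Hh') (hs : Simp Hh U) :
    Simp Hh' (U.map e.toLinearMap) := by
  intro Q hQ hid
  have h1 := hs (Q.comap e.conj.toLinearMap) (fun X hX => (hH X).2 (hQ hX)) (fun A hA X hX => by
    change e.conj (A * X - X * A) ∈ Q
    rw [cj_br]
    exact hid _ ((hH A).1 hA) _ hX)
  rcases h1 with h1 | h1
  · left
    intro X hX
    obtain ⟨X, rfl⟩ := exists_cj (e := e) X
    obtain ⟨c, hc⟩ := h1 X hX
    refine ⟨c, ?_⟩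
    rintro _ ⟨u, hu, rfl⟩
    change e.conj X (e u) = c • e u
    rw [cj_ap, hc u hu, map_smul]
  · right
    intro A hA B hB
    obtain ⟨A, rfl⟩ := exists_cj (e := e) A
    obtain ⟨B, rfl⟩ := exists_cj (e := e) B
    obtain ⟨X, hX, h2⟩ := h1 A ((hH A).2 hA) B ((hH B).2 hB)
    refine ⟨e.conj X, hX, ?_⟩
    rintro _ ⟨u, hu, rfl⟩
    rw [← cj_br]
    change e.conj X (e u) = e.conj (A * B - B * A) (e u)
    rw [cj_ap, cj_ap, h2 u hu]

theorem ns_tr {D : End ℂ V} (h : ∀ c : ℂ, ∃ u ∈ U, D u ≠ c • u) (c : ℂ) :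
    ∃ u ∈ U.map e.toLinearMap, e.conj D u ≠ c • u := by
  obtain ⟨u, hu, h1⟩ := h c
  refine ⟨e u, ⟨u, hu, rfl⟩, fun h2 => h1 (e.injective ?_)⟩
  rwa [cj_ap, ← map_smul] at h2

theorem sat_tr {S : Set (End ℂ V)} {S' : Set (End ℂ V')} (hS : Rl e S S')
    (hH : Rl e (Hh : Set (End ℂ V)) Hh') (hs : Sat S Hh U) :
    Sat S' Hh' (U.map e.toLinearMap) := by
  intro R _ _ _ _ r' h1 h2 h3 h4
  let cc : Hh →ₗ[ℂ] Hh' :=
    { toFun := fun A => ⟨e.conj A, (hH A).1 A.2⟩
      map_add' := fun A B => Subtype.ext (map_add e.conj (A : End ℂ V) B)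
      map_smul' := fun c A => Subtype.ext (map_smul e.conj c (A : End ℂ V)) }
  have hcc : ∀ A : Hh, ((cc A : Hh') : End ℂ V') = e.conj (A : End ℂ V) := fun A => rfl
  have hsur : ∀ A' : Hh', ∃ A : Hh, cc A = A' := by
    intro A'
    obtain ⟨A, hA⟩ := exists_cj (e := e) (A' : End ℂ V')
    exact ⟨⟨A, (hH A).2 (by rw [hA]; exact A'.2)⟩, Subtype.ext hA⟩
  obtain ⟨f, hf0, hf⟩ := hs R (r' ∘ₗ cc) (fun A B C hC => h1 _ _ _ (by
      rw [hcc, hcc, hcc, hC, cj_br])) (fun K hK => h2 _ (by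
      rintro _ ⟨u, hu, rfl⟩
      change e.conj (K : End ℂ V) (e u) = 0
      rw [cj_ap, hK u hu, map_zero])) (fun W hW => h3 W fun A' w hw => by
      obtain ⟨A, rfl⟩ := hsur A'
      exact hW A w hw) (fun D hD => h4 (cc D) ((hS _).1 hD))
  refine ⟨e.toLinearMap ∘ₗ f, fun h0 => hf0 (LinearMap.ext fun x => ?_), fun A' => ?_⟩
  · have h5 := LinearMap.congr_fun h0 x
    exact (LinearEquiv.map_eq_zero_iff e).1 h5
  · obtain ⟨A, rfl⟩ := hsur A'
    obtain ⟨c, hc⟩ := hf A
    refine ⟨c, fun x => ?_⟩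
    change e.conj (A : End ℂ V) (e (f x)) = e (f (r' (cc A) x)) + c • e (f x)
    rw [cj_ap, hc x, map_add, map_smul]
    rfl

theorem ext_tr (hH : Rl e (Hh : Set (End ℂ V)) Hh') (hs : ExtS Hh U) :
    ExtS Hh' (U.map e.toLinearMap) := by
  intro k hk hk'
  obtain ⟨B, ⟨u, hu, hu0⟩, hB⟩ := hs k hk (by
    rwa [← LinearEquiv.finrank_map_eq e U])
  refine ⟨e.toLinearMap.compAlternatingMap (B.compLinearMap e.symm.toLinearMap),
    ⟨fun j => e (u j), fun j => ⟨u j, hu j, rfl⟩, ?_⟩, fun A' hA' => ?_⟩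
  · change e (B (fun j => e.symm (e (u j)))) ≠ 0
    have h1 : (fun j => e.symm (e (u j))) = u := funext fun j => e.symm_apply_apply _
    rw [h1]
    exact fun h => hu0 ((LinearEquiv.map_eq_zero_iff e).1 h)
  · obtain ⟨A, rfl⟩ := exists_cj (e := e) A'
    obtain ⟨c, hc⟩ := hB A ((hH A).2 hA')
    refine ⟨c, fun v hv => ?_⟩
    have h1 : ∀ j, e.symm (v j) ∈ U := fun j => by
      obtain ⟨u, hu, h2⟩ := hv j
      rw [← h2]
      change e.symm (e u) ∈ U
      rwa [e.symm_apply_apply]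
    have h2 := hc (fun j => e.symm (v j)) h1
    change e.conj A (e (B (fun j => e.symm (v j)))) = ∑ j, e (B (fun l => e.symm
      (Function.update v j (e.conj A (v j)) l))) + c • e (B (fun j => e.symm (v j)))
    rw [cj_ap, h2, map_add, map_sum, map_smul]
    congr 1
    refine Finset.sum_congr rfl fun j _ => ?_
    congr 2
    funext l
    by_cases hl : l = j
    · subst hl
      rw [Function.update_self, Function.update_self, LinearEquiv.conj_apply_apply,
        e.symm_apply_apply]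
    · rw [Function.update_of_ne hl, Function.update_of_ne hl]

end Pool.Agent.H24GS
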