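import Mathlib
import Pool.Agent.H24GS.M2
import Pool.Agent.H24GS.M3

/-!
# The part of an abelian variety which belongs to a simple factor
-/

set_option linter.unusedSectionVars false
set_option linter.unusedVariables false

namespace Pool.Agent.H24GS

open Matrix Module Pool.Agent.W437.HC Pool.Agent.W437.HD Pool.Agent.W548.Odd
open Pool.Agent.H204R3.SP Pool.Agent.H204R3.GP Pool.Agent.Y90 Pool.Agent.Y224.TS TensorProduct
open Pool.Agent.Y224.TS.St (IsHodgeTate IsTateModule)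
open Pool.Agent.W437.HP (cK cK_mul cK_one)
open Pool.Agent.R915 (VE mem_VE descent_gen commL_of IsFactor RealMax)
open Pool.Agent.N183.TS Pool.Agent.N183.U5 Pool.Agent.N183.U6 Pool.Agent.N183.U8

noncomputable section

/-- A simple factor is a direct factor. -/
theorem exists_retr {X : AV} {E : X.H → X.H → ℚ}
    (hE : Pool.Agent.Y90.St.IsPolarization X.per E) {Y : AV} (hY : IsFactor Y X) :
    ∃ (j : Y.H →ₗ[ℚ] X.H) (s : X.H →ₗ[ℚ] Y.H), IsHom Y X j ∧ IsHom X Y s ∧ ∀ y, s (j y) = y := by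
  obtain ⟨G, Z, hZ, b, hC, hb⟩ := exists_ppav' (AV.isAV X) hE
  obtain ⟨hYs, i₀, hi₀, hi₀'⟩ := hY
  obtain ⟨y₀, hy₀⟩ := hYs.1
  -- a simple factor
  obtain ⟨a, Z', E', F', hf, h', hs, ha, u, hu, hu0⟩ := exists_fac hZ
    (U := Submodule.span ℂ {w | ∃ y, w = Pool.Agent.Y90.cv (b.equivFun (i₀ y))}) (fun h1 => by
      have h2 : Pool.Agent.Y90.cv (b.equivFun (i₀ y₀)) ∈
          (⊥ : Submodule ℂ (Fin G ⊕ Fin G → ℂ)) := by
        rw [← h1]
        exact Submodule.subset_span ⟨y₀, rfl⟩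
      rw [Submodule.mem_bot] at h2
      apply hy₀
      apply hi₀'
      rw [map_zero]
      apply b.equivFun.injective
      rw [map_zero]
      funext i
      have h3 := congrFun h2 i
      change ((b.equivFun (i₀ y₀) i : ℚ) : ℂ) = 0 at h3
      exact_mod_cast h3)
  obtain ⟨hi, hfa, p, hp, hpv⟩ := fac_hom b hC h' hf hs ha
  obtain ⟨y₁, hy₁⟩ : ∃ y, p (i₀ y) ≠ 0 := by
    by_contra hcon
    push Not at hcon
    apply hu0
    have h1 : Submodule.span ℂ {w | ∃ y, w = Pool.Agent.Y90.cv (b.equivFun (i₀ y))} ≤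
        LinearMap.ker (ml F') := by
      rw [Submodule.span_le]
      rintro _ ⟨y, rfl⟩
      change ml F' (Pool.Agent.Y90.cv (b.equivFun (i₀ y))) = 0
      have h2 := hcon y
      rw [hpv] at h2
      rw [ml_apply]
      have h3 : cK ℂ F' *ᵥ Pool.Agent.Y90.cv (b.equivFun (i₀ y)) =
          Pool.Agent.Y90.cv (F' *ᵥ b.equivFun (i₀ y)) := by
        funext i
        simp [Pool.Agent.Y90.cv, cK, Matrix.mulVec, dotProduct]
      rw [h3, h2]
      funext i
      change (((0 : Fin a ⊕ Fin a → ℚ) i : ℚ) : ℂ) = 0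
      rw [Pi.zero_apply, Rat.cast_zero]
    exact LinearMap.mem_ker.1 (h1 hu)
  have hf₀ : IsHom Y (AVZ h') (p ∘ₗ i₀) := R915.IsHom.comp' hp hi₀
  have hf₀0 : p ∘ₗ i₀ ≠ 0 := fun h1 => hy₁ (LinearMap.congr_fun h1 y₁)
  obtain ⟨e, he, he'⟩ := R915.iso_of_simple hYs hfa.1 hf₀ hf₀0
  refine ⟨(inc h' b E') ∘ₗ e.toLinearMap, e.symm.toLinearMap ∘ₗ p, R915.IsHom.comp' hi he,
    R915.IsHom.comp' he' hp, fun y => ?_⟩
  change e.symm (p (inc h' b E' (e y))) = y
  rw [hpv]
  have h1 : b.equivFun (inc h' b E' (e y)) = E' *ᵥ (e y) := b.equivFun.apply_symm_apply _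
  rw [h1, mulVec_mulVec, hf.fe, one_mulVec, e.symm_apply_apply]

section

variable {K : Type} [Field K] [CharZero K] [Algebra K ℂ] {Γ : Type} [Group Γ] {X : AV}
  {ρ : Representation K Γ (K ⊗[ℚ] X.H)} {χ : Γ →* K} {G : ℕ} {Z : Matrix (Fin G) (Fin G) ℂ}
  (b : Basis (Fin G ⊕ Fin G) ℚ X.H)

/-- Operators in coordinates. -/
theorem conj_ph (T : Module.End ℂ (CV K X)) : (eY K b).conj T = ph _ (mt b T) := by
  refine LinearMap.ext fun v => ?_
  rw [LinearEquiv.conj_apply_apply]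
  change _ = mt b T *ᵥ v
  conv_rhs => rw [← (eY K b).apply_symm_apply v]
  rw [mt_mulVec]

/-- Endomorphisms with given matrix. -/
theorem exists_end (R : Matrix (Fin G ⊕ Fin G) (Fin G ⊕ Fin G) ℚ) :
    ∃ t : Module.End ℚ X.H, LinearMap.toMatrix b b t = R :=
  ⟨Matrix.toLin b b R, LinearMap.toMatrix_toLin _ _ _⟩

/-- The Lie algebra of the Hodge group in coordinates. -/
theorem hg_rl (hC : Cht (X.per.comp b.equivFun.symm.toLinearMap.toAddMonoidHom) (JR Z)) :
    Rl (eY K b) (hgC K X : Set (Module.End ℂ (CV K X))) (GG (lieM (DZ Z) ℂ)) := by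
  intro T
  rw [conj_ph]
  change _ ↔ ph _ (mt b T) ∈ GG (lieM (DZ Z) ℂ)
  rw [mem_GG]
  constructor
  · intro hT
    refine Submodule.span_induction (p := fun T _ => mt b T ∈ lieM (DZ Z) ℂ) ?_ ?_ ?_ ?_ hT
    · rintro _ ⟨t, ht, rfl⟩
      rw [bc, mt_bc2]
      exact (inHg_iff b hC t).1 ht
    · rw [show mt b (0 : Module.End ℂ (CV K X)) = 0 from map_zero _]
      exact Submodule.zero_mem _
    · intro A B _ _ h1 h2
      rw [show mt b (A + B) = mt b A + mt b B from map_add _ _ _]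
      exact Submodule.add_mem _ h1 h2
    · intro c A _ h1
      rw [mt_smul]
      exact Submodule.smul_mem _ _ h1
  · intro hM
    obtain ⟨m, c, l, hl⟩ := mat_exp (mt b T)
    choose t ht using fun j => exists_end b ((mt b T).map (l j))
    have h1 : T = ∑ j, c j • bc K (t j) := by
      apply mt_inj b
      rw [hl, show mt b (∑ j, c j • bc K (t j)) = ∑ j, mt b (c j • bc K (t j)) from
        map_sum _ _ _]
      refine Finset.sum_congr rfl fun j _ => ?_
      rw [mt_smul, bc, mt_bc2, ht]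
    rw [h1]
    refine Submodule.sum_mem _ fun j _ => Submodule.smul_mem _ _ (Submodule.subset_span
      ⟨t j, ?_, rfl⟩)
    rw [inHg_iff b hC, ht]
    exact lieM_map hM (l j)

theorem ht_rl : Rl (eY K b) (htS X ρ χ) (ph _ '' SH X.per ρ χ b) := by
  intro T
  rw [conj_ph]
  constructor
  · rintro ⟨σ, h, hh, rfl⟩
    exact ⟨_, ⟨σ, h, hh, rfl⟩, rfl⟩
  · rintro ⟨_, ⟨σ, h, hh, rfl⟩, h1⟩
    have h2 := (ph (Fin G ⊕ Fin G)).injective h1
    exact ⟨σ, h, hh, (mt_inj b h2).symm⟩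

/-- The Lie algebra of the Galois group in coordinates. -/
theorem gal_rl : Rl (eY K b) (galC X ρ χ : Set (Module.End ℂ (CV K X)))
    (GG (Y224.TS.LT (SH X.per ρ χ b))) := by
  intro T
  rw [conj_ph]
  change T ∈ galC X ρ χ ↔ ph _ (mt b T) ∈ GG (Y224.TS.LT (SH X.per ρ χ b))
  rw [mem_GG]
  constructor
  · intro hT
    let L₁ : Submodule ℂ (Module.End ℂ (CV K X)) :=
      { carrier := {T | mt b T ∈ Y224.TS.LT (SH X.per ρ χ b)}
        add_mem' := fun {A B} h1 h2 => by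
          change mt b (A + B) ∈ Y224.TS.LT (SH X.per ρ χ b)
          rw [show mt b (A + B) = mt b A + mt b B from map_add _ _ _]
          exact Submodule.add_mem _ h1 h2
        zero_mem' := by
          change mt b (0 : Module.End ℂ (CV K X)) ∈ Y224.TS.LT (SH X.per ρ χ b)
          rw [show mt b (0 : Module.End ℂ (CV K X)) = 0 from map_zero _]
          exact Submodule.zero_mem _
        smul_mem' := fun c A h1 => by
          change mt b (c • A) ∈ Y224.TS.LT (SH X.per ρ χ b)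
          rw [mt_smul]
          exact Submodule.smul_mem _ _ h1 }
    have h1 : galC X ρ χ ≤ L₁ := by
      refine sInf_le ⟨?_, fun A hA B hB => ?_⟩
      · rintro _ ⟨σ, h, hh, rfl⟩
        exact LT_gen ⟨σ, h, hh, rfl⟩
      · change mt b (A * B - B * A) ∈ Y224.TS.LT (SH X.per ρ χ b)
        rw [mt_sub, mt_mul, mt_mul]
        exact LT_br hA hB
    exact h1 hT
  · intro hM
    let L₂ : Submodule ℂ (Matrix (Fin G ⊕ Fin G) (Fin G ⊕ Fin G) ℂ) :=
      { carrier := {M | ∀ T : Module.End ℂ (CV K X), mt b T = M → T ∈ galC X ρ χ}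
        add_mem' := fun {A B} h1 h2 T hT => by
          obtain ⟨TA, rfl⟩ := mt_surj (K := K) b A
          have h3 : T = TA + (T - TA) := (add_sub_cancel _ _).symm
          rw [h3]
          exact Submodule.add_mem _ (h1 _ rfl) (h2 _ (by
            rw [mt_sub, hT, add_sub_cancel_left]))
        zero_mem' := fun T hT => by
          have h3 : T = 0 := mt_inj b (by
            rw [hT, show mt b (0 : Module.End ℂ (CV K X)) = 0 from map_zero _])
          rw [h3]
          exact Submodule.zero_mem _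
        smul_mem' := fun c A h1 T hT => by
          obtain ⟨TA, rfl⟩ := mt_surj (K := K) b A
          have h3 : T = c • TA := mt_inj b (by rw [hT, mt_smul])
          rw [h3]
          exact Submodule.smul_mem _ _ (h1 _ rfl) }
    have hD : ∀ D ∈ htS X ρ χ, D ∈ galC X ρ χ := fun D hD => by
      refine Submodule.mem_sInf.2 fun L hL => hL.1 D hD
    have h1 : Y224.TS.LT (SH X.per ρ χ b) ≤ L₂ := by
      refine LT_le ?_ fun A hA B hB T hT => ?_
      · rintro _ ⟨σ, h, hh, rfl⟩ T hT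
        rw [mt_inj b hT]
        exact hD _ ⟨σ, h, hh, rfl⟩
      · obtain ⟨TA, rfl⟩ := mt_surj (K := K) b A
        obtain ⟨TB, rfl⟩ := mt_surj (K := K) b B
        have h3 : T = TA * TB - TB * TA := mt_inj b (by rw [hT, mt_sub, mt_mul, mt_mul])
        rw [h3]
        refine Submodule.mem_sInf.2 fun L hL => hL.2 _ ?_ _ ?_
        · exact Submodule.mem_sInf.1 (hA _ rfl) L hL
        · exact Submodule.mem_sInf.1 (hB _ rfl) L hL
    exact h1 hM _ rfl

/-- The part which belongs to `Y`, in coordinates. -/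
def V0 (X Y : AV) (b : Basis (Fin G ⊕ Fin G) ℚ X.H) : Submodule ℂ (Fin G ⊕ Fin G → ℂ) :=
  Submodule.span ℂ {w | ∃ (i : Y.H →ₗ[ℚ] X.H) (y : Y.H), IsHom Y X i ∧
    w = Pool.Agent.Y90.cv (b.equivFun (i y))}

theorem isoP_map (Y : AV) : (isoP K X Y).map (eY K b).toLinearMap = V0 X Y b := by
  unfold isoP V0
  rw [Submodule.map_span]
  congr 1
  ext w
  constructor
  · rintro ⟨_, ⟨i, y, hi, rfl⟩, rfl⟩
    exact ⟨i, y, hi, eY_rat b (i y)⟩
  · rintro ⟨i, y, hi, rfl⟩
    exact ⟨_, ⟨i, y, hi, rfl⟩, eY_rat b (i y)⟩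

theorem qm_cv (R : Matrix (Fin G ⊕ Fin G) (Fin G ⊕ Fin G) ℚ) (w : Fin G ⊕ Fin G → ℚ) :
    qm R *ᵥ Pool.Agent.Y90.cv w = Pool.Agent.Y90.cv (R *ᵥ w) := by
  funext i
  simp [Pool.Agent.Y90.cv, qm, Matrix.mulVec, dotProduct]

/-- The images of the homomorphisms are stable under the Lie algebra. -/
theorem hom_stab {E : X.H → X.H → ℚ} (hE : Pool.Agent.Y90.St.IsPolarization X.per E) {Y : AV}
    (hY : IsFactor Y X) {i : Y.H →ₗ[ℚ] X.H} (hi : IsHom Y X i) {t : Module.End ℚ X.H}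
    (hc : ∀ f : Module.End ℚ X.H, IsHom X X f → t * f = f * t) (y : Y.H) :
    ∃ y', t (i y) = i y' := by
  obtain ⟨j, s, hj, hs, hsj⟩ := exists_retr hE hY
  have h1 := LinearMap.congr_fun (hc (i ∘ₗ s) (R915.IsHom.comp' hi hs)) (j y)
  rw [End.mul_apply, End.mul_apply, LinearMap.comp_apply, LinearMap.comp_apply, hsj] at h1
  exact ⟨_, h1⟩

/-- The elements of the Lie algebra commute with the endomorphisms. -/
theorem St.InHg.comm {t : Module.End ℚ X.H} (ht : InHg X t) {E : X.H → X.H → ℚ}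
    (hE : Pool.Agent.Y90.St.IsPolarization X.per E) {f : Module.End ℚ X.H}
    (hf : IsHom X X f) : t * f = f * t := by
  obtain ⟨G, Z, hZ, b, hC, hb⟩ := exists_ppav' (AV.isAV X) hE
  have h1 := lieM_comm hZ ((inHg_iff b hC t).1 ht) ((hom_DZ b hC f).1 hf)
  rw [← qm_mul', ← qm_mul', ← LinearMap.toMatrix_mul, ← LinearMap.toMatrix_mul] at h1
  have h2 : ∀ A B : Matrix (Fin G ⊕ Fin G) (Fin G ⊕ Fin G) ℚ, qm A = qm B → A = B := by
    intro A B h
    ext i j
    have h3 := congrFun (congrFun h i) j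
    change ((A i j : ℚ) : ℂ) = ((B i j : ℚ) : ℂ) at h3
    exact_mod_cast h3
  exact (LinearMap.toMatrix b b).injective (h2 _ _ h1)

/-- Stability under matrices whose components are stable. -/
theorem stab_of_comp {W : Submodule ℂ (Fin G ⊕ Fin G → ℂ)}
    {M : Matrix (Fin G ⊕ Fin G) (Fin G ⊕ Fin G) ℂ}
    (h : ∀ l : ℂ →ₗ[ℚ] ℚ, ∀ w ∈ W, qm (M.map l) *ᵥ w ∈ W) : ∀ w ∈ W, M *ᵥ w ∈ W := by
  intro w hw
  obtain ⟨m, c, l, hl⟩ := mat_exp M
  rw [hl, sum_mulVec]
  refine Submodule.sum_mem _ fun j _ => ?_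
  rw [smul_mulVec]
  exact Submodule.smul_mem _ _ (h _ w hw)

/-- Spans of images of homomorphisms are stable. -/
theorem span_stab (hZ : PM Z)
    (hC : Cht (X.per.comp b.equivFun.symm.toLinearMap.toAddMonoidHom) (JR Z))
    {E : X.H → X.H → ℚ} (hE : Pool.Agent.Y90.St.IsPolarization X.per E) {Y : AV}
    (hY : IsFactor Y X) {P : (Y.H →ₗ[ℚ] X.H) → Prop} (hP : ∀ i, P i → IsHom Y X i) :
    Stb (GG (lieM (DZ Z) ℂ)) (Submodule.span ℂ {w | ∃ (i : Y.H →ₗ[ℚ] X.H) (y : Y.H), P i ∧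
      w = Pool.Agent.Y90.cv (b.equivFun (i y))}) := by
  intro A hA
  obtain ⟨M, hM, rfl⟩ := exists_GG hA
  refine stab_of_comp fun l w hw => ?_
  obtain ⟨t, ht⟩ := exists_end b (M.map l)
  have htH : InHg X t := by
    rw [inHg_iff b hC, ht]
    exact lieM_map hM l
  refine Submodule.span_induction (p := fun w _ => qm (M.map l) *ᵥ w ∈ Submodule.span ℂ
    {w | ∃ (i : Y.H →ₗ[ℚ] X.H) (y : Y.H), P i ∧ w = Pool.Agent.Y90.cv (b.equivFun (i y))})
    ?_ ?_ ?_ ?_ hw
  · rintro _ ⟨i, y, hi, rfl⟩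
    obtain ⟨y', hy'⟩ := hom_stab hE hY (hP i hi) (fun f hf => htH.comm hE hf) y
    rw [qm_cv, ← ht, mulVec_rep, hy']
    exact Submodule.subset_span ⟨i, y', hi, rfl⟩
  · rw [mulVec_zero]
    exact Submodule.zero_mem _
  · intro x y _ _ h1 h2
    rw [mulVec_add]
    exact Submodule.add_mem _ h1 h2
  · intro c x _ h1
    rw [mulVec_smul]
    exact Submodule.smul_mem _ _ h1

end

end

end Pool.Agent.H24GS
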