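import Mathlib
import Pool.Agent.H24GS.Dfs
import Pool.Agent.H24GS.K3

/-!
# Classes of simple factors
-/

namespace Pool.Agent.H24GS

open Module Pool.Agent.Y90 Pool.Agent.R915 TensorProduct Polynomial
open Pool.Agent.N183.U5 (MaxField CopMult QuadThree)
open Pool.Agent.N183.U6 (GalMultTwo)
open Pool.Agent.N183.U8 (IrE)

export St (EmbAll)

variable {K : Type} [Field K] [CharZero K] [Algebra K ℂ] {Γ : Type} [Group Γ]

/-- The part `U` of `ℂ ⊗ H_1(Y)` has an invariant bilinear form, or both eigenvalues of one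
involution `D = 2 h - 1` on `U` are multiple, or the exterior powers of `U` occur in `H_1(X)` up to
twists. -/
def AltS (X : AV) (ρ : Representation K Γ (K ⊗[ℚ] X.H)) (χ : Γ →* K) (U : Submodule ℂ (CV K X)) :
    Prop :=
  (∃ β : CV K X →ₗ[ℂ] CV K X →ₗ[ℂ] ℂ,
      (∀ A ∈ hgC K X, ∀ u ∈ U, ∀ v ∈ U, β (A u) v + β u (A v) = 0) ∧
      ∃ u ∈ U, ∃ v ∈ U, β u v ≠ 0) ∨
    (∃ D ∈ htS X ρ χ, 2 ≤ finrank ℂ (U ⊓ LinearMap.ker (D - 1) : Submodule ℂ (CV K X)) ∧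
      2 ≤ finrank ℂ (U ⊓ LinearMap.ker (D + 1) : Submodule ℂ (CV K X))) ∨ ExtS (hgC K X) U

/-- The Hodge-Tate elements do not act by scalars on `U`. -/
def NonS (X : AV) (ρ : Representation K Γ (K ⊗[ℚ] X.H)) (χ : Γ →* K) (U : Submodule ℂ (CV K X)) :
    Prop :=
  ∀ D ∈ htS X ρ χ, ∀ c : ℂ, ∃ u ∈ U, D u ≠ c • u

/-- Unitary groups without compact factors, of arbitrary signatures. -/
def UnitS (X : AV) (ρ : Representation K Γ (K ⊗[ℚ] X.H)) (χ : Γ →* K) (Y : AV) : Prop :=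
  EmbAll Y ∧ (QuadThree Y ∨ CopMult Y ∨ GalMultTwo X ρ Y) ∧
    ∀ U ≤ isoP K X Y, IrE (hgC K X) U → AltS X ρ χ U

/-- For the irreducible parts `U` of `ℂ ⊗ H_1(Y)` the Lie algebra `ℂ ⊗ 𝔤` contains an element which
is of rank one on `U`. -/
def RankS (X : AV) (ρ : Representation K Γ (K ⊗[ℚ] X.H)) (χ : Γ →* K) (Y : AV) : Prop :=
  ∀ U ≤ isoP K X Y, IrE (hgC K X) U → NonS X ρ χ U ∧
    (∃ N ∈ galC X ρ χ, finrank ℂ (U.map N) = 1) ∧ AltS X ρ χ U

/-- For the irreducible parts `U` of `ℂ ⊗ H_1(Y)` the restrictions of `ℂ ⊗ 𝔤` and `ℂ ⊗ 𝔥` to `U` have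
the same derived algebra (`Full`), this is a simple Lie algebra (`Simp`), and all irreducible
representations of it, on which the Hodge-Tate elements have two weights, occur in `ℂ ⊗ H_1(X)` up to
twists (`Sat`). -/
def FullS (X : AV) (ρ : Representation K Γ (K ⊗[ℚ] X.H)) (χ : Γ →* K) (Y : AV) : Prop :=
  ∀ U ≤ isoP K X Y, IrE (hgC K X) U → NonS X ρ χ U ∧
    Full (galC X ρ χ) (hgC K X) U ∧ Simp (hgC K X) U ∧ Sat (htS X ρ χ) (hgC K X) U

/-- The classes of simple factors `Y` of `X`. -/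
def GoodS (X : AV) (ρ : Representation K Γ (K ⊗[ℚ] X.H)) (χ : Γ →* K) (Y : AV) : Prop :=
  UnitS X ρ χ Y ∨ RankS X ρ χ Y ∨ FullS X ρ χ Y

end Pool.Agent.H24GS
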