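import Mathlib
import Pool.Agent.H24GS.K1

/-!
# The local statement for the classical blocks
-/

set_option autoImplicit false
set_option linter.unusedSectionVars false
set_option linter.unusedVariables false

namespace Pool.Agent.H24GS

open Module Pool.Agent.N183.U8

variable {V : Type} [AddCommGroup V] [Module ℂ V] [FiniteDimensional ℂ V] {S : Set (End ℂ V)}
  {L Hh : Submodule ℂ (End ℂ V)} {om : V →ₗ[ℂ] V →ₗ[ℂ] ℂ}

/-- **The local statement for the classical blocks.** -/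
theorem pu_of_lc (hA : S_A) (hB : S_B) (hC : S_C) (hB' : S_Bsl) (hC' : S_Csl) (hF : S_F3)
    (k : HC S L om Hh) {U : Submodule ℂ V} (hU : IrE L U) (hl : Lc S L U) : PU S L Hh U := by
  intro B hB₁ hBt
  obtain ⟨U', -, hU', huu⟩ := k.toCtx.exists_dual (U := U) (V₀ := ⊤) (fun X _ v _ => trivial) (by
    obtain ⟨u, hu, hu0⟩ := Submodule.exists_mem_ne_zero_of_ne_bot hU.1
    by_contra hcon
    push Not at hcon
    exact hu0 (k.nd u fun v => hcon u hu v trivial))
  obtain ⟨C, h1, h2, h3, h4⟩ := (k.toCtx.core hA hB hC hB' hC' hF hU hU' huu hl).1 B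
    (k.stb hB₁ hU.2.1) (k.hskw B hB₁) (k.hdc B hB₁) hBt
  refine ⟨C, h1, h3, fun u hu => h2 ⟨u, hu⟩, fun W hW => ?_⟩
  rcases h4 W hW with h5 | h5 | h5
  · left
    intro K hK hKt hKU
    exact (iso_zero k.SL k.gen k.cr (k.hdc K hK) hU hW h5).1 hKU
  · left
    intro K hK hKt hKU
    exact (iso_zero k.SL k.gen k.cr (k.hdc K hK) hU' hW h5).1
      (k.toCtx.zero_dual hU.2.1 hU' huu (k.hskw K hK) (k.stb hK hU'.2.1) hKU)
  · exact Or.inr h5

end Pool.Agent.H24GS
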