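import Mathlib
import Pool.Agent.H24GS.K3

/-!
# Saturated stable subspaces: the local theorem
-/

set_option autoImplicit false
set_option linter.unusedSectionVars false
set_option linter.unusedVariables false

namespace Pool.Agent.H24GS

open Module Pool.Agent.N183.U8

variable {V : Type} [AddCommGroup V] [Module ℂ V] [FiniteDimensional ℂ V]
  {S : Set (End ℂ V)} {L Hh : Submodule ℂ (End ℂ V)} {om : V →ₗ[ℂ] V →ₗ[ℂ] ℂ}

/-- **The local theorem for saturated subspaces.** -/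
theorem pu_of_sat (hA : S_A) (k : HC S L om Hh) {U : Submodule ℂ V} (hU : IrE L U)
    (hfull : Full L Hh U) (hsimp : Simp Hh U)
    (hns : ∀ D ∈ S, ∀ c : ℂ, ∃ u ∈ U, D u ≠ c • u) (hsat : Sat S Hh U) : PU S L Hh U := by
  classical
  obtain ⟨I, i⟩ := exists_idl hA k hU hfull
  obtain ⟨s, hsI, hs⟩ := i.exists_s k hU
  have hIH : ∀ {C}, C ∈ I → C ∈ Hh := fun hC => k.le (i.le hC)
  -- uniqueness
  have hsu : ∀ (A : Hh) (a : ℂ) (C : End ℂ V), C ∈ I →
      (∀ u ∈ U, (A : End ℂ V) u = a • u + C u) → s A = C := by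
    intro A a C hC h
    obtain ⟨a', h'⟩ := hs A
    exact i.uniq k hU (hsI A) hC h' h
  have hsid : ∀ (C : End ℂ V) (hC : C ∈ I), s ⟨C, hIH hC⟩ = C := fun C hC =>
    hsu _ 0 C hC fun u hu => by rw [zero_smul, zero_add]
  have hs0 : ∀ K : Hh, (∀ u ∈ U, (K : End ℂ V) u = 0) → s K = 0 := fun K hK =>
    hsu K 0 0 I.zero_mem fun u hu => by rw [hK u hu, zero_smul, zero_add, LinearMap.zero_apply]
  have hsbr : ∀ A B C : Hh, (C : End ℂ V) = A * B - B * A → s C = s A * s B - s B * s A := by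
    intro A B C hC
    refine hsu C 0 _ (i.idl _ (i.le (hsI A)) _ (hsI B)) fun u hu => ?_
    obtain ⟨a, ha⟩ := hs A
    obtain ⟨b, hb⟩ := hs B
    have h1 : ∀ v ∈ U, s A v ∈ U := fun v hv => hU.2.1 _ (i.le (hsI A)) v hv
    have h2 : ∀ v ∈ U, s B v ∈ U := fun v hv => hU.2.1 _ (i.le (hsI B)) v hv
    rw [hC, LinearMap.sub_apply, LinearMap.sub_apply, End.mul_apply, End.mul_apply, End.mul_apply,
      End.mul_apply, ha u hu, hb u hu, map_add, map_add, map_smul, map_smul, ha u hu, hb u hu,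
      ha _ (h2 u hu), hb _ (h1 u hu)]
    module
  intro B hB hBt
  refine ⟨s ⟨B, hB⟩, i.le (hsI _), i.tf k (hsI _), ?_, fun W hW => ?_⟩
  · obtain ⟨b, hb⟩ := hs ⟨B, hB⟩
    have h1 := tf_scal k hU.2.1 hU.1 (tf_sub hBt (i.tf k (hsI ⟨B, hB⟩))) (c := b) fun u hu => by
      rw [LinearMap.sub_apply]
      change (B : End ℂ V) u - _ = _
      rw [show B u = _ from hb u hu, add_sub_cancel_right]
    intro u hu
    have h2 : B u = b • u + s ⟨B, hB⟩ u := hb u hu
    rw [h2, h1, zero_smul, zero_add]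
  by_cases hIW : ∀ C ∈ I, ∀ w ∈ W, C w = 0
  · exact Or.inr (hIW _ (hsI _))
  left
  push Not at hIW
  obtain ⟨C₀, hC₀, w₀, hw₀, hCw⟩ := hIW
  have hHW : ∀ A ∈ Hh, ∀ w ∈ W, A w ∈ W := fun A hA => k.stb hA hW.2.1
  have hIWs : ∀ C ∈ I, ∀ w ∈ W, C w ∈ W := fun C hC => hHW C (hIH hC)
  -- the ideal acts faithfully on `W`
  have hfaith : ∀ C ∈ I, (∀ w ∈ W, C w = 0) → C = 0 := by
    let Q : Submodule ℂ (End ℂ V) :=
      { carrier := {A | ∃ h : A ∈ Hh, ∀ w ∈ W, s ⟨A, h⟩ w = 0}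
        add_mem' := by
          rintro A A' ⟨h1, h2⟩ ⟨h1', h2'⟩
          refine ⟨Hh.add_mem h1 h1', fun w hw => ?_⟩
          have h3 : (⟨A + A', Hh.add_mem h1 h1'⟩ : Hh) = ⟨A, h1⟩ + ⟨A', h1'⟩ := rfl
          rw [h3, map_add, LinearMap.add_apply, h2 w hw, h2' w hw, add_zero]
        zero_mem' := ⟨Hh.zero_mem, fun w hw => by
          have h3 : (⟨0, Hh.zero_mem⟩ : Hh) = 0 := rfl
          rw [h3, map_zero, LinearMap.zero_apply]⟩
        smul_mem' := by
          rintro c A ⟨h1, h2⟩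
          refine ⟨Hh.smul_mem c h1, fun w hw => ?_⟩
          have h3 : (⟨c • A, Hh.smul_mem c h1⟩ : Hh) = c • ⟨A, h1⟩ := rfl
          rw [h3, map_smul, LinearMap.smul_apply, h2 w hw, smul_zero] }
    rcases hsimp Q (fun A hA => hA.1) (by
      rintro A hA X ⟨hX, hX1⟩
      refine ⟨k.hbr A hA X hX, fun w hw => ?_⟩
      rw [hsbr ⟨A, hA⟩ ⟨X, hX⟩ _ rfl, LinearMap.sub_apply, End.mul_apply, End.mul_apply, hX1 w hw,
        hX1 _ (hIWs _ (hsI _) w hw), map_zero, sub_zero]) with h1 | h1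
    · intro C hC hCW
      obtain ⟨c, hc⟩ := h1 C ⟨hIH hC, fun w hw => by rw [hsid C hC]; exact hCW w hw⟩
      have h2 := tf_scal k hU.2.1 hU.1 (i.tf k hC) hc
      exact i.inj C hC fun u hu => by rw [hc u hu, h2, zero_smul]
    · exfalso
      apply hCw
      refine Submodule.span_induction (p := fun X _ => X w₀ = 0) ?_ ?_ ?_ ?_ (i.perf hC₀)
      · rintro _ ⟨A, hA, A', hA', rfl⟩
        obtain ⟨X, ⟨hX, hX1⟩, hX2⟩ := h1 A (hIH hA) A' (hIH hA')
        have h3 : s ⟨X, hX⟩ = A * A' - A' * A := hsu _ 0 _ (i.idl A (i.le hA) A' hA') fun u hu => by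
          rw [zero_smul, zero_add]
          exact hX2 u hu
        rw [← h3]
        exact hX1 w₀ hw₀
      · rfl
      · intro X Y _ _ h2 h3
        rw [LinearMap.add_apply, h2, h3, add_zero]
      · intro c X _ h2
        rw [LinearMap.smul_apply, h2, smul_zero]
  -- the involutions
  have hDd : ∀ (D : End ℂ V) (hD : D ∈ S), ∀ C ∈ I,
      (D - s ⟨D, k.hSL D hD⟩) * C = C * (D - s ⟨D, k.hSL D hD⟩) := by
    intro D hD C hC
    obtain ⟨a, ha⟩ := hs ⟨D, k.hSL D hD⟩
    have ha' : ∀ u ∈ U, D u = a • u + s ⟨D, k.hSL D hD⟩ u := ha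
    have h1 : (D * C - C * D) - (s ⟨D, k.hSL D hD⟩ * C - C * s ⟨D, k.hSL D hD⟩) = 0 := by
      refine i.inj _ (I.sub_mem (i.idl D (k.SL D hD) C hC)
        (i.idl _ (i.le (hsI _)) C hC)) fun u hu => ?_
      have h2 := hU.2.1 C (i.le hC) u hu
      rw [LinearMap.sub_apply, LinearMap.sub_apply, LinearMap.sub_apply, End.mul_apply,
        End.mul_apply, End.mul_apply, End.mul_apply, ha' u hu, ha' _ h2, map_add, map_smul]
      abel
    rw [sub_mul, mul_sub]
    have h2 := sub_eq_zero.1 h1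
    rw [sub_eq_sub_iff_add_eq_add] at h2 ⊢
    rw [add_comm (C * D)]
    rw [h2]
  have hCm : ∀ (D : End ℂ V) (hD : D ∈ S), Cm I W (D - s ⟨D, k.hSL D hD⟩) := fun D hD =>
    ⟨fun w hw => W.sub_mem (hW.2.1 D (k.SL D hD) w hw) (hIWs _ (hsI _) w hw),
      fun C hC w hw => LinearMap.congr_fun (hDd D hD C hC) w⟩
  have hnsW : ∀ (D : End ℂ V) (hD : D ∈ S), ∀ c : ℂ, ∃ w ∈ W, s ⟨D, k.hSL D hD⟩ w ≠ c • w := by
    intro D hD c
    by_contra hcon
    push Not at hcon
    have h1 : ∀ C ∈ I, s ⟨D, k.hSL D hD⟩ * C = C * s ⟨D, k.hSL D hD⟩ := by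
      intro C hC
      refine sub_eq_zero.1 (hfaith _ (i.idl _ (i.le (hsI _)) C hC) fun w hw => ?_)
      rw [LinearMap.sub_apply, End.mul_apply, End.mul_apply, hcon w hw, hcon _ (hIWs C hC w hw),
        map_smul, sub_self]
    have h2 : ∀ C ∈ I, D * C = C * D := by
      intro C hC
      have h3 := hDd D hD C hC
      rw [sub_mul, mul_sub, h1 C hC] at h3
      exact sub_left_inj.1 h3
    obtain ⟨c, hc⟩ := scal_on hU (fun u hu => hU.2.1 D (k.SL D hD) u hu) (fun X hX u hu => by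
      obtain ⟨a, C, hC, hXC⟩ := i.ex X (k.le hX)
      have h3 := LinearMap.congr_fun (h2 C hC) u
      rw [End.mul_apply, End.mul_apply] at h3
      rw [hXC u hu, hXC _ (hU.2.1 D (k.SL D hD) u hu), map_add, map_smul, h3])
    obtain ⟨u, hu, h3⟩ := hns D hD c
    exact h3 (hc u hu)
  have hsc : ∀ (D : End ℂ V) (hD : D ∈ S), ∃ c : ℂ, ∀ w ∈ W,
      D w = s ⟨D, k.hSL D hD⟩ w + c • w := by
    intro D hD
    obtain ⟨c, hc⟩ := scalar_part k i.le hW (fun D hD => ⟨_, hsI _, hCm D hD⟩) hD (hsI _)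
      (hCm D hD) (hnsW D hD)
    refine ⟨c, fun w hw => ?_⟩
    rw [← hc w hw, LinearMap.sub_apply, add_sub_cancel]
  -- all elements of `L`
  have hLW : ∀ X ∈ L, ∃ (h : X ∈ Hh) (c : ℂ), ∀ w ∈ W, X w = s ⟨X, h⟩ w + c • w := by
    let L' : Submodule ℂ (End ℂ V) :=
      { carrier := {X | ∃ (h : X ∈ Hh) (c : ℂ), ∀ w ∈ W, X w = s ⟨X, h⟩ w + c • w}
        add_mem' := by
          rintro A A' ⟨h1, a, h2⟩ ⟨h1', a', h2'⟩
          refine ⟨Hh.add_mem h1 h1', a + a', fun w hw => ?_⟩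
          have h3 : (⟨A + A', Hh.add_mem h1 h1'⟩ : Hh) = ⟨A, h1⟩ + ⟨A', h1'⟩ := rfl
          rw [h3, map_add, LinearMap.add_apply, LinearMap.add_apply, h2 w hw, h2' w hw]
          module
        zero_mem' := ⟨Hh.zero_mem, 0, fun w hw => by
          have h3 : (⟨0, Hh.zero_mem⟩ : Hh) = 0 := rfl
          rw [h3, map_zero, LinearMap.zero_apply, zero_smul, add_zero]⟩
        smul_mem' := by
          rintro c A ⟨h1, a, h2⟩
          refine ⟨Hh.smul_mem c h1, c * a, fun w hw => ?_⟩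
          have h3 : (⟨c • A, Hh.smul_mem c h1⟩ : Hh) = c • ⟨A, h1⟩ := rfl
          rw [h3, map_smul, LinearMap.smul_apply, LinearMap.smul_apply, h2 w hw, smul_add,
            smul_smul] }
    have h1 : L ≤ L' := by
      refine k.gen L' (fun D hD => ?_) ?_
      · obtain ⟨c, hc⟩ := hsc D hD
        exact ⟨k.hSL D hD, c, hc⟩
      · rintro X ⟨hX, c, hX1⟩ Y ⟨hY, d, hY1⟩
        refine ⟨k.hbr X hX Y hY, 0, fun w hw => ?_⟩
        rw [hsbr ⟨X, hX⟩ ⟨Y, hY⟩ _ rfl, zero_smul, add_zero, LinearMap.sub_apply,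
          LinearMap.sub_apply, End.mul_apply, End.mul_apply, End.mul_apply, End.mul_apply,
          hX1 w hw, hY1 w hw, map_add, map_add, map_smul, map_smul, hX1 w hw, hY1 w hw,
          hX1 _ (hIWs _ (hsI ⟨Y, hY⟩) w hw), hY1 _ (hIWs _ (hsI ⟨X, hX⟩) w hw)]
        module
    exact fun X hX => h1 hX
  -- the representation
  obtain ⟨pW, hpW⟩ := LinearMap.exists_leftInverse_of_injective W.subtype
    (Submodule.ker_subtype W)
  have hpW' : ∀ w : W, pW (w : V) = w := fun w => LinearMap.congr_fun hpW w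
  let r : Hh →ₗ[ℂ] End ℂ W :=
    { toFun := fun A => pW ∘ₗ s A ∘ₗ W.subtype
      map_add' := fun A A' => by
        rw [map_add]
        refine LinearMap.ext fun w => ?_
        change pW ((s A + s A') (w : V)) = pW (s A (w : V)) + pW (s A' (w : V))
        rw [LinearMap.add_apply, map_add]
      map_smul' := fun c A => by
        rw [map_smul]
        refine LinearMap.ext fun w => ?_
        change pW ((c • s A) (w : V)) = c • pW (s A (w : V))
        rw [LinearMap.smul_apply, map_smul] }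
  have hr : ∀ (A : Hh) (w : W), ((r A w : W) : V) = s A w := by
    intro A w
    change ((pW (s A (w : V)) : W) : V) = s A w
    rw [hpW' ⟨s A w, hIWs _ (hsI A) w w.2⟩]
  have hWn : Nontrivial W := Submodule.nontrivial_iff_ne_bot.2 hW.1
  have hrirr : ∀ W' : Submodule ℂ W, (∀ A, ∀ w ∈ W', r A w ∈ W') → W' = ⊥ ∨ W' = ⊤ := by
    intro W' hW'
    rcases hW.2.2 (W'.map W.subtype) (by rintro _ ⟨w, -, rfl⟩; exact w.2) (by
      rintro X hX _ ⟨w, hw, rfl⟩
      obtain ⟨h1, c, h2⟩ := hLW X hX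
      refine ⟨r ⟨X, h1⟩ w + c • w, W'.add_mem (hW' _ w hw) (W'.smul_mem c hw), ?_⟩
      change ((r ⟨X, h1⟩ w : W) : V) + c • (w : V) = X w
      rw [hr, h2 w w.2]) with h1 | h1
    · left
      rw [eq_bot_iff]
      intro w hw
      have h2 : (w : V) ∈ W'.map W.subtype := ⟨w, hw, rfl⟩
      rw [h1, Submodule.mem_bot] at h2
      exact (Submodule.mem_bot ℂ).2 (Subtype.ext h2)
    · right
      rw [eq_top_iff]
      intro w _
      have h2 : (w : V) ∈ W'.map W.subtype := by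
        rw [h1]
        exact w.2
      obtain ⟨w', hw', h3⟩ := h2
      rwa [← (Subtype.ext h3 : w' = w)]
  have hrD : ∀ (D : End ℂ V) (hD : D ∈ S) (l : ℂ),
      (∀ w ∈ W, D w = s ⟨D, k.hSL D hD⟩ w + l • w) → ∀ w : W,
      (r ⟨D, k.hSL D hD⟩ + l • 1) ((r ⟨D, k.hSL D hD⟩ + l • 1) w) = w := by
    intro D hD l hl w
    have h1 : ∀ w : W, (((r ⟨D, k.hSL D hD⟩ + l • 1) w : W) : V) = D w := by
      intro w
      change ((r ⟨D, k.hSL D hD⟩ w : W) : V) + l • (w : V) = D w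
      rw [hr, hl w w.2]
    apply Subtype.ext
    rw [h1, h1, ← End.mul_apply, k.sq D hD]
    rfl
  have hrns : ∀ (D : End ℂ V) (hD : D ∈ S) (c : ℂ), r ⟨D, k.hSL D hD⟩ ≠ c • 1 := by
    intro D hD c h1
    obtain ⟨w, hw, h2⟩ := hnsW D hD c
    apply h2
    have h3 := congrArg Subtype.val (LinearMap.congr_fun h1 ⟨w, hw⟩)
    rw [hr] at h3
    exact h3
  obtain ⟨f, hf0, hf⟩ := hsat W r (fun A B C hC => LinearMap.ext fun w => Subtype.ext (by
      rw [hr, hsbr A B C hC]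
      change s A (s B w) - s B (s A w) = ((r A (r B w) : W) : V) - ((r B (r A w) : W) : V)
      rw [hr, hr, hr, hr])) (fun K hK => LinearMap.ext fun w => Subtype.ext (by
      rw [hr, hs0 K hK]
      rfl)) hrirr (fun D hD => by
      obtain ⟨l, hl⟩ := hsc D hD
      exact ⟨⟨l, LinearMap.ext fun w => hrD D hD l hl w⟩, hrns D hD⟩)
  have hfinj : ∀ x, f x = 0 → x = 0 := by
    rcases hrirr (LinearMap.ker f) (fun A w hw => by
      obtain ⟨c, hc⟩ := hf A
      have h1 := hc w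
      rw [LinearMap.mem_ker] at hw ⊢
      rw [hw, map_zero, smul_zero, add_zero] at h1
      exact h1.symm) with h1 | h1
    · intro x hx
      have h2 : x ∈ LinearMap.ker f := hx
      rwa [h1, Submodule.mem_bot] at h2
    · exact absurd (LinearMap.ker_eq_top.1 h1) hf0
  have hfD : ∀ (D : End ℂ V) (hD : D ∈ S) (w : W),
      D (f w) = f ⟨D w, hW.2.1 D (k.SL D hD) w w.2⟩ := by
    intro D hD
    obtain ⟨c, hc⟩ := hf ⟨D, k.hSL D hD⟩
    obtain ⟨l, hl⟩ := hsc D hD
    obtain ⟨T, hT⟩ : ∃ T, T = r ⟨D, k.hSL D hD⟩ := ⟨_, rfl⟩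
    have hc' : ∀ x, D (f x) = f (T x + c • x) := by
      intro x
      rw [map_add, map_smul, hT]
      exact hc x
    have hT1 : ∀ x : W, T (T x + c • x) + c • (T x + c • x) = x := by
      intro x
      have h1 : D (D (f x)) = f x := by
        rw [← End.mul_apply, k.sq D hD]
        rfl
      rw [hc', hc'] at h1
      have h2 : f (T (T x + c • x) + c • (T x + c • x) - x) = 0 := by
        rw [map_sub, h1, sub_self]
      exact sub_eq_zero.1 (hfinj _ h2)
    have hT2 : ∀ x : W, T (T x + l • x) + l • (T x + l • x) = x := by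
      intro x
      have h1 := hrD D hD l hl x
      rw [← hT] at h1
      exact h1
    have hcl : c = l := by
      by_contra hne
      refine hrns D hD (-((c + l) / 2)) (LinearMap.ext fun x => ?_)
      rw [← hT]
      have h1 : (c - l) • ((2 : ℂ) • T x + (c + l) • x) = 0 := by
        have h2 := hT1 x
        have h3 := hT2 x
        rw [map_add, map_smul] at h2 h3
        have h4 : (T (T x) + c • T x + c • (T x + c • x)) -
            (T (T x) + l • T x + l • (T x + l • x)) = 0 := by rw [h2, h3, sub_self]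
        rw [← h4]
        module
      have h2 := (smul_eq_zero.1 h1).resolve_left (sub_ne_zero.2 hne)
      change T x = (-((c + l) / 2)) • x
      have h3 : (2 : ℂ) • (T x - (-((c + l) / 2)) • x) = 0 := by
        rw [← h2]
        module
      exact sub_eq_zero.1 ((smul_eq_zero.1 h3).resolve_left two_ne_zero)
    intro w
    rw [hc']
    congr 1
    apply Subtype.ext
    change ((T w : W) : V) + c • (w : V) = D w
    rw [hT, hr, hcl, hl w w.2]
  -- the extension of `f`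
  obtain ⟨π, h1, h2, h3⟩ := exists_pr k.SL k.cr hW.2.1
  let F : End ℂ V := f ∘ₗ (π.codRestrict W h1)
  have hF : ∀ v, F v = f ⟨π v, h1 v⟩ := fun v => rfl
  have hFD : ∀ D ∈ S, F * D = D * F := by
    intro D hD
    refine LinearMap.ext fun v => ?_
    rw [End.mul_apply, End.mul_apply, hF, hF, hfD D hD]
    congr 1
    exact Subtype.ext (h3 D (k.SL D hD) v)
  intro K hK hKt hKU
  have h4 := k.hdc K hK F hFD
  obtain ⟨c, hc⟩ := hf ⟨K, hK⟩
  have hc' : ∀ x, K (f x) = c • f x := by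
    intro x
    have h5 : r ⟨K, hK⟩ = 0 := LinearMap.ext fun w => Subtype.ext (by
      rw [hr, hs0 ⟨K, hK⟩ hKU]
      rfl)
    have h6 := hc x
    rw [h5, LinearMap.zero_apply, map_zero, zero_add] at h6
    exact h6
  have hKc : ∀ w ∈ W, K w = c • w := by
    intro w hw
    have h5 := LinearMap.congr_fun h4 w
    rw [End.mul_apply, End.mul_apply, hF, hF] at h5
    have h6 : (⟨π w, h1 w⟩ : W) = ⟨w, hw⟩ := Subtype.ext (h2 w hw)
    have h7 : (⟨π (K w), h1 (K w)⟩ : W) = ⟨K w, hHW K hK w hw⟩ :=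
      Subtype.ext (h2 _ (hHW K hK w hw))
    rw [h6, h7, hc', ← map_smul] at h5
    have h8 : f (⟨K w, hHW K hK w hw⟩ - c • ⟨w, hw⟩) = 0 := by rw [map_sub, h5, sub_self]
    have h9 := congrArg Subtype.val (sub_eq_zero.1 (hfinj _ h8))
    exact h9
  have h5 := tf_scal k hW.2.1 hW.1 hKt hKc
  intro w hw
  rw [hKc w hw, h5, zero_smul]

end Pool.Agent.H24GS
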