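import Mathlib
import Pool.Agent.H24GS.K3

/-!
# Ideals of linear Lie algebras which contain the special linear Lie algebra
-/

set_option autoImplicit false
set_option linter.unusedSectionVars false
set_option linter.unusedVariables false

namespace Pool.Agent.H24GS

open Module Pool.Agent.N183.U8

section sl

variable {U : Type} [AddCommGroup U] [Module ℂ U]

/-- Operators of rank one. -/
def mo (x : U) (φ : Dual ℂ U) : End ℂ U := φ.smulRight x

theorem mo_apply (x : U) (φ : Dual ℂ U) (v : U) : mo x φ v = φ v • x := rfl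

theorem mo_tr [FiniteDimensional ℂ U] (x : U) (φ : Dual ℂ U) :
    LinearMap.trace ℂ U (mo x φ) = φ x := LinearMap.trace_smulRight _ _

/-- Separation of a vector from a line. -/
theorem exists_sep {x y : U} (h : ∀ c : ℂ, y ≠ c • x) : ∃ φ : Dual ℂ U, φ x = 0 ∧ φ y = 1 := by
  have h1 : y ∉ Submodule.span ℂ {x} := by
    intro h2
    obtain ⟨c, hc⟩ := Submodule.mem_span_singleton.1 h2
    exact h c hc.symm
  obtain ⟨f, hf, hle⟩ := Submodule.exists_le_ker_of_notMem h1
  refine ⟨(f y)⁻¹ • f, ?_, ?_⟩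
  · rw [LinearMap.smul_apply, LinearMap.mem_ker.1 (hle (Submodule.mem_span_singleton_self x)),
      smul_zero]
  · rw [LinearMap.smul_apply, smul_eq_mul, inv_mul_cancel₀ hf]

/-- Separation of a form from a line. -/
theorem exists_sep' {φ ψ : Dual ℂ U} (h : ∀ c : ℂ, φ ≠ c • ψ) : ∃ z : U, ψ z = 0 ∧ φ z = 1 := by
  by_contra hcon
  push Not at hcon
  have h1 : ∀ z, ψ z = 0 → φ z = 0 := by
    intro z hz
    by_contra h2
    apply hcon ((φ z)⁻¹ • z)
    · rw [map_smul, hz, smul_zero]
    · rw [map_smul, smul_eq_mul, inv_mul_cancel₀ h2]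
  by_cases hψ : ψ = 0
  · apply h 0
    refine LinearMap.ext fun z => ?_
    rw [h1 z (by rw [hψ, LinearMap.zero_apply]), zero_smul, LinearMap.zero_apply]
  · obtain ⟨v, hv⟩ : ∃ v, ψ v ≠ 0 := by
      by_contra h2
      push Not at h2
      exact hψ (LinearMap.ext h2)
    apply h (φ v / ψ v)
    refine LinearMap.ext fun z => ?_
    have h2 := h1 (z - (ψ z / ψ v) • v) (by
      rw [map_sub, map_smul, smul_eq_mul, div_mul_cancel₀ _ hv, sub_self])
    rw [map_sub, map_smul, smul_eq_mul, sub_eq_zero] at h2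
    rw [h2, LinearMap.smul_apply, smul_eq_mul]
    ring

variable [FiniteDimensional ℂ U]

/-- **Ideals.** A space of operators stable under the brackets with the operators of trace zero is
scalar or contains the operators of trace zero. -/
theorem idl_sl (h3 : 3 ≤ finrank ℂ U) {q : Submodule ℂ (End ℂ U)}
    (hq : ∀ A, LinearMap.trace ℂ U A = 0 → ∀ X ∈ q, A * X - X * A ∈ q) {X₀ : End ℂ U}
    (hX₀ : X₀ ∈ q) (hns : ∀ c : ℂ, X₀ ≠ c • 1) {A : End ℂ U}
    (hA : LinearMap.trace ℂ U A = 0) : A ∈ q := by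
  classical
  -- a vector which is not an eigenvector
  obtain ⟨x, φ, hφx, hφX⟩ : ∃ (x : U) (φ : Dual ℂ U), φ x = 0 ∧ φ (X₀ x) = 1 := by
    by_contra hcon
    push Not at hcon
    have h1 : ∀ x, ∃ c : ℂ, X₀ x = c • x := by
      intro x
      by_contra h2
      push Not at h2
      obtain ⟨φ, h4, h5⟩ := exists_sep h2
      exact hcon x φ h4 h5
    obtain ⟨c, hc⟩ := LinearMap.exists_eq_smul_id_of_forall_notLinearIndependent (f := X₀)
      (fun v hv => by
        obtain ⟨c, hc⟩ := h1 v
        have h2 := LinearIndependent.pair_iff.1 hv c (-1) (by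
          rw [hc, neg_one_smul, add_neg_cancel])
        exact one_ne_zero (neg_eq_zero.1 h2.2))
    exact hns c hc
  have hx0 : x ≠ 0 := by
    rintro rfl
    rw [map_zero, map_zero] at hφX
    exact zero_ne_one hφX
  have hφ0 : φ ≠ 0 := by
    rintro rfl
    rw [LinearMap.zero_apply] at hφX
    exact zero_ne_one hφX
  have hN : mo x φ ∈ q := by
    have h1 := hq (mo x φ) (by rw [mo_tr, hφx]) X₀ hX₀
    have h2 := hq (mo x φ) (by rw [mo_tr, hφx]) _ h1
    have h4 : mo x φ * (mo x φ * X₀ - X₀ * mo x φ) - (mo x φ * X₀ - X₀ * mo x φ) * mo x φ =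
        (-2 : ℂ) • mo x φ := by
      refine LinearMap.ext fun v => ?_
      simp only [LinearMap.sub_apply, End.mul_apply, mo_apply, map_sub, map_smul, smul_eq_mul,
        LinearMap.smul_apply, hφx, hφX]
      simp only [mul_zero, zero_smul, smul_zero, mul_one, sub_zero, zero_sub]
      module
    rw [h4] at h2
    have h5 := q.smul_mem (-2 : ℂ)⁻¹ h2
    rwa [smul_smul, inv_mul_cancel₀ (by norm_num : (-2 : ℂ) ≠ 0), one_smul] at h5
  -- the transitions
  have T1 : ∀ (x y : U) (φ : Dual ℂ U), x ≠ 0 → φ x = 0 → φ y = 0 → mo x φ ∈ q → mo y φ ∈ q := by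
    intro x y φ hx0 hφx hφy hN
    by_cases hxy : ∃ c : ℂ, x = c • y
    · obtain ⟨c, hc⟩ := hxy
      have hc0 : c ≠ 0 := by
        rintro rfl
        rw [zero_smul] at hc
        exact hx0 hc
      have h1 : mo y φ = c⁻¹ • mo x φ := by
        refine LinearMap.ext fun v => ?_
        rw [LinearMap.smul_apply, mo_apply, mo_apply, hc, smul_comm (φ v), smul_smul,
          inv_mul_cancel₀ hc0, one_smul]
      rw [h1]
      exact q.smul_mem _ hN
    · push Not at hxy
      obtain ⟨χ, h4, h5⟩ := exists_sep hxy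
      have h1 := hq (mo y χ) (by rw [mo_tr, h4]) _ hN
      have h2 : mo y χ * mo x φ - mo x φ * mo y χ = mo y φ := by
        refine LinearMap.ext fun v => ?_
        simp only [LinearMap.sub_apply, End.mul_apply, mo_apply, map_smul, h5, hφy, zero_smul,
          one_smul, smul_zero, sub_zero]
      rwa [h2] at h1
  have T2 : ∀ (x : U) (φ ψ : Dual ℂ U), φ ≠ 0 → ψ x = 0 → mo x φ ∈ q → mo x ψ ∈ q := by
    intro x φ ψ hφ0 hψx hN
    by_cases hxy : ∃ c : ℂ, φ = c • ψ
    · obtain ⟨c, hc⟩ := hxy
      have hc0 : c ≠ 0 := by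
        rintro rfl
        rw [zero_smul] at hc
        exact hφ0 hc
      have h1 : mo x ψ = c⁻¹ • mo x φ := by
        refine LinearMap.ext fun v => ?_
        rw [LinearMap.smul_apply, mo_apply, mo_apply, hc, LinearMap.smul_apply, smul_eq_mul,
          smul_smul, ← mul_assoc, inv_mul_cancel₀ hc0, one_mul]
      rw [h1]
      exact q.smul_mem _ hN
    · push Not at hxy
      obtain ⟨z, h4, h5⟩ := exists_sep' hxy
      have h1 := hq (mo z ψ) (by rw [mo_tr, h4]) _ hN
      have h2 : mo z ψ * mo x φ - mo x φ * mo z ψ = (-1 : ℂ) • mo x ψ := by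
        refine LinearMap.ext fun v => ?_
        simp only [LinearMap.sub_apply, End.mul_apply, mo_apply, map_smul, h5, hψx,
          one_smul, smul_zero, zero_smul, zero_sub, LinearMap.smul_apply]
        rw [neg_one_smul]
      rw [h2] at h1
      have h3 := q.smul_mem (-1 : ℂ) h1
      rwa [smul_smul, neg_one_mul, neg_neg, one_smul] at h3
  have hall : ∀ (y : U) (ψ : Dual ℂ U), ψ y = 0 → mo y ψ ∈ q := by
    intro y ψ hψy
    by_cases hy0 : y = 0
    · have h1 : mo y ψ = 0 := by
        refine LinearMap.ext fun v => ?_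
        rw [mo_apply, hy0, smul_zero, LinearMap.zero_apply]
      rw [h1]
      exact q.zero_mem
    have hlt : Submodule.span ℂ {x, y} < ⊤ := by
      rw [lt_top_iff_ne_top]
      intro h1
      have h2 : finrank ℂ (Submodule.span ℂ {x, y} : Submodule ℂ U) ≤ 2 := by
        have h4 := finrank_span_finset_le_card (R := ℂ) ({x, y} : Finset U)
        have h5 : ({x, y} : Finset U).card ≤ 2 := Finset.card_le_two
        rw [Finset.coe_pair] at h4
        exact h4.trans h5
      rw [h1, finrank_top] at h2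
      omega
    obtain ⟨φ', hφ', hle⟩ := Submodule.exists_le_ker_of_lt_top _ hlt
    have h1 : φ' x = 0 := LinearMap.mem_ker.1 (hle (Submodule.subset_span (by simp)))
    have h2 : φ' y = 0 := LinearMap.mem_ker.1 (hle (Submodule.subset_span (by simp)))
    exact T2 y φ' ψ hφ' hψy (T1 x y φ' hx0 h1 h2 (T2 x φ φ' hφ0 h1 hN))
  -- the matrix units
  let e := Module.finBasis ℂ U
  have hn : 0 < finrank ℂ U := by omega
  let o : Fin (finrank ℂ U) := ⟨0, hn⟩
  let m : Fin (finrank ℂ U) → Fin (finrank ℂ U) → End ℂ U := fun i j => mo (e i) (e.coord j)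
  have hm : ∀ i j k, m i j (e k) = if j = k then e i else 0 := by
    intro i j k
    change (e.coord j (e k)) • e i = _
    rw [Basis.coord_apply, Basis.repr_self, Finsupp.single_apply]
    by_cases hjk : j = k
    · rw [if_pos hjk, if_pos hjk.symm, one_smul]
    · rw [if_neg hjk, if_neg (Ne.symm hjk), zero_smul]
  have hco : ∀ i j, e.coord j (e i) = if i = j then 1 else 0 := by
    intro i j
    rw [Basis.coord_apply, Basis.repr_self, Finsupp.single_apply]
  have hoff : ∀ i j, i ≠ j → m i j ∈ q := fun i j hij => hall _ _ (by rw [hco, if_neg hij])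
  have hdiag : ∀ i, m i i - m o o ∈ q := by
    intro i
    by_cases hio : i = o
    · rw [hio, sub_self]
      exact q.zero_mem
    · have h1 := hq (m i o) (by
        change LinearMap.trace ℂ U (mo _ _) = 0
        rw [mo_tr, hco, if_neg hio]) _ (hoff o i (Ne.symm hio))
      have h2 : m i o * m o i - m o i * m i o = m i i - m o o := by
        refine LinearMap.ext fun v => ?_
        change (e.coord o) ((e.coord i) v • e o) • e i - (e.coord i) ((e.coord o) v • e i) • e o =
          (e.coord i) v • e i - (e.coord o) v • e o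
        rw [map_smul, map_smul, hco, hco, if_pos rfl, if_pos rfl, smul_eq_mul, smul_eq_mul,
          mul_one, mul_one]
      rwa [h2] at h1
  have htr : ∑ i, e.repr (A (e i)) i = 0 := by
    rw [← hA, LinearMap.trace_eq_matrix_trace ℂ e, Matrix.trace]
    refine Finset.sum_congr rfl fun i _ => ?_
    rw [Matrix.diag_apply, LinearMap.toMatrix_apply]
  have hexp : A = ∑ j, ∑ i, e.repr (A (e j)) i • (m i j - if i = j then m o o else 0) := by
    refine e.ext fun k => ?_
    rw [LinearMap.sum_apply]
    have h1 : ∀ j, (∑ i, e.repr (A (e j)) i • (m i j - if i = j then m o o else 0)) (e k) =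
        (if j = k then A (e k) else 0) - e.repr (A (e j)) j • m o o (e k) := by
      intro j
      rw [LinearMap.sum_apply]
      have h2 : ∀ i, (e.repr (A (e j)) i • (m i j - if i = j then m o o else 0)) (e k) =
          (if j = k then e.repr (A (e j)) i • e i else 0) -
            (if i = j then e.repr (A (e j)) j • m o o (e k) else 0) := by
        intro i
        rw [LinearMap.smul_apply, LinearMap.sub_apply, hm, smul_sub]
        congr 1
        · by_cases hjk : j = k
          · rw [if_pos hjk, if_pos hjk]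
          · rw [if_neg hjk, if_neg hjk, smul_zero]
        · by_cases hij : i = j
          · rw [if_pos hij, if_pos hij, hij]
          · rw [if_neg hij, if_neg hij, LinearMap.zero_apply, smul_zero]
      rw [Finset.sum_congr rfl fun i _ => h2 i, Finset.sum_sub_distrib]
      congr 1
      · by_cases hjk : j = k
        · rw [if_pos hjk]
          simp only [if_pos hjk]
          rw [hjk]
          exact e.sum_repr (A (e k))
        · rw [if_neg hjk]
          simp only [if_neg hjk, Finset.sum_const_zero]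
      · rw [Finset.sum_ite_eq' Finset.univ j]
        rw [if_pos (Finset.mem_univ j)]
    rw [Finset.sum_congr rfl fun j _ => h1 j, Finset.sum_sub_distrib, ← Finset.sum_smul, htr,
      zero_smul, sub_zero, Finset.sum_ite_eq' Finset.univ k, if_pos (Finset.mem_univ k)]
  rw [hexp]
  refine Submodule.sum_mem _ fun j _ => Submodule.sum_mem _ fun i _ => q.smul_mem _ ?_
  by_cases hij : i = j
  · rw [if_pos hij, hij]
    exact hdiag j
  · rw [if_neg hij, sub_zero]
    exact hoff i j hij

end sl

variable {V : Type} [AddCommGroup V] [Module ℂ V] [FiniteDimensional ℂ V]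
  {S : Set (End ℂ V)} {L Hh : Submodule ℂ (End ℂ V)} {om : V →ₗ[ℂ] V →ₗ[ℂ] ℂ}

/-- The restriction to `U` contains the special linear Lie algebra. -/
theorem full_simp_of_sl (k : HC S L om Hh) {U : Submodule ℂ V} (hU : IrE L U)
    (h3 : 3 ≤ finrank ℂ U)
    (hsl : ∀ A : End ℂ U, LinearMap.trace ℂ U A = 0 → ∃ C ∈ L, ∀ u : U, C u = A u) :
    Full L Hh U ∧ Simp Hh U := by
  have hst : ∀ A ∈ Hh, ∀ u ∈ U, A u ∈ U := fun A hA => k.stb hA hU.2.1
  have htr : ∀ A (hA : A ∈ Hh) B (hB : B ∈ Hh), LinearMap.trace ℂ U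
      (A.restrict (hst A hA) * B.restrict (hst B hB) -
        B.restrict (hst B hB) * A.restrict (hst A hA)) = 0 := by
    intro A hA B hB
    rw [map_sub, LinearMap.trace_mul_comm, sub_self]
  refine ⟨fun A hA B hB => ?_, fun Q hQ hQi => ?_⟩
  · obtain ⟨C, h1, h2⟩ := hsl _ (htr A hA B hB)
    exact ⟨C, h1, fun u hu => h2 ⟨u, hu⟩⟩
  · by_cases hsc : ∀ X ∈ Q, ∃ c : ℂ, ∀ u ∈ U, X u = c • u
    · exact Or.inl hsc
    right
    push Not at hsc
    obtain ⟨X₀, hX₀, hns⟩ := hsc
    intro A hA B hB
    obtain ⟨X, h1, h2⟩ := mem_RS.1 (idl_sl h3 (q := RS Q U) (by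
      rintro A' hA' X ⟨X', hX', hXX⟩
      obtain ⟨C, hC, hCA⟩ := hsl A' hA'
      refine ⟨C * X' - X' * C, hQi C (k.le hC) X' hX', fun u => ?_⟩
      rw [LinearMap.sub_apply, Submodule.coe_sub, End.mul_apply, End.mul_apply, hXX, ← hCA, hXX,
        ← hCA]
      rfl) (X₀ := X₀.restrict (hst X₀ (hQ hX₀))) ⟨X₀, hX₀, fun u => rfl⟩ (fun c hc => by
      obtain ⟨u, hu, h4⟩ := hns c
      exact h4 (congrArg Subtype.val (LinearMap.congr_fun hc ⟨u, hu⟩))) (htr A hA B hB))
    exact ⟨X, h1, fun u hu => (h2 ⟨u, hu⟩).symm⟩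

end Pool.Agent.H24GS
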