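import Mathlib
import Pool.Agent.H24GS.K2
import Pool.Agent.H24GS.K4
import Pool.Agent.H24GS.K5

/-!
# The local statement for linear blocks
-/

set_option autoImplicit false
set_option linter.unusedSectionVars false
set_option linter.unusedVariables false

namespace Pool.Agent.H24GS

open Module Pool.Agent.N183.U8

variable {V : Type} [AddCommGroup V] [Module ℂ V] [FiniteDimensional ℂ V] {S : Set (End ℂ V)}
  {L Hh : Submodule ℂ (End ℂ V)} {om : V →ₗ[ℂ] V →ₗ[ℂ] ℂ}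

/-- The restriction to `U` contains the special linear Lie algebra. -/
theorem sl_on (hB : S_Bsl) (k : HC S L om Hh) {U : Submodule ℂ V} (hU : IrE L U)
    (hns : ∀ D ∈ S, ∀ c : ℂ, ∃ u ∈ U, D u ≠ c • u)
    (hnf : ∀ b : V →ₗ[ℂ] V →ₗ[ℂ] ℂ, (∀ X ∈ L, ∀ u ∈ U, ∀ v ∈ U, b (X u) v + b u (X v) = 0) →
      ∀ u ∈ U, ∀ v ∈ U, b u v = 0)
    {N : End ℂ V} (hN : N ∈ L) (hN2 : N * N = 0) (hN1 : finrank ℂ (U.map N) = 1)
    (A : End ℂ U) (htr : LinearMap.trace ℂ U A = 0) : ∃ C ∈ L, ∀ u : U, C u = A u := by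
  classical
  have hUst := hU.2.1
  have hUirr := hU.2.2
  have hgen := k.gen
  have hSL := k.SL
  have hsq := k.sq
  have hbr := k.br
  -- the involutions on `U`
  let SU : Set (End ℂ U) := {B | ∃ D ∈ S, ∀ u : U, ((B u : U) : V) = D u}
  let NU : End ℂ U := N.restrict (hUst N hN)
  have hNU : ∀ u : U, ((NU u : U) : V) = N u := fun u => rfl
  have hirr : ∀ W : Submodule ℂ U, (∀ D ∈ SU, ∀ w ∈ W, D w ∈ W) → W = ⊥ ∨ W = ⊤ := by
    intro W hW
    have h1 : Stb L (W.map U.subtype) := by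
      refine stb_gen k ?_
      rintro D hD _ ⟨w, hw, rfl⟩
      exact ⟨D.restrict (hUst D (hSL D hD)) w, hW _ ⟨D, hD, fun u => rfl⟩ w hw, rfl⟩
    rcases hUirr (W.map U.subtype) (Submodule.map_subtype_le U W) h1 with h2 | h2
    · left
      refine Submodule.map_injective_of_injective (f := U.subtype) U.injective_subtype ?_
      rw [h2, Submodule.map_bot]
    · right
      refine eq_top_iff.2 fun u _ => ?_
      have h3 : (u : V) ∈ W.map U.subtype := by rw [h2]; exact u.2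
      obtain ⟨w, hw, hwu⟩ := h3
      have h4 : w = u := Subtype.ext hwu
      rwa [h4] at hw
  have hsl := hB U SU (rs L U) NU
    (by
      rintro D ⟨D', hD', h⟩
      refine LinearMap.ext fun u => Subtype.ext ?_
      rw [End.mul_apply, h, h, ← End.mul_apply, hsq D' hD']
      rfl)
    (by
      rintro D ⟨D', hD', h⟩
      exact ⟨D', hSL D' hD', h⟩)
    (by
      rintro A ⟨A', hA', h⟩ B ⟨B', hB', h'⟩
      refine ⟨A' * B' - B' * A', hbr A' hA' B' hB', fun u => ?_⟩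
      rw [LinearMap.sub_apply, Submodule.coe_sub, End.mul_apply, End.mul_apply, h, h', h', h]
      rfl)
    hirr
    (fun β c hβ => no_semi hsq hSL hgen hUst hUirr hns hnf β c hβ)
    ⟨N, hN, hNU⟩
    (by
      refine LinearMap.ext fun u => Subtype.ext ?_
      rw [End.mul_apply, hNU, hNU, ← End.mul_apply, hN2]
      rfl)
    (by
      have h5 : (LinearMap.range NU).map U.subtype = U.map N := by
        ext x
        simp only [Submodule.mem_map, LinearMap.mem_range]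
        constructor
        · rintro ⟨_, ⟨u, rfl⟩, rfl⟩
          exact ⟨u, u.2, rfl⟩
        · rintro ⟨u, hu, rfl⟩
          exact ⟨_, ⟨⟨u, hu⟩, rfl⟩, rfl⟩
      rw [← hN1, ← h5]
      exact (Submodule.finrank_map_subtype_eq U (LinearMap.range NU)).symm)
  obtain ⟨C, hC, h⟩ := hsl A htr
  exact ⟨C, hC, fun u => (h u).symm⟩

/-- **The local statement for linear blocks.** -/
theorem pu_of_rk (hA : S_A) (hB : S_B) (hC : S_C) (hB' : S_Bsl) (hC' : S_Csl) (hF : S_F3)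
    (k : HC S L om Hh) {U : Submodule ℂ V} (hU : IrE L U)
    (hns : ∀ D ∈ S, ∀ c : ℂ, ∃ u ∈ U, D u ≠ c • u)
    (hrk : ∃ N ∈ L, N * N = 0 ∧ finrank ℂ (U.map N) = 1)
    (h2 : finrank ℂ U = 2 → ∃ b : V →ₗ[ℂ] V →ₗ[ℂ] ℂ,
      (∀ X ∈ L, ∀ u ∈ U, ∀ v ∈ U, b (X u) v + b u (X v) = 0) ∧ ∃ u ∈ U, ∃ v ∈ U, b u v ≠ 0)
    (hsat : 4 ≤ finrank ℂ U → (∀ A : End ℂ U, LinearMap.trace ℂ U A = 0 →
      ∃ C ∈ L, ∀ u : U, C u = A u) → Sat S Hh U) : PU S L Hh U := by
  by_cases hf : ∃ b : V →ₗ[ℂ] V →ₗ[ℂ] ℂ,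
      (∀ X ∈ L, ∀ u ∈ U, ∀ v ∈ U, b (X u) v + b u (X v) = 0) ∧ ∃ u ∈ U, ∃ v ∈ U, b u v ≠ 0
  · exact pu_of_lc hA hB hC hB' hC' hF k hU ⟨hns, hrk, Or.inl hf⟩
  by_cases h3 : finrank ℂ U = 3
  · exact pu_of_lc hA hB hC hB' hC' hF k hU ⟨hns, hrk, Or.inr (Or.inl h3)⟩
  have h4 : 4 ≤ finrank ℂ U := by
    have h5 : finrank ℂ U ≠ 2 := fun h => hf (h2 h)
    obtain ⟨N, hN, hN2, hN1⟩ := hrk
    have h6 : U.map N ≤ U := by
      rintro _ ⟨u, hu, rfl⟩
      exact hU.2.1 N hN u hu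
    -- `N` is not injective on `U`
    have h7 : 2 ≤ finrank ℂ U := by
      by_contra hcon
      have h8 : finrank ℂ (U.map N) = finrank ℂ U := by
        have h9 := Submodule.finrank_mono h6
        omega
      have h9 : U.map N = U := Submodule.eq_of_le_of_finrank_eq h6 h8
      have h10 : U.map N = ⊥ := by
        rw [← h9, ← Submodule.map_comp]
        change U.map (N * N) = ⊥
        rw [hN2, Submodule.map_zero]
      rw [h10, finrank_bot] at hN1
      exact zero_ne_one hN1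
    omega
  obtain ⟨N, hN, hN2, hN1⟩ := hrk
  have hnf : ∀ b : V →ₗ[ℂ] V →ₗ[ℂ] ℂ,
      (∀ X ∈ L, ∀ u ∈ U, ∀ v ∈ U, b (X u) v + b u (X v) = 0) →
      ∀ u ∈ U, ∀ v ∈ U, b u v = 0 := by
    intro b hb u hu v hv
    by_contra hcon
    exact hf ⟨b, hb, u, hu, v, hv, hcon⟩
  have hsl := sl_on hB' k hU hns hnf hN hN2 hN1
  obtain ⟨h5, h6⟩ := full_simp_of_sl k hU (by omega) hsl
  exact pu_of_sat hA k hU h5 h6 hns (hsat h4 hsl)

end Pool.Agent.H24GS
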