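import Mathlib
import Pool.Agent.H24GS.M4

/-!
# The Lie algebra `𝔫` and the Tate tensors
-/

set_option linter.unusedSectionVars false
set_option linter.unusedVariables false

namespace Pool.Agent.H24GS

open Matrix Module Pool.Agent.W437.HC Pool.Agent.W437.HD Pool.Agent.W548.Odd
open Pool.Agent.H204R3.SP Pool.Agent.H204R3.GP Pool.Agent.Y90 Pool.Agent.Y224.TS TensorProduct
open Pool.Agent.Y224.TS.St (IsHodgeTate IsTateModule)
open Pool.Agent.W437.HP (cK cK_mul cK_one)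
open Pool.Agent.R915 (VE mem_VE descent_gen commL_of IsFactor RealMax)
open Pool.Agent.N183.TS Pool.Agent.N183.U5 Pool.Agent.N183.U6 Pool.Agent.N183.U8

noncomputable section

variable {K : Type} [Field K] [CharZero K] [Algebra K ℂ] {Γ : Type} [Group Γ] {X : AV}
  {E : X.H → X.H → ℚ} {ρ : Representation K Γ (K ⊗[ℚ] X.H)} {χ : Γ →* K} {G : ℕ}
  {Z : Matrix (Fin G) (Fin G) ℂ}

theorem mulVec_map {M : Matrix (Fin G ⊕ Fin G) (Fin G ⊕ Fin G) ℂ} {w : Fin G ⊕ Fin G → ℚ}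
    (h : M *ᵥ Pool.Agent.Y90.cv w = 0) (l : ℂ →ₗ[ℚ] ℚ) : M.map l *ᵥ w = 0 := by
  funext i
  have h1 := congrArg l (congrFun h i)
  rw [Pi.zero_apply, map_zero] at h1
  rw [Pi.zero_apply, ← h1]
  have h3 : ∀ j, l (M i j * Pool.Agent.Y90.cv w j) = M.map l i j * w j := by
    intro j
    have h2 : M i j * ((w j : ℚ) : ℂ) = w j • M i j := by
      rw [Rat.smul_def, mul_comm]
    have h4 : l (M i j * Pool.Agent.Y90.cv w j) = w j * l (M i j) :=
      (congrArg l h2).trans (l.map_smul (w j) (M i j))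
    rw [h4, mul_comm]
    rfl
  change ∑ j, M.map l i j * w j = l (∑ j, M i j * Pool.Agent.Y90.cv w j)
  rw [map_sum]
  exact Finset.sum_congr rfl fun j _ => (h3 j).symm

/-- Elements of the second Lie algebra kill the Tate tensors. -/
theorem kills_of_LT (b : Basis (Fin G ⊕ Fin G) ℚ X.H) {t : Module.End ℚ X.H}
    (hLT : qm (LinearMap.toMatrix b b t) ∈ Y224.TS.LT (SH X.per ρ χ b)) {m : ℕ}
    {φ : MultilinearMap K (fun _ : Fin m × Fin 2 => K ⊗[ℚ] X.H) K} (hφ : IsTate ρ χ m φ) :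
    Kills (t.baseChange K) φ := by
  have hk := kills_LT (FC_kills b φ hφ) hLT
  intro v
  have hinj : Function.Injective (algebraMap K ℂ) := (algebraMap K ℂ).injective
  apply hinj
  rw [map_zero, map_sum]
  have h1 := hk fun k => eY K b ((1 : ℂ) ⊗ₜ[K] v k)
  rw [← h1]
  refine Finset.sum_congr rfl fun k _ => ?_
  rw [← bcm_one (Ω := ℂ) (bV K b) φ, ← FC_e b φ]
  congr 1
  funext l
  by_cases hl : l = k
  · subst hl
    rw [Function.update_self, Function.update_self]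
    change _ = qm (LinearMap.toMatrix b b t) *ᵥ _
    rw [← mt_bc2 (K := K) b t, mt_mulVec, LinearMap.baseChange_tmul]
  · rw [Function.update_of_ne hl, Function.update_of_ne hl]

/-- The local conditions in coordinates. -/
def LocB (X : AV) (ρ : Representation K Γ (K ⊗[ℚ] X.H)) (χ : Γ →* K) (Y : AV)
    (Z : Matrix (Fin G) (Fin G) ℂ) (b : Basis (Fin G ⊕ Fin G) ℚ X.H) : Prop :=
  ∀ U ≤ V0 X Y b, IrE (GG (Y224.TS.LT (SH X.per ρ χ b))) U →
    PU (ph (Fin G ⊕ Fin G) '' SH X.per ρ χ b) (GG (Y224.TS.LT (SH X.per ρ χ b)))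
      (GG (lieM (DZ Z) ℂ)) U ∧
    ∀ D ∈ SH X.per ρ χ b, ∀ c : ℂ, ∃ u ∈ U, D *ᵥ u ≠ c • u

theorem V0_stab (hZ : PM Z) (b : Basis (Fin G ⊕ Fin G) ℚ X.H)
    (hC : Cht (X.per.comp b.equivFun.symm.toLinearMap.toAddMonoidHom) (JR Z))
    (hE : Pool.Agent.Y90.St.IsPolarization X.per E) {Y : AV} (hY : IsFactor Y X) :
    Stb (GG (lieM (DZ Z) ℂ)) (V0 X Y b) :=
  span_stab b hZ hC hE hY (P := fun i => IsHom Y X i) fun i hi => hi

theorem hom_comm (b : Basis (Fin G ⊕ Fin G) ℚ X.H)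
    (hC : Cht (X.per.comp b.equivFun.symm.toLinearMap.toAddMonoidHom) (JR Z))
    (hTD : TD Z (SH X.per ρ χ b)) {f : Module.End ℚ X.H} (hf : IsHom X X f) :
    ∀ D ∈ ph (Fin G ⊕ Fin G) '' SH X.per ρ χ b,
      ph _ (qm (LinearMap.toMatrix b b f)) * D = D * ph _ (qm (LinearMap.toMatrix b b f)) := by
  rintro _ ⟨D, hD, rfl⟩
  rw [← map_mul, ← map_mul]
  congr 1
  exact (hTD.comm _).2 (fun X hX => (commL_of ((hom_DZ b hC f).1 hf) X hX).symm) D hD

/-- **The Lie algebra `𝔫` is contained in the second Lie algebra.** -/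
theorem inNS_LT (hZ : PM Z) (b : Basis (Fin G ⊕ Fin G) ℚ X.H)
    (hC : Cht (X.per.comp b.equivFun.symm.toLinearMap.toAddMonoidHom) (JR Z))
    (hTD : TD Z (SH X.per ρ χ b)) (hE : Pool.Agent.Y90.St.IsPolarization X.per E)
    (hdel : Deligne X ρ χ) {Y : AV} (hY : IsFactor Y X) (hloc : LocB X ρ χ Y Z b)
    {t : Module.End ℚ X.H} (ht : InNS X Y t) :
    qm (LinearMap.toMatrix b b t) ∈ Y224.TS.LT (SH X.per ρ χ b) := by
  have k := hc_of hTD hZ fun D hD => SH_lieM b hC hdel hD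
  have hmat : ∀ R : Matrix (Fin G ⊕ Fin G) (Fin G ⊕ Fin G) ℚ,
      LinearMap.toMatrix b b (Matrix.toLin b b R) = R := fun R => LinearMap.toMatrix_toLin _ _ _
  have hhom : ∀ R : Matrix (Fin G ⊕ Fin G) (Fin G ⊕ Fin G) ℚ, qm R * DZ Z = DZ Z * qm R →
      IsHom X X (Matrix.toLin b b R) := fun R hR => (hom_DZ b hC _).2 (by rw [hmat]; exact hR)
  rw [← mem_GG]
  refine k.main (V₀ := V0 X Y b) (fun A hA => V0_stab hZ b hC hE hY A (k.le hA))
    (fun U hU hUi => (hloc U hU hUi).1) (mem_GG.2 ((inHg_iff b hC t).1 ht.hg))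
    (tf_of hTD fun R hR => ?_) fun Q hQ hQ0 => ?_
  · have h1 := ht.trace _ (hhom R hR)
    rw [LinearMap.trace_eq_matrix_trace ℚ b, LinearMap.toMatrix_mul, hmat] at h1
    rw [← qm_mul', trace_qm, h1, Rat.cast_zero]
  · obtain ⟨M, hM, rfl⟩ := exists_GG hQ
    rw [← map_mul, ← map_mul]
    congr 1
    obtain ⟨m, c, l, hl⟩ := mat_exp M
    rw [hl, Finset.mul_sum, Finset.sum_mul]
    refine Finset.sum_congr rfl fun j _ => ?_
    rw [mul_smul_comm, smul_mul_assoc]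
    congr 1
    obtain ⟨u, hu⟩ := exists_end b (M.map (l j))
    have h1 : InHg X u := by
      rw [inHg_iff b hC, hu]
      exact lieM_map hM (l j)
    have h2 := ht.cen u h1 fun i hi => LinearMap.ext fun y => by
      have h3 : M *ᵥ Pool.Agent.Y90.cv (b.equivFun (i y)) = 0 :=
        hQ0 _ (Submodule.subset_span ⟨i, y, hi, rfl⟩)
      have h4 := mulVec_map h3 (l j)
      rw [← hu, mulVec_rep] at h4
      exact (LinearEquiv.map_eq_zero_iff _).1 h4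
    have h3 := congrArg (LinearMap.toMatrix b b) h2
    rw [LinearMap.toMatrix_mul, LinearMap.toMatrix_mul, hu] at h3
    rw [← qm_mul', h3, qm_mul']

/-- **The Lie algebra `𝔫` is not trivial.** -/
theorem exists_inNS [Algebra.IsAlgebraic K ℂ] (hZ : PM Z) (b : Basis (Fin G ⊕ Fin G) ℚ X.H)
    (hC : Cht (X.per.comp b.equivFun.symm.toLinearMap.toAddMonoidHom) (JR Z))
    (hTD : TD Z (SH X.per ρ χ b)) (hE : Pool.Agent.Y90.St.IsPolarization X.per E)
    (hdel : Deligne X ρ χ) {X₀ Y : AV} {i₁ : X₀.H →ₗ[ℚ] X.H} {p₁ : X.H →ₗ[ℚ] X₀.H}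
    (hi₁ : IsHom X₀ X i₁) (hp₁ : IsHom X X₀ p₁) (hpi : ∀ v, p₁ (i₁ v) = v)
    (hY : IsFactor Y X₀) (hloc : LocB X ρ χ Y Z b) :
    ∃ t, InNS X Y t ∧ ¬ IsHom X₀ X₀ (p₁ ∘ₗ t ∘ₗ i₁) := by
  classical
  have k := hc_of hTD hZ fun D hD => SH_lieM b hC hdel hD
  obtain ⟨hYs, i₀, hi₀, hi₀'⟩ := hY
  obtain ⟨y₀, hy₀⟩ := hYs.1
  have hi : IsHom Y X (i₁ ∘ₗ i₀) := R915.IsHom.comp' hi₁ hi₀
  have hinj : Function.Injective (i₁ ∘ₗ i₀) := fun x y hxy => hi₀' (by
    have h1 : i₁ (i₀ x) = i₁ (i₀ y) := hxy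
    rw [← hpi (i₀ x), h1, hpi])
  have hYX : IsFactor Y X := ⟨hYs, _, hi, hinj⟩
  obtain ⟨V₁, hV₁⟩ : ∃ V₁ : Submodule ℂ (Fin G ⊕ Fin G → ℂ), V₁ = Submodule.span ℂ
    {w | ∃ (i : Y.H →ₗ[ℚ] X.H) (y : Y.H), i = i₁ ∘ₗ i₀ ∧
      w = Pool.Agent.Y90.cv (b.equivFun (i y))} := ⟨_, rfl⟩
  have hst : Stb (GG (lieM (DZ Z) ℂ)) V₁ := by
    rw [hV₁]
    exact span_stab b hZ hC hE hYX (P := fun i => i = i₁ ∘ₗ i₀) fun i h => by
      rw [h]
      exact hi
  have hV0 : V₁ ≤ V0 X Y b := by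
    rw [hV₁]
    refine Submodule.span_mono ?_
    rintro _ ⟨i, y, h, rfl⟩
    exact ⟨i, y, by rw [h]; exact hi, rfl⟩
  have hne : V₁ ≠ ⊥ := by
    intro h1
    have h2 : Pool.Agent.Y90.cv (b.equivFun ((i₁ ∘ₗ i₀) y₀)) ∈
        (⊥ : Submodule ℂ (Fin G ⊕ Fin G → ℂ)) := by
      rw [← h1, hV₁]
      exact Submodule.subset_span ⟨_, y₀, rfl, rfl⟩
    rw [Submodule.mem_bot] at h2
    apply hy₀
    apply hinj
    rw [map_zero]
    apply b.equivFun.injective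
    rw [map_zero]
    funext i
    have h3 := congrFun h2 i
    change ((b.equivFun ((i₁ ∘ₗ i₀) y₀) i : ℚ) : ℂ) = 0 at h3
    exact_mod_cast h3
  obtain ⟨U, hUV, hU⟩ := exists_irE (L := GG (Y224.TS.LT (SH X.per ρ χ b))) _ V₁ rfl hne
    fun A hA => hst A (k.le hA)
  obtain ⟨hPU, hns⟩ := hloc U (hUV.trans hV0) hU
  have hnsD := ns_DZ hTD hZ ((hTD.irS hZ).1 (irE_iff.1 hU)) hns
  obtain ⟨A, hA, hAt, hAc, u, hu, hne'⟩ := k.exists_odd (V₀ := V0 X Y b) (hUV.trans hV0) hU hPU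
    (D := ph _ (DZ Z)) (mem_GG.2 (D_mem _)) hnsD
  obtain ⟨M, hM, rfl⟩ := exists_GG hA
  by_contra hcon
  push Not at hcon
  apply hne'
  -- the projection to the factor
  obtain ⟨F, hF⟩ : ∃ F, F = LinearMap.toMatrix b b (i₁ ∘ₗ p₁) := ⟨_, rfl⟩
  have hip : IsHom X X (i₁ ∘ₗ p₁) := R915.IsHom.comp' hi₁ hp₁
  have hFD : qm F * DZ Z = DZ Z * qm F := by
    rw [hF]
    exact (hom_DZ b hC _).1 hip
  have hFu : ∀ u ∈ V₁, qm F *ᵥ u = u := by
    intro u hu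
    rw [hV₁] at hu
    refine Submodule.span_induction (p := fun u _ => qm F *ᵥ u = u) ?_ ?_ ?_ ?_ hu
    · rintro _ ⟨i, y, rfl, rfl⟩
      rw [qm_cv, hF, mulVec_rep]
      congr 2
      change i₁ (p₁ (i₁ (i₀ y))) = i₁ (i₀ y)
      rw [hpi]
    · rw [mulVec_zero]
    · intro x y _ _ h1 h2
      rw [mulVec_add, h1, h2]
    · intro c x _ h1
      rw [mulVec_smul, h1]
  have key : ∀ l : ℂ →ₗ[ℚ] ℚ, ∀ u ∈ V₁,
      qm (M.map l) *ᵥ (DZ Z *ᵥ u) = DZ Z *ᵥ (qm (M.map l) *ᵥ u) := by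
    intro l u hu
    obtain ⟨t, ht⟩ := exists_end b (M.map l)
    have htN : InNS X Y t := by
      refine ⟨?_, fun f hf => ?_, fun w hw hwi => ?_⟩
      · rw [inHg_iff b hC, ht]
        exact lieM_map hM l
      · rw [LinearMap.trace_eq_matrix_trace ℚ b, LinearMap.toMatrix_mul, ht]
        refine trace_map ?_ l
        have h1 := hAt _ (hom_comm b hC hTD hf)
        rwa [← map_mul, trace_ph] at h1
      · apply (LinearMap.toMatrix b b).injective
        rw [LinearMap.toMatrix_mul, LinearMap.toMatrix_mul, ht]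
        refine comm_map ?_ l
        have h1 := hAc _ (mem_GG.2 ((inHg_iff b hC w).1 hw)) fun v hv => by
          refine Submodule.span_induction
            (p := fun v _ => ph _ (qm (LinearMap.toMatrix b b w)) v = 0) ?_ ?_ ?_ ?_ hv
          · rintro _ ⟨i, y, hi, rfl⟩
            change qm _ *ᵥ _ = 0
            rw [qm_cv, mulVec_rep]
            have h2 : w (i y) = 0 := LinearMap.congr_fun (hwi i hi) y
            rw [h2, map_zero]
            funext i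
            change (((0 : Fin G ⊕ Fin G → ℚ) i : ℚ) : ℂ) = 0
            rw [Pi.zero_apply, Rat.cast_zero]
          · exact map_zero _
          · intro x y _ _ h1 h2
            rw [map_add, h1, h2, add_zero]
          · intro c x _ h1
            rw [map_smul, h1, smul_zero]
        rw [← map_mul, ← map_mul] at h1
        exact (ph _).injective h1
    have h1 := hcon t htN
    have h2 : IsHom X X (t * (i₁ ∘ₗ p₁)) := by
      have h3 : t * (i₁ ∘ₗ p₁) = i₁ ∘ₗ ((p₁ ∘ₗ t ∘ₗ i₁) ∘ₗ p₁) := by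
        have h4 := htN.hg.comm hE hip
        refine LinearMap.ext fun v => ?_
        have h5 := LinearMap.congr_fun h4 (i₁ (p₁ v))
        rw [End.mul_apply, End.mul_apply, LinearMap.comp_apply, LinearMap.comp_apply, hpi] at h5
        exact h5
      rw [h3]
      exact R915.IsHom.comp' hi₁ (R915.IsHom.comp' h1 hp₁)
    have h3 := (hom_DZ b hC _).1 h2
    rw [LinearMap.toMatrix_mul, ht, ← hF, qm_mul'] at h3
    calc qm (M.map l) *ᵥ (DZ Z *ᵥ u) = qm (M.map l) *ᵥ (DZ Z *ᵥ (qm F *ᵥ u)) := by rw [hFu u hu]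
      _ = (qm (M.map l) * qm F * DZ Z) *ᵥ u := by
        rw [mulVec_mulVec, mulVec_mulVec, Matrix.mul_assoc (qm (M.map l)) (DZ Z), ← hFD,
          ← Matrix.mul_assoc]
      _ = DZ Z *ᵥ (qm (M.map l) *ᵥ (qm F *ᵥ u)) := by
        rw [h3, mulVec_mulVec, mulVec_mulVec, Matrix.mul_assoc]
      _ = DZ Z *ᵥ (qm (M.map l) *ᵥ u) := by rw [hFu u hu]
  change M *ᵥ (DZ Z *ᵥ u) = DZ Z *ᵥ (M *ᵥ u)
  obtain ⟨m, c, l, hl⟩ := mat_exp M
  have h1 : ∀ v, M *ᵥ v = ∑ j, c j • (qm (M.map (l j)) *ᵥ v) := by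
    intro v
    conv_lhs => rw [hl]
    rw [sum_mulVec]
    exact Finset.sum_congr rfl fun j _ => smul_mulVec _ _ _
  rw [h1, h1 u, mulVec_sum]
  refine Finset.sum_congr rfl fun j _ => ?_
  rw [mulVec_smul, key (l j) u (hUV hu)]

end

end Pool.Agent.H24GS
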