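import Mathlib
import Pool.Agent.H24GS.K5

/-!
# Representations of the general linear Lie algebra in which the idempotents of rank one act as
idempotents
-/

set_option autoImplicit false
set_option linter.unusedSectionVars false
set_option linter.unusedVariables false

namespace Pool.Agent.H24GS

open Module

variable {U R : Type} [AddCommGroup U] [Module ℂ U] [AddCommGroup R] [Module ℂ R]

/-- Representations of the general linear Lie algebra. -/
def IsRp (ρ : End ℂ U →ₗ[ℂ] End ℂ R) : Prop :=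
  ∀ A B, ρ (A * B - B * A) = ρ A * ρ B - ρ B * ρ A

/-- The deviation from multiplicativity. -/
def Qd (ρ : End ℂ U →ₗ[ℂ] End ℂ R) (A B : End ℂ U) : End ℂ R :=
  ρ A * ρ B + ρ B * ρ A - ρ (A * B + B * A)

theorem Qd_symm (ρ : End ℂ U →ₗ[ℂ] End ℂ R) (A B : End ℂ U) : Qd ρ A B = Qd ρ B A := by
  unfold Qd
  rw [add_comm (ρ A * ρ B), add_comm (A * B)]

theorem Qd_add_left (ρ : End ℂ U →ₗ[ℂ] End ℂ R) (A A' B : End ℂ U) :
    Qd ρ (A + A') B = Qd ρ A B + Qd ρ A' B := by
  unfold Qd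
  rw [map_add, add_mul, mul_add, add_mul, mul_add, map_add, map_add, map_add, map_add, map_add]
  abel

theorem Qd_smul_left (ρ : End ℂ U →ₗ[ℂ] End ℂ R) (c : ℂ) (A B : End ℂ U) :
    Qd ρ (c • A) B = c • Qd ρ A B := by
  unfold Qd
  rw [map_smul, smul_mul_assoc, mul_smul_comm, smul_mul_assoc, mul_smul_comm, ← smul_add,
    ← smul_add, map_smul, ← smul_sub]

theorem Qd_add_right (ρ : End ℂ U →ₗ[ℂ] End ℂ R) (A B B' : End ℂ U) :
    Qd ρ A (B + B') = Qd ρ A B + Qd ρ A B' := by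
  rw [Qd_symm, Qd_add_left, Qd_symm ρ B, Qd_symm ρ B']

theorem Qd_smul_right (ρ : End ℂ U →ₗ[ℂ] End ℂ R) (c : ℂ) (A B : End ℂ U) :
    Qd ρ A (c • B) = c • Qd ρ A B := by
  rw [Qd_symm, Qd_smul_left, Qd_symm]

theorem Qd_sub_left (ρ : End ℂ U →ₗ[ℂ] End ℂ R) (A A' B : End ℂ U) :
    Qd ρ (A - A') B = Qd ρ A B - Qd ρ A' B := by
  rw [sub_eq_add_neg, ← neg_one_smul ℂ A', Qd_add_left, Qd_smul_left, neg_one_smul,
    ← sub_eq_add_neg]

theorem Qd_sub_right (ρ : End ℂ U →ₗ[ℂ] End ℂ R) (A B B' : End ℂ U) :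
    Qd ρ A (B - B') = Qd ρ A B - Qd ρ A B' := by
  rw [Qd_symm, Qd_sub_left, Qd_symm ρ B, Qd_symm ρ B']

/-- Equivariance. -/
theorem Qd_eqv {ρ : End ℂ U →ₗ[ℂ] End ℂ R} (hρ : IsRp ρ) {A B : End ℂ U} (h : Qd ρ A B = 0)
    (C : End ℂ U) : Qd ρ (C * A - A * C) B + Qd ρ A (C * B - B * C) = 0 := by
  have e1 := hρ C A
  have e2 := hρ C B
  have e3 := hρ C (A * B + B * A)
  have e4 : C * (A * B + B * A) - (A * B + B * A) * C =
      ((C * A - A * C) * B + B * (C * A - A * C)) + (A * (C * B - B * C) + (C * B - B * C) * A) := by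
    noncomm_ring
  rw [e4, map_add] at e3
  have e5 := eq_sub_of_add_eq e3
  have h1 : ρ (A * B + B * A) = ρ A * ρ B + ρ B * ρ A := by
    unfold Qd at h
    exact (sub_eq_zero.1 h).symm
  unfold Qd
  rw [e5, e1, e2, h1]
  noncomm_ring

theorem mo_add (x y : U) (φ : Dual ℂ U) : mo (x + y) φ = mo x φ + mo y φ :=
  LinearMap.ext fun v => by rw [LinearMap.add_apply, mo_apply, mo_apply, mo_apply, smul_add]

theorem mo_smul (c : ℂ) (x : U) (φ : Dual ℂ U) : mo (c • x) φ = c • mo x φ :=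
  LinearMap.ext fun v => by rw [LinearMap.smul_apply, mo_apply, mo_apply, smul_comm]

theorem mo_add' (x : U) (φ ψ : Dual ℂ U) : mo x (φ + ψ) = mo x φ + mo x ψ :=
  LinearMap.ext fun v => by
    rw [LinearMap.add_apply, mo_apply, mo_apply, mo_apply, LinearMap.add_apply, add_smul]

theorem mo_mul (x y : U) (φ ψ : Dual ℂ U) : mo x φ * mo y ψ = φ y • mo x ψ :=
  LinearMap.ext fun v => by
    rw [End.mul_apply, mo_apply, mo_apply, map_smul, LinearMap.smul_apply, mo_apply, smul_eq_mul,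
      mul_smul, smul_comm]

theorem mo_br (x y : U) (φ ψ : Dual ℂ U) :
    mo y ψ * mo x φ - mo x φ * mo y ψ = ψ x • mo y φ - φ y • mo x ψ := by
  rw [mo_mul, mo_mul]

theorem two_zero {M : Type} [AddCommGroup M] [Module ℂ M] {x : M} (h : x + x = 0) : x = 0 := by
  have h1 : (2 : ℂ) • x = 0 := by rw [two_smul, h]
  exact (smul_eq_zero.1 h1).resolve_left two_ne_zero

/-- **The quadratic relations.** -/
theorem Qd_all {ρ : End ℂ U →ₗ[ℂ] End ℂ R} (hρ : IsRp ρ) {x₀ : U} {φ₀ : Dual ℂ U}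
    (h1 : φ₀ x₀ = 1) (h0 : Qd ρ (mo x₀ φ₀) (mo x₀ φ₀) = 0) (x : U) (ψ : Dual ℂ U) :
    Qd ρ (mo x ψ) (mo x ψ) = 0 := by
  have s1 : ∀ y, φ₀ y = 0 → Qd ρ (mo y φ₀) (mo x₀ φ₀) = 0 := by
    intro y hy
    have h2 := Qd_eqv hρ h0 (mo y φ₀)
    rw [mo_br, h1, hy, one_smul, zero_smul, sub_zero, Qd_symm ρ (mo x₀ φ₀)] at h2
    exact two_zero h2
  have s2 : ∀ y y', φ₀ y = 0 → φ₀ y' = 0 → Qd ρ (mo y φ₀) (mo y' φ₀) = 0 := by
    intro y y' hy hy'
    have h2 := Qd_eqv hρ (s1 y hy) (mo y' φ₀)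
    rw [mo_br, mo_br, h1, hy, hy', one_smul, zero_smul, zero_smul, zero_smul, sub_zero, sub_zero]
      at h2
    have h3 : Qd ρ 0 (mo x₀ φ₀) = 0 := by
      rw [← zero_smul ℂ (0 : End ℂ U), Qd_smul_left, zero_smul]
    rwa [h3, zero_add] at h2
  have s3 : ∀ x x', Qd ρ (mo x φ₀) (mo x' φ₀) = 0 := by
    intro x x'
    have e1 : ∀ z : U, mo z φ₀ = φ₀ z • mo x₀ φ₀ + mo (z - φ₀ z • x₀) φ₀ := by
      intro z
      rw [← mo_smul, ← mo_add, add_sub_cancel]
    have e2 : ∀ z : U, φ₀ (z - φ₀ z • x₀) = 0 := by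
      intro z
      rw [map_sub, map_smul, h1, smul_eq_mul, mul_one, sub_self]
    rw [e1 x, e1 x', Qd_add_left, Qd_add_right, Qd_add_right, Qd_smul_left, Qd_smul_right,
      Qd_smul_left, Qd_smul_right, h0, Qd_symm ρ (mo x₀ φ₀), s1 _ (e2 x'), s1 _ (e2 x),
      s2 _ _ (e2 x) (e2 x')]
    simp
  have s4 : ∀ x x', Qd ρ (mo x ψ) (mo x' φ₀) + Qd ρ (mo x φ₀) (mo x' ψ) = 0 := by
    intro x x'
    have h2 := Qd_eqv hρ (s3 x x') (mo x₀ ψ)
    rw [mo_br, mo_br, h1, one_smul, one_smul, Qd_sub_left, Qd_sub_right, Qd_smul_left,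
      Qd_smul_right, s3, s3, smul_zero, smul_zero, zero_sub, zero_sub, ← neg_add,
      neg_eq_zero] at h2
    exact h2
  have s5 : ∀ x, Qd ρ (mo x ψ) (mo x φ₀) = 0 := by
    intro x
    have h2 := s4 x x
    rw [Qd_symm ρ (mo x φ₀)] at h2
    exact two_zero h2
  have h2 := Qd_eqv hρ (s5 x) (mo x₀ ψ)
  rw [mo_br, mo_br, h1, one_smul, Qd_sub_left, Qd_sub_right, Qd_smul_left, Qd_smul_left,
    Qd_smul_right, s5, smul_zero, sub_zero] at h2
  have h3 := s4 x₀ x
  rw [Qd_symm ρ (mo x₀ φ₀)] at h3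
  have h4 : ψ x • Qd ρ (mo x₀ ψ) (mo x φ₀) + (ψ x • Qd ρ (mo x ψ) (mo x₀ φ₀) -
      Qd ρ (mo x ψ) (mo x ψ)) = ψ x • (Qd ρ (mo x₀ ψ) (mo x φ₀) + Qd ρ (mo x ψ) (mo x₀ φ₀)) -
      Qd ρ (mo x ψ) (mo x ψ) := by
    rw [smul_add]
    abel
  rw [h4, h3, smul_zero, zero_sub, neg_eq_zero] at h2
  exact h2

/-- The relations. -/
def Rel (ρ : End ℂ U →ₗ[ℂ] End ℂ R) : Prop :=
  (∀ (x : U) (φ ψ : Dual ℂ U), ρ (mo x φ) * ρ (mo x ψ) = φ x • ρ (mo x ψ)) ∧
    ∀ (x y : U) (φ : Dual ℂ U), ρ (mo x φ) * ρ (mo y φ) = φ y • ρ (mo x φ)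

theorem mul_of_Qd {ρ : End ℂ U →ₗ[ℂ] End ℂ R} (hρ : IsRp ρ) {A B : End ℂ U}
    (h : Qd ρ A B = 0) : ρ A * ρ B = ρ (A * B) := by
  have h1 := hρ A B
  unfold Qd at h
  rw [sub_eq_zero, map_add] at h
  rw [map_sub] at h1
  have h2 : (ρ A * ρ B - ρ (A * B)) + (ρ A * ρ B - ρ (A * B)) = 0 := by
    have h3 : (ρ A * ρ B - ρ (A * B)) + (ρ A * ρ B - ρ (A * B)) =
        (ρ A * ρ B + ρ B * ρ A) + (ρ A * ρ B - ρ B * ρ A) - (ρ (A * B) + ρ (A * B)) := by abel
    rw [h3, h, ← h1]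
    abel
  exact sub_eq_zero.1 (two_zero h2)

theorem rel_of {ρ : End ℂ U →ₗ[ℂ] End ℂ R} (hρ : IsRp ρ) {x₀ : U} {φ₀ : Dual ℂ U}
    (h1 : φ₀ x₀ = 1) (h0 : ρ (mo x₀ φ₀) * ρ (mo x₀ φ₀) = ρ (mo x₀ φ₀)) : Rel ρ := by
  have hQ := Qd_all hρ h1 (by
    unfold Qd
    rw [mo_mul, h1, one_smul, h0, map_add, sub_self])
  constructor
  · intro x φ ψ
    have h2 := hQ x (φ + ψ)
    rw [mo_add', Qd_add_left, Qd_add_right, Qd_add_right, hQ, hQ, zero_add, add_zero,
      Qd_symm ρ (mo x ψ)] at h2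
    rw [mul_of_Qd hρ (two_zero h2), mo_mul, map_smul]
  · intro x y φ
    have h2 := hQ (x + y) φ
    rw [mo_add, Qd_add_left, Qd_add_right, Qd_add_right, hQ, hQ, zero_add, add_zero,
      Qd_symm ρ (mo y φ)] at h2
    rw [mul_of_Qd hρ (two_zero h2), mo_mul, map_smul]

/-! ### Weight vectors -/

section wt

variable {n : ℕ} (e : Basis (Fin n) ℂ U)

/-- The matrix units. -/
noncomputable def mu (i j : Fin n) : End ℂ U := mo (e i) (e.coord j)

theorem coord_e (i j : Fin n) : e.coord j (e i) = if i = j then 1 else 0 := by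
  rw [Basis.coord_apply, Basis.repr_self, Finsupp.single_apply]

theorem mu_mul (i j k l : Fin n) : mu e i j * mu e k l = if k = j then mu e i l else 0 := by
  unfold mu
  rw [mo_mul, coord_e]
  by_cases h : k = j
  · rw [if_pos h, if_pos h, one_smul]
  · rw [if_neg h, if_neg h, zero_smul]

theorem sum_mu (A : End ℂ U) : A = ∑ i, ∑ j, (e.coord i (A (e j))) • mu e i j := by
  refine e.ext fun k => ?_
  rw [LinearMap.sum_apply]
  have h4 : ∀ i, (∑ j, (e.coord i (A (e j))) • mu e i j) (e k) = e.coord i (A (e k)) • e i := by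
    intro i
    rw [LinearMap.sum_apply, Finset.sum_eq_single k]
    · rw [LinearMap.smul_apply, mu, mo_apply, coord_e, if_pos rfl, one_smul]
    · intro j _ hj
      rw [LinearMap.smul_apply, mu, mo_apply, coord_e, if_neg (Ne.symm hj), zero_smul, smul_zero]
    · intro h
      exact absurd (Finset.mem_univ k) h
  rw [Finset.sum_congr rfl fun i _ => h4 i]
  exact (e.sum_repr (A (e k))).symm

theorem sum_mu_one : (1 : End ℂ U) = ∑ i, mu e i i := by
  refine e.ext fun k => ?_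
  rw [LinearMap.sum_apply, Finset.sum_eq_single k]
  · rw [mu, mo_apply, coord_e, if_pos rfl, one_smul]
    rfl
  · intro j _ hj
    rw [mu, mo_apply, coord_e, if_neg (Ne.symm hj), zero_smul]
  · intro h
    exact absurd (Finset.mem_univ k) h

variable {ρ : End ℂ U →ₗ[ℂ] End ℂ R} (hρ : IsRp ρ) (hr : Rel ρ)

include hr in
theorem P_idem (i : Fin n) : ρ (mu e i i) * ρ (mu e i i) = ρ (mu e i i) := by
  have h := hr.1 (e i) (e.coord i) (e.coord i)
  rwa [coord_e, if_pos rfl, one_smul] at h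

include hr in
/-- The matrix units and the idempotents. -/
theorem P_left (i j : Fin n) : ρ (mu e i i) * ρ (mu e i j) = ρ (mu e i j) := by
  have h := hr.1 (e i) (e.coord i) (e.coord j)
  rwa [coord_e, if_pos rfl, one_smul] at h

include hr in
theorem P_right (i j : Fin n) : ρ (mu e i j) * ρ (mu e j j) = ρ (mu e i j) := by
  have h := hr.2 (e i) (e j) (e.coord j)
  rwa [coord_e, if_pos rfl, one_smul] at h

include hr in
theorem P_left' {i j : Fin n} (hij : i ≠ j) : ρ (mu e j j) * ρ (mu e i j) = 0 := by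
  have h := hr.2 (e j) (e i) (e.coord j)
  rwa [coord_e, if_neg hij, zero_smul] at h

include hr in
theorem P_right' {i j : Fin n} (hij : i ≠ j) : ρ (mu e i j) * ρ (mu e i i) = 0 := by
  have h := hr.1 (e i) (e.coord j) (e.coord i)
  rwa [coord_e, if_neg hij, zero_smul] at h

include hρ in
theorem P_comm (i j : Fin n) : ρ (mu e i i) * ρ (mu e j j) = ρ (mu e j j) * ρ (mu e i i) := by
  by_cases h : i = j
  · rw [h]
  have h1 := hρ (mu e i i) (mu e j j)
  rw [mu_mul, mu_mul, if_neg (Ne.symm h), if_neg h, sub_zero, map_zero] at h1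
  exact (sub_eq_zero.1 h1.symm)

include hρ in
theorem P_comm' {i j l : Fin n} (hi : l ≠ i) (hj : l ≠ j) :
    ρ (mu e l l) * ρ (mu e i j) = ρ (mu e i j) * ρ (mu e l l) := by
  have h1 := hρ (mu e l l) (mu e i j)
  rw [mu_mul, mu_mul, if_neg (Ne.symm hi), if_neg hj, sub_zero, map_zero] at h1
  exact (sub_eq_zero.1 h1.symm)

include hρ hr in
/-- Simultaneous eigenvectors. -/
theorem exists_joint {w₀ : R} (hw₀ : w₀ ≠ 0) : ∃ w, w ≠ 0 ∧
    (∀ i, ρ (mu e i i) w = 0 ∨ ρ (mu e i i) w = w) ∧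
    (∀ i, ρ (mu e i i) w₀ = 0 → ρ (mu e i i) w = 0) ∧
    (∀ i, ρ (mu e i i) w₀ = w₀ → ρ (mu e i i) w = w) := by
  classical
  have key : ∀ s : Finset (Fin n), ∃ w, w ≠ 0 ∧
      (∀ i ∈ s, ρ (mu e i i) w = 0 ∨ ρ (mu e i i) w = w) ∧
      (∀ i, ρ (mu e i i) w₀ = 0 → ρ (mu e i i) w = 0) ∧
      (∀ i, ρ (mu e i i) w₀ = w₀ → ρ (mu e i i) w = w) := by
    intro s
    induction s using Finset.induction_on with
    | empty => exact ⟨w₀, hw₀, fun i hi => absurd hi (Finset.notMem_empty i), fun i h => h,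
        fun i h => h⟩
    | insert a s ha ih =>
      obtain ⟨w, h1, h2, h3, h4⟩ := ih
      by_cases h5 : ρ (mu e a a) w = 0
      · refine ⟨w, h1, fun i hi => ?_, h3, h4⟩
        rcases Finset.mem_insert.1 hi with rfl | hi
        · exact Or.inl h5
        · exact h2 i hi
      · have hc : ∀ i, ρ (mu e i i) (ρ (mu e a a) w) = ρ (mu e a a) (ρ (mu e i i) w) := fun i => by
          rw [← End.mul_apply, ← End.mul_apply, P_comm e hρ i a]
        refine ⟨ρ (mu e a a) w, h5, fun i hi => ?_, fun i h6 => ?_, fun i h6 => ?_⟩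
        · rcases Finset.mem_insert.1 hi with rfl | hi
          · right
            rw [← End.mul_apply, P_idem e hr]
          · rcases h2 i hi with h6 | h6
            · left
              rw [hc, h6, map_zero]
            · right
              rw [hc, h6]
        · rw [hc, h3 i h6, map_zero]
        · rw [hc, h4 i h6]
  obtain ⟨w, h1, h2, h3, h4⟩ := key Finset.univ
  exact ⟨w, h1, fun i => h2 i (Finset.mem_univ i), h3, h4⟩

include hρ hr in
/-- The number operator. -/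
theorem num_joint {w : R} (h : ∀ i, ρ (mu e i i) w = 0 ∨ ρ (mu e i i) w = w) :
    ∃ m : ℕ, ρ 1 w = (m : ℂ) • w ∧ (∀ j, w ≠ 0 → ρ (mu e j j) w = w → 1 ≤ m) ∧
      (∀ j, w ≠ 0 → ρ (mu e j j) w = 0 → m + 1 ≤ n) := by
  classical
  refine ⟨(Finset.univ.filter fun i => ρ (mu e i i) w = w).card, ?_, fun j hw hj => ?_,
    fun j hw hj => ?_⟩
  · rw [sum_mu_one e, map_sum, LinearMap.sum_apply, Finset.card_filter, Nat.cast_sum,
      Finset.sum_smul]
    refine Finset.sum_congr rfl fun i _ => ?_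
    rcases h i with h1 | h1
    · by_cases h2 : ρ (mu e i i) w = w
      · rw [if_pos h2, h2, Nat.cast_one, one_smul]
      · rw [if_neg h2, h1, Nat.cast_zero, zero_smul]
    · rw [if_pos h1, h1, Nat.cast_one, one_smul]
  · exact Finset.card_pos.2 ⟨j, Finset.mem_filter.2 ⟨Finset.mem_univ j, hj⟩⟩
  · have h1 : (Finset.univ.filter fun i => ρ (mu e i i) w = w) ⊂ Finset.univ := by
      refine Finset.ssubset_univ_iff.2 fun h2 => ?_
      have h3 : j ∈ Finset.univ.filter fun i => ρ (mu e i i) w = w := by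
        rw [h2]
        exact Finset.mem_univ j
      rw [Finset.mem_filter, hj] at h3
      exact hw h3.2.symm
    have h2 := Finset.card_lt_card h1
    rw [Finset.card_univ, Fintype.card_fin] at h2
    exact h2

include hρ hr in
/-- **Highest weight vectors.** -/
theorem exists_hw {w₀ : R} (hw₀ : w₀ ≠ 0) : ∃ (k : ℕ) (w : R), k ≤ n ∧ w ≠ 0 ∧
    (∀ i : Fin n, (i : ℕ) < k → ρ (mu e i i) w = w) ∧
    (∀ i : Fin n, k ≤ (i : ℕ) → ρ (mu e i i) w = 0) ∧
    ∀ i j : Fin n, i < j → ρ (mu e i j) w = 0 := by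
  classical
  have key : ∀ (N : ℕ) (w : R), w ≠ 0 → (∀ i, ρ (mu e i i) w = 0 ∨ ρ (mu e i i) w = w) →
      (∑ i : Fin n, if ρ (mu e i i) w = w then (i : ℕ) else 0) = N →
      ∃ w', w' ≠ 0 ∧ (∀ i, ρ (mu e i i) w' = 0 ∨ ρ (mu e i i) w' = w') ∧
        ∀ i j : Fin n, i < j → ρ (mu e j j) w' = w' → ρ (mu e i i) w' = w' := by
    intro N
    induction N using Nat.strong_induction_on with
    | _ N ih =>
      intro w hw hj hN
      by_cases hd : ∀ i j : Fin n, i < j → ρ (mu e j j) w = w → ρ (mu e i i) w = w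
      · exact ⟨w, hw, hj, hd⟩
      push Not at hd
      obtain ⟨i, j, hij, hjw, hiw⟩ := hd
      have hi0 : ρ (mu e i i) w = 0 := (hj i).resolve_right hiw
      have hne : i ≠ j := ne_of_lt hij
      obtain ⟨w', hw'⟩ : ∃ w', w' = ρ (mu e i j) w := ⟨_, rfl⟩
      have h1 : ρ (mu e j i) w = 0 := by
        have h2 := LinearMap.congr_fun (P_right e hr j i) w
        rw [End.mul_apply, hi0, map_zero] at h2
        exact h2.symm
      have h2 : ρ (mu e j i) w' = w := by
        have h3 := hρ (mu e j i) (mu e i j)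
        rw [mu_mul, mu_mul, if_pos rfl, if_pos rfl, map_sub] at h3
        have h4 := LinearMap.congr_fun h3 w
        rw [LinearMap.sub_apply, LinearMap.sub_apply, End.mul_apply, End.mul_apply, h1, map_zero,
          sub_zero, hjw, hi0, sub_zero] at h4
        rw [hw', ← h4]
      have hw0 : w' ≠ 0 := by
        intro h3
        rw [h3, map_zero] at h2
        exact hw h2.symm
      have e1 : ρ (mu e i i) w' = w' := by
        rw [hw', ← End.mul_apply, P_left e hr]
      have e2 : ρ (mu e j j) w' = 0 := by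
        rw [hw', ← End.mul_apply, P_left' e hr hne]
        rfl
      have e3 : ∀ l, l ≠ i → l ≠ j → ρ (mu e l l) w' = ρ (mu e i j) (ρ (mu e l l) w) := by
        intro l hl hl'
        rw [hw', ← End.mul_apply, P_comm' e hρ hl hl']
        rfl
      have e4 : ∀ l, l ≠ i → l ≠ j → (ρ (mu e l l) w' = w' ↔ ρ (mu e l l) w = w) := by
        intro l hl hl'
        constructor
        · intro h3
          rcases hj l with h4 | h4
          · exfalso
            rw [e3 l hl hl', h4, map_zero] at h3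
            exact hw0 h3.symm
          · exact h4
        · intro h3
          rw [e3 l hl hl', h3, hw']
      refine ih _ ?_ w' hw0 (fun l => ?_) rfl
      · rw [← hN]
        have hs : ∀ f : Fin n → ℕ, ∑ l, f l = f i + (f j +
            ∑ l ∈ (Finset.univ.erase i).erase j, f l) := by
          intro f
          rw [Finset.add_sum_erase _ _ (Finset.mem_erase.2 ⟨hne.symm, Finset.mem_univ j⟩),
            Finset.add_sum_erase _ _ (Finset.mem_univ i)]
        rw [hs, hs, if_pos e1, if_neg (by rw [e2]; exact fun h => hw0 h.symm), if_neg hiw,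
          if_pos hjw, zero_add, zero_add]
        have h3 : ∑ l ∈ (Finset.univ.erase i).erase j, (if ρ (mu e l l) w' = w' then (l : ℕ) else 0) =
            ∑ l ∈ (Finset.univ.erase i).erase j, (if ρ (mu e l l) w = w then (l : ℕ) else 0) := by
          refine Finset.sum_congr rfl fun l hl => ?_
          rw [Finset.mem_erase, Finset.mem_erase] at hl
          rw [if_congr (e4 l hl.2.1 hl.1) rfl rfl]
        rw [h3]
        exact Nat.add_lt_add_right hij _
      · by_cases hl : l = i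
        · right
          rw [hl, e1]
        · by_cases hl' : l = j
          · left
            rw [hl', e2]
          · rcases hj l with h3 | h3
            · left
              rw [e3 l hl hl', h3, map_zero]
            · right
              rw [e3 l hl hl', h3, hw']
  obtain ⟨w₁, hw₁, hj₁, -, -⟩ := exists_joint e hρ hr hw₀
  obtain ⟨w, hw, hj, hd⟩ := key _ w₁ hw₁ hj₁ rfl
  -- the number
  have hex : ∃ k : ℕ, k = n ∨ ∃ h : k < n, ρ (mu e ⟨k, h⟩ ⟨k, h⟩) w = 0 := ⟨n, Or.inl rfl⟩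
  have hlt : ∀ i : Fin n, (i : ℕ) < Nat.find hex → ρ (mu e i i) w = w := by
    intro i hi
    have h1 := Nat.find_min hex hi
    push Not at h1
    exact (hj i).resolve_left (h1.2 i.2)
  have hge : ∀ i : Fin n, Nat.find hex ≤ (i : ℕ) → ρ (mu e i i) w = 0 := by
    intro i hi
    rcases Nat.find_spec hex with h1 | ⟨h1, h2⟩
    · exact absurd i.2 (by omega)
    · rcases hj i with h3 | h3
      · exact h3
      · exfalso
        rcases Nat.eq_or_lt_of_le hi with h4 | h4
        · have h5 : i = ⟨Nat.find hex, h1⟩ := Fin.ext h4.symm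
          rw [h5, h2] at h3
          exact hw h3.symm
        · have h5 := hd ⟨Nat.find hex, h1⟩ i (Fin.lt_def.2 h4) h3
          rw [h2] at h5
          exact hw h5.symm
  refine ⟨Nat.find hex, w, Nat.find_min' hex (Or.inl rfl), hw, hlt, hge, fun i j hij => ?_⟩
  rcases hj j with h1 | h1
  · have h2 := LinearMap.congr_fun (P_right e hr i j) w
    rw [End.mul_apply, h1, map_zero] at h2
    exact h2.symm
  · have h3 := hd i j hij h1
    have h2 := LinearMap.congr_fun (P_right' e hr (ne_of_lt hij)) w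
    rw [End.mul_apply, h3] at h2
    exact h2

end wt

end Pool.Agent.H24GS
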