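import Mathlib
import Pool.Agent.H24GS.X1

/-!
# Comparison of representations with the same highest weight
-/

set_option autoImplicit false
set_option linter.unusedSectionVars false
set_option linter.unusedVariables false

namespace Pool.Agent.H24GS

open Module

variable {U R V₂ : Type} [AddCommGroup U] [Module ℂ U] [AddCommGroup R] [Module ℂ R]
  [AddCommGroup V₂] [Module ℂ V₂]

/-- **Comparison.** -/
theorem compare {n : ℕ} (e : Basis (Fin n) ℂ U) {ρ₁ : End ℂ U →ₗ[ℂ] End ℂ R}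
    {ρ₂ : End ℂ U →ₗ[ℂ] End ℂ V₂} (h₁ : IsRp ρ₁) (h₂ : IsRp ρ₂)
    (hirr : ∀ W : Submodule ℂ R, (∀ A, ∀ w ∈ W, ρ₁ A w ∈ W) → W = ⊥ ∨ W = ⊤)
    (hcr : ∀ W : Submodule ℂ V₂, (∀ A, ∀ w ∈ W, ρ₂ A w ∈ W) →
      ∃ π : V₂ →ₗ[ℂ] V₂, (∀ v, π v ∈ W) ∧ (∀ w ∈ W, π w = w) ∧ ∀ A v, π (ρ₂ A v) = ρ₂ A (π v))
    (wt : Fin n → ℂ) {w : R} {v : V₂} (hw : w ≠ 0) (hv : v ≠ 0)
    (hwd : ∀ i, ρ₁ (mu e i i) w = wt i • w) (hvd : ∀ i, ρ₂ (mu e i i) v = wt i • v)
    (hwr : ∀ i j : Fin n, i < j → ρ₁ (mu e i j) w = 0)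
    (hvr : ∀ i j : Fin n, i < j → ρ₂ (mu e i j) v = 0) :
    ∃ f : R →ₗ[ℂ] V₂, f ≠ 0 ∧ ∀ A x, f (ρ₁ A x) = ρ₂ A (f x) := by
  classical
  -- the sum of the two representations
  let τ : End ℂ U → R × V₂ →ₗ[ℂ] R × V₂ := fun A => (ρ₁ A).prodMap (ρ₂ A)
  have hτ : ∀ A x, τ A x = (ρ₁ A x.1, ρ₂ A x.2) := fun A x => rfl
  have hτb : ∀ A B x, τ A (τ B x) = τ B (τ A x) + τ (A * B - B * A) x := by
    intro A B x
    rw [hτ, hτ, hτ, hτ, hτ, h₁ A B, h₂ A B, Prod.mk_add_mk]
    congr 1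
    · rw [LinearMap.sub_apply, End.mul_apply, End.mul_apply]
      abel
    · rw [LinearMap.sub_apply, End.mul_apply, End.mul_apply]
      abel
  have hτs : ∀ (A : End ℂ U) x, τ A x = ∑ i, ∑ j, (e.coord i (A (e j))) • τ (mu e i j) x := by
    intro A x
    have h3 : ρ₁ A x.1 = ∑ i, ∑ j, (e.coord i (A (e j))) • ρ₁ (mu e i j) x.1 := by
      conv_lhs => rw [sum_mu e A]
      rw [map_sum, LinearMap.sum_apply]
      refine Finset.sum_congr rfl fun i _ => ?_
      rw [map_sum, LinearMap.sum_apply]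
      refine Finset.sum_congr rfl fun j _ => ?_
      rw [map_smul, LinearMap.smul_apply]
    have h4 : ρ₂ A x.2 = ∑ i, ∑ j, (e.coord i (A (e j))) • ρ₂ (mu e i j) x.2 := by
      conv_lhs => rw [sum_mu e A]
      rw [map_sum, LinearMap.sum_apply]
      refine Finset.sum_congr rfl fun i _ => ?_
      rw [map_sum, LinearMap.sum_apply]
      refine Finset.sum_congr rfl fun j _ => ?_
      rw [map_smul, LinearMap.smul_apply]
    refine Prod.ext ?_ ?_
    · change ρ₁ A x.1 = _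
      rw [h3, Prod.fst_sum]
      refine Finset.sum_congr rfl fun i _ => ?_
      rw [Prod.fst_sum]
      exact Finset.sum_congr rfl fun j _ => rfl
    · change ρ₂ A x.2 = _
      rw [h4, Prod.snd_sum]
      refine Finset.sum_congr rfl fun i _ => ?_
      rw [Prod.snd_sum]
      exact Finset.sum_congr rfl fun j _ => rfl
  -- the submodule generated by the weight vector
  let Fm : Set (Submodule ℂ (R × V₂)) :=
    {W | (w, v) ∈ W ∧ ∀ i j : Fin n, j < i → ∀ x ∈ W, τ (mu e i j) x ∈ W}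
  obtain ⟨M, hM⟩ : ∃ M : Submodule ℂ (R × V₂), M = sInf Fm := ⟨_, rfl⟩
  have hMle : ∀ W ∈ Fm, M ≤ W := fun W hW => by
    rw [hM]
    exact sInf_le hW
  have hM0 : (w, v) ∈ M := by
    rw [hM, Submodule.mem_sInf]
    exact fun W hW => hW.1
  have hMl : ∀ i j : Fin n, j < i → ∀ x ∈ M, τ (mu e i j) x ∈ M := by
    intro i j hij x hx
    rw [hM, Submodule.mem_sInf] at hx ⊢
    exact fun W hW => hW.2 i j hij x (hx W hW)
  have hm0 : ∀ A, τ A (w, v) ∈ M := by
    intro A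
    rw [hτs]
    refine Submodule.sum_mem _ fun i _ => Submodule.sum_mem _ fun j _ => Submodule.smul_mem _ _ ?_
    rcases lt_trichotomy i j with h | h | h
    · rw [hτ]
      change (ρ₁ (mu e i j) w, ρ₂ (mu e i j) v) ∈ M
      rw [hwr i j h, hvr i j h]
      exact M.zero_mem
    · subst h
      rw [hτ]
      change (ρ₁ (mu e i i) w, ρ₂ (mu e i i) v) ∈ M
      rw [hwd, hvd]
      exact M.smul_mem (wt i) hM0
    · exact hMl i j h _ hM0
  have hMA : ∀ A, ∀ x ∈ M, τ A x ∈ M := by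
    let W : Submodule ℂ (R × V₂) :=
      { carrier := {x | x ∈ M ∧ ∀ A, τ A x ∈ M}
        add_mem' := fun {x y} hx hy => ⟨M.add_mem hx.1 hy.1, fun A => by
          rw [map_add]
          exact M.add_mem (hx.2 A) (hy.2 A)⟩
        zero_mem' := ⟨M.zero_mem, fun A => by
          rw [map_zero]
          exact M.zero_mem⟩
        smul_mem' := fun c x hx => ⟨M.smul_mem c hx.1, fun A => by
          rw [map_smul]
          exact M.smul_mem c (hx.2 A)⟩ }
    have h1 : M ≤ W := hMle W ⟨⟨hM0, hm0⟩, fun i j hij x hx => ⟨hMl i j hij x hx.1, fun A => by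
      rw [hτb]
      exact M.add_mem (hMl i j hij _ (hx.2 A)) (hx.2 _)⟩⟩
    exact fun A x hx => (h1 hx).2 A
  -- the grading
  obtain ⟨T, hT⟩ : ∃ T : End ℂ U, T = ∑ i : Fin n, ((i : ℕ) : ℂ) • mu e i i := ⟨_, rfl⟩
  have hTmu : ∀ i j : Fin n, T * mu e i j - mu e i j * T =
      (((i : ℕ) : ℂ) - ((j : ℕ) : ℂ)) • mu e i j := by
    intro i j
    rw [hT, Finset.sum_mul, Finset.mul_sum, sub_smul]
    congr 1
    · rw [Finset.sum_eq_single i]
      · rw [smul_mul_assoc, mu_mul, if_pos rfl]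
      · intro l _ hl
        rw [smul_mul_assoc, mu_mul, if_neg (Ne.symm hl), smul_zero]
      · intro h
        exact absurd (Finset.mem_univ i) h
    · rw [Finset.sum_eq_single j]
      · rw [mul_smul_comm, mu_mul, if_pos rfl]
      · intro l _ hl
        rw [mul_smul_comm, mu_mul, if_neg hl, smul_zero]
      · intro h
        exact absurd (Finset.mem_univ j) h
  obtain ⟨t, ht⟩ : ∃ t : ℂ, t = ∑ i : Fin n, ((i : ℕ) : ℂ) * wt i := ⟨_, rfl⟩
  have hTw : ρ₁ T w = t • w := by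
    rw [hT, ht, map_sum, LinearMap.sum_apply, Finset.sum_smul]
    refine Finset.sum_congr rfl fun i _ => ?_
    rw [map_smul, LinearMap.smul_apply, hwd, smul_smul]
  have hTv : ρ₂ T v = t • v := by
    rw [hT, ht, map_sum, LinearMap.sum_apply, Finset.sum_smul]
    refine Finset.sum_congr rfl fun i _ => ?_
    rw [map_smul, LinearMap.smul_apply, hvd, smul_smul]
  have hTm : τ T (w, v) = t • (w, v) := by
    rw [hτ]
    exact Prod.ext hTw hTv
  let M₁ : Submodule ℂ (R × V₂) := ⨆ μ ≠ t, Module.End.eigenspace (τ T) μ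
  let M₂ : Submodule ℂ (R × V₂) := ⨆ d : ℕ, Module.End.eigenspace (τ T) (t + (d + 1 : ℂ))
  have hM₂₁ : M₂ ≤ M₁ := by
    refine iSup_le fun d => ?_
    refine le_iSup₂_of_le (t + (d + 1 : ℂ)) ?_ le_rfl
    intro h
    have h1 : (d : ℂ) + 1 = 0 := by linear_combination h
    have h2 : ((d + 1 : ℕ) : ℂ) = 0 := by
      push_cast
      exact h1
    exact absurd (Nat.cast_eq_zero.1 h2) (Nat.succ_ne_zero d)
  have hlow : ∀ i j : Fin n, j < i → ∀ μ, ∀ x ∈ Module.End.eigenspace (τ T) μ,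
      τ (mu e i j) x ∈ Module.End.eigenspace (τ T)
        (μ + (((i : ℕ) : ℂ) - ((j : ℕ) : ℂ))) := by
    intro i j hij μ x hx
    rw [Module.End.mem_eigenspace_iff] at hx ⊢
    have h3 := hτb T (mu e i j) x
    rw [hx, hTmu] at h3
    rw [h3, map_smul, add_smul]
    congr 1
    rw [hτ, hτ, map_smul, map_smul]
    rfl
  have hgr : M ≤ Submodule.span ℂ {(w, v)} ⊔ M₂ := by
    refine hMle _ ⟨Submodule.mem_sup_left (Submodule.mem_span_singleton_self _),
      fun i j hij x hx => ?_⟩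
    have hnat : ∃ q : ℕ, ((i : ℕ) : ℂ) - ((j : ℕ) : ℂ) = (q : ℂ) + 1 := by
      have h1 : (j : ℕ) < (i : ℕ) := hij
      refine ⟨(i : ℕ) - (j : ℕ) - 1, ?_⟩
      have h2 : ((i : ℕ) : ℂ) = (((i : ℕ) - (j : ℕ) - 1 : ℕ) : ℂ) + 1 + ((j : ℕ) : ℂ) := by
        have h3 : (i : ℕ) = ((i : ℕ) - (j : ℕ) - 1) + 1 + (j : ℕ) := by omega
        exact_mod_cast h3
      rw [h2]
      ring
    obtain ⟨q, hq⟩ := hnat
    obtain ⟨y, hy, z, hz, rfl⟩ := Submodule.mem_sup.1 hx
    rw [map_add]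
    refine Submodule.add_mem _ (Submodule.mem_sup_right ?_) (Submodule.mem_sup_right ?_)
    · obtain ⟨c, rfl⟩ := Submodule.mem_span_singleton.1 hy
      rw [map_smul]
      refine Submodule.smul_mem _ _ ?_
      have h3 := hlow i j hij t (w, v) (Module.End.mem_eigenspace_iff.2 hTm)
      rw [hq] at h3
      exact Submodule.mem_iSup_of_mem q h3
    · have h3 : M₂ ≤ M₂.comap (τ (mu e i j)) := by
        refine iSup_le fun d x hx => ?_
        rw [Submodule.mem_comap]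
        have h4 := hlow i j hij _ x hx
        rw [hq] at h4
        have h5 : t + (d + 1 : ℂ) + ((q : ℂ) + 1) = t + (((d + q + 1 : ℕ) : ℂ) + 1) := by
          push_cast
          ring
        rw [h5] at h4
        exact Submodule.mem_iSup_of_mem (d + q + 1) h4
      exact h3 hz
  have hthin : (0, v) ∉ M := by
    intro h0
    obtain ⟨y, hy, z, hz, hyz⟩ := Submodule.mem_sup.1 (hgr h0)
    obtain ⟨c, rfl⟩ := Submodule.mem_span_singleton.1 hy
    have hz' : z ∈ Module.End.eigenspace (τ T) t := by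
      have h1 : z = (0, v) - c • (w, v) := by
        rw [← hyz, add_sub_cancel_left]
      rw [h1]
      refine Submodule.sub_mem _ (Module.End.mem_eigenspace_iff.2 ?_)
        (Submodule.smul_mem _ _ (Module.End.mem_eigenspace_iff.2 hTm))
      rw [hτ]
      refine Prod.ext ?_ ?_
      · change ρ₁ T 0 = t • (0 : R)
        rw [map_zero, smul_zero]
      · exact hTv
    have hdis := Module.End.eigenspaces_iSupIndep (τ T) t
    have hz0 : z = 0 := (Submodule.disjoint_def.1 hdis) z hz' (hM₂₁ hz)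
    rw [hz0, add_zero] at hyz
    have h1 : c • w = 0 := congrArg Prod.fst hyz
    have h2 : c • v = v := congrArg Prod.snd hyz
    have h3 : c = 0 := (smul_eq_zero.1 h1).resolve_right hw
    rw [h3, zero_smul] at h2
    exact hv h2.symm
  -- surjectivity
  have hsur : ∀ x : R, ∃ m : M, (m : R × V₂).1 = x := by
    let W : Submodule ℂ R := M.map (LinearMap.fst ℂ R V₂)
    have h1 : W = ⊤ := by
      refine (hirr W ?_).resolve_left fun h => hw ?_
      · rintro A _ ⟨x, hx, rfl⟩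
        exact ⟨τ A x, hMA A x hx, rfl⟩
      · have h2 : w ∈ W := ⟨(w, v), hM0, rfl⟩
        rw [h, Submodule.mem_bot] at h2
        exact h2
    intro x
    have h2 : x ∈ W := by
      rw [h1]
      trivial
    obtain ⟨m, hm, h3⟩ := h2
    exact ⟨⟨m, hm⟩, h3⟩
  obtain ⟨s, hs⟩ := LinearMap.exists_rightInverse_of_surjective
    ((LinearMap.fst ℂ R V₂).comp M.subtype) (LinearMap.range_eq_top.2 fun x => hsur x)
  have hs' : ∀ x, ((s x : M) : R × V₂).1 = x := fun x => LinearMap.congr_fun hs x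
  -- the kernel
  let N : Submodule ℂ V₂ := M.comap (LinearMap.inr ℂ R V₂)
  have hN : ∀ y, y ∈ N ↔ (0, y) ∈ M := fun y => Iff.rfl
  obtain ⟨π, hπ1, hπ2, hπ3⟩ := hcr N (fun A y hy => by
    rw [hN] at hy ⊢
    have h1 := hMA A _ hy
    rw [hτ] at h1
    change (ρ₁ A 0, ρ₂ A y) ∈ M at h1
    rwa [map_zero] at h1)
  obtain ⟨f, hf⟩ : ∃ f : R →ₗ[ℂ] V₂, ∀ x, f x = ((s x : M) : R × V₂).2 -
      π ((s x : M) : R × V₂).2 :=
    ⟨((LinearMap.id - π).comp (LinearMap.snd ℂ R V₂)).comp (M.subtype.comp s), fun x => rfl⟩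
  have hfm : ∀ x y, (x, y) ∈ M → f x = y - π y := by
    intro x y hxy
    have h1 : ((s x : M) : R × V₂).2 - y ∈ N := by
      rw [hN]
      have h2 := M.sub_mem (s x).2 hxy
      have h3 : ((s x : M) : R × V₂) - (x, y) = (0, ((s x : M) : R × V₂).2 - y) := by
        refine Prod.ext ?_ rfl
        change ((s x : M) : R × V₂).1 - x = 0
        rw [hs', sub_self]
      rwa [h3] at h2
    have h2 := hπ2 _ h1
    rw [hf]
    rw [map_sub] at h2
    have h3 : ((s x : M) : R × V₂).2 - π ((s x : M) : R × V₂).2 - (y - π y) =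
        (((s x : M) : R × V₂).2 - y) - (π ((s x : M) : R × V₂).2 - π y) := by abel
    rw [← sub_eq_zero, h3, h2, sub_self]
  refine ⟨f, fun h0 => ?_, fun A x => ?_⟩
  · apply hthin
    have h1 := hfm w v hM0
    rw [h0, LinearMap.zero_apply] at h1
    have h2 : v = π v := (sub_eq_zero.1 h1.symm)
    rw [← hN, h2]
    exact hπ1 v
  · have h1 := hMA A _ (s x).2
    rw [hτ, hs'] at h1
    rw [hfm _ _ h1, hf, map_sub, hπ3]

end Pool.Agent.H24GS
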