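import Mathlib
import Pool.Agent.H24GS.X2

/-!
# Representations in which an involution with a simple eigenvalue has two eigenvalues
-/

set_option autoImplicit false
set_option linter.unusedSectionVars false
set_option linter.unusedVariables false

namespace Pool.Agent.H24GS

open Module

variable {U R : Type} [AddCommGroup U] [Module ℂ U] [AddCommGroup R] [Module ℂ R]

theorem inv_one {D : End ℂ U} (hD : D * D = 1) (h2 : D ≠ -1) [FiniteDimensional ℂ U]
    (h : finrank ℂ (LinearMap.ker (D - 1)) ≤ 1) :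
    ∃ (x : U) (φ : Dual ℂ U), φ x = 1 ∧ D = (2 : ℂ) • mo x φ - 1 := by
  have hDD : ∀ v, D (D v) = v := fun v => by
    rw [← End.mul_apply, hD]
    rfl
  have hk : ∀ v, v + D v ∈ LinearMap.ker (D - 1) := fun v => by
    rw [LinearMap.mem_ker, LinearMap.sub_apply, map_add, hDD]
    change D v + v - (v + D v) = 0
    abel
  obtain ⟨v₀, hv₀⟩ : ∃ v, v + D v ≠ 0 := by
    by_contra hcon
    push Not at hcon
    exact h2 (LinearMap.ext fun v => eq_neg_of_add_eq_zero_right (hcon v))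
  have h1 : finrank ℂ (LinearMap.ker (D - 1)) = 1 := by
    have h3 : finrank ℂ (LinearMap.ker (D - 1)) ≠ 0 := fun h4 => by
      have h5 := hk v₀
      rw [Submodule.finrank_eq_zero.1 h4, Submodule.mem_bot] at h5
      exact hv₀ h5
    omega
  obtain ⟨⟨x, hx⟩, hx0, hxs⟩ := finrank_eq_one_iff'.1 h1
  have hx0' : x ≠ 0 := fun h3 => hx0 (Subtype.ext h3)
  obtain ⟨ψ, hψ⟩ : ∃ ψ : Dual ℂ U, ψ x ≠ 0 := by
    by_contra hcon
    push Not at hcon
    exact hx0' ((Module.forall_dual_apply_eq_zero_iff ℂ _).1 hcon)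
  have hDx : D x = x := by
    rw [LinearMap.mem_ker, LinearMap.sub_apply] at hx
    exact sub_eq_zero.1 hx
  refine ⟨x, (2 * ψ x)⁻¹ • (ψ + ψ.comp D), ?_, LinearMap.ext fun v => ?_⟩
  · change (2 * ψ x)⁻¹ * (ψ x + ψ (D x)) = 1
    rw [hDx]
    field_simp
    ring
  · obtain ⟨c, hc⟩ := hxs ⟨v + D v, hk v⟩
    have hc' : c • x = v + D v := congrArg Subtype.val hc
    have h3 : ψ v + ψ (D v) = c * ψ x := by
      rw [← map_add, ← hc', map_smul, smul_eq_mul]
    change D v = (2 : ℂ) • (((2 * ψ x)⁻¹ * (ψ v + ψ (D v))) • x) - v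
    rw [h3]
    have h4 : (2 * ψ x)⁻¹ * (c * ψ x) = c / 2 := by field_simp
    rw [h4, smul_smul]
    have h5 : (2 : ℂ) * (c / 2) = c := by ring
    rw [h5, hc']
    abel

/-- Involutions with a simple eigenvalue. -/
theorem inv_simple [FiniteDimensional ℂ U] {D : End ℂ U} (hD : D * D = 1) (h1 : D ≠ 1)
    (h2 : D ≠ -1) (h : ¬ (2 ≤ finrank ℂ (LinearMap.ker (D - 1)) ∧
      2 ≤ finrank ℂ (LinearMap.ker (D + 1)))) :
    ∃ (ε : ℂ) (x : U) (φ : Dual ℂ U), ε * ε = 1 ∧ φ x = 1 ∧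
      D = ε • ((2 : ℂ) • mo x φ - 1) := by
  by_cases h3 : finrank ℂ (LinearMap.ker (D - 1)) ≤ 1
  · obtain ⟨x, φ, h4, h5⟩ := inv_one hD h2 h3
    exact ⟨1, x, φ, one_mul _, h4, by rw [one_smul, ← h5]⟩
  · have h4 : finrank ℂ (LinearMap.ker (D + 1)) ≤ 1 := by
      by_contra h5
      exact h ⟨by omega, by omega⟩
    have h5 : LinearMap.ker (-D - 1) = LinearMap.ker (D + 1) := by
      ext v
      rw [LinearMap.mem_ker, LinearMap.mem_ker]
      constructor
      · intro h6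
        have h7 : (D + 1) v = -((-D - 1) v) := by
          change D v + v = -(-(D v) - v)
          abel
        rw [h7, h6, neg_zero]
      · intro h6
        have h7 : (-D - 1) v = -((D + 1) v) := by
          change -(D v) - v = -(D v + v)
          abel
        rw [h7, h6, neg_zero]
    obtain ⟨x, φ, h6, h7⟩ := inv_one (D := -D) (by rw [neg_mul_neg, hD]) (fun h6 => h1 (by
      rw [neg_inj] at h6
      exact h6)) (by rw [h5]; exact h4)
    exact ⟨-1, x, φ, by norm_num, h6, by rw [← h7, neg_one_smul, neg_neg]⟩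

theorem mu_tr [FiniteDimensional ℂ U] {n : ℕ} (e : Basis (Fin n) ℂ U) (i : Fin n) :
    LinearMap.trace ℂ U (mu e i i) = 1 := by
  unfold mu
  rw [mo_tr, coord_e, if_pos rfl]

/-- The structure of the representation. -/
theorem rep_data [FiniteDimensional ℂ U] [FiniteDimensional ℂ R] [Nontrivial R] {n : ℕ}
    (e₀ : Basis (Fin n) ℂ U) {r : End ℂ U →ₗ[ℂ] End ℂ R} (hr : IsRp r)
    (hirr : ∀ W : Submodule ℂ R, (∀ A, ∀ w ∈ W, r A w ∈ W) → W = ⊥ ∨ W = ⊤)
    {ε : ℂ} {x : U} {φ : Dual ℂ U} (hε : ε * ε = 1) (hφ : φ x = 1)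
    (hD : ∃ c : ℂ, (r (ε • ((2 : ℂ) • mo x φ - 1)) + c • 1) *
      (r (ε • ((2 : ℂ) • mo x φ - 1)) + c • 1) = 1)
    (hns : ∀ c : ℂ, r (ε • ((2 : ℂ) • mo x φ - 1)) ≠ c • 1) :
    ∃ (a : ℂ) (ρ : End ℂ U →ₗ[ℂ] End ℂ R) (k : ℕ),
      (∀ A, r A = ρ A + (a * LinearMap.trace ℂ U A) • 1) ∧ IsRp ρ ∧ 1 ≤ k ∧ k + 1 ≤ n ∧
      ∀ e : Basis (Fin n) ℂ U, ∃ w : R, w ≠ 0 ∧
        (∀ i : Fin n, (i : ℕ) < k → ρ (mu e i i) w = w) ∧
        (∀ i : Fin n, k ≤ (i : ℕ) → ρ (mu e i i) w = 0) ∧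
        ∀ i j : Fin n, i < j → ρ (mu e i j) w = 0 := by
  classical
  obtain ⟨z, hz⟩ : ∃ z : ℂ, r 1 = z • 1 := by
    refine Pool.Agent.Y126.JP.scal_of_irr (G := LinearMap.range r)
      (fun W hW => hirr W fun A w hw => hW _ ⟨A, rfl⟩ w hw) (r 1) ?_
    rintro _ ⟨A, rfl⟩
    have h1 := hr 1 A
    rw [one_mul, mul_one, sub_self, map_zero] at h1
    exact sub_eq_zero.1 h1.symm
  have hε0 : ε ≠ 0 := fun h => by
    rw [h, zero_mul] at hε
    exact zero_ne_one hε
  obtain ⟨c, hc⟩ := hD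
  obtain ⟨P, hP⟩ : ∃ P, P = r (mo x φ) := ⟨_, rfl⟩
  have hrD : r (ε • ((2 : ℂ) • mo x φ - 1)) = ε • ((2 : ℂ) • P - z • 1) := by
    rw [map_smul, map_sub, map_smul, hz, hP]
  rw [hrD] at hc
  obtain ⟨a, ha⟩ : ∃ a : ℂ, a = (z - ε * c - 1) / 2 := ⟨_, rfl⟩
  have hQ : (P - a • 1) * (P - a • 1) = P - a • 1 := by
    have h1 : ε • ((2 : ℂ) • P - z • 1) + c • 1 =
        ε • ((2 : ℂ) • (P - a • 1) - (1 : End ℂ R)) := by
      have h2 : ε • ((2 : ℂ) • P - z • 1) + c • 1 -
          ε • ((2 : ℂ) • (P - a • 1) - (1 : End ℂ R)) = (c - ε * z + ε * (2 * a) + ε) • 1 := by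
        module
      have h3 : c - ε * z + ε * (2 * a) + ε = 0 := by
        rw [ha]
        linear_combination (-c) * hε
      rw [h3, zero_smul] at h2
      exact sub_eq_zero.1 h2
    rw [h1, smul_mul_smul_comm, hε, one_smul] at hc
    have h2 : (4 : ℂ) • ((P - a • 1) * (P - a • 1) - (P - a • 1)) = 0 := by
      have h3 : ((2 : ℂ) • (P - a • 1) - (1 : End ℂ R)) * ((2 : ℂ) • (P - a • 1) - 1) =
          (4 : ℂ) • ((P - a • 1) * (P - a • 1) - (P - a • 1)) + 1 := by
        rw [sub_mul, mul_sub, one_mul, smul_mul_smul_comm, mul_one]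
        module
      rw [h3] at hc
      exact add_eq_right.1 hc
    exact sub_eq_zero.1 ((smul_eq_zero.1 h2).resolve_left (by norm_num))
  -- the twisted representation
  obtain ⟨ρ, hρ⟩ : ∃ ρ : End ℂ U →ₗ[ℂ] End ℂ R,
      ∀ A, ρ A = r A - (a * LinearMap.trace ℂ U A) • 1 :=
    ⟨r - a • (LinearMap.trace ℂ U).smulRight (1 : End ℂ R), fun A => by
      rw [LinearMap.sub_apply, LinearMap.smul_apply, LinearMap.smulRight_apply, smul_smul]⟩
  have hρr : IsRp ρ := by
    intro A B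
    have h1 : LinearMap.trace ℂ U (A * B - B * A) = 0 := by
      rw [map_sub, LinearMap.trace_mul_comm, sub_self]
    rw [hρ, hρ, hρ, h1, mul_zero, zero_smul, sub_zero, hr]
    simp only [sub_mul, mul_sub, smul_mul_assoc, mul_smul_comm, one_mul, mul_one]
    module
  have hρp : ρ (mo x φ) = P - a • 1 := by
    rw [hρ, mo_tr, hφ, mul_one, hP]
  have hrel : Rel ρ := rel_of hρr hφ (by rw [hρp, hQ])
  have hQ0 : ρ (mo x φ) ≠ 0 := by
    intro h
    rw [hρp, sub_eq_zero] at h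
    apply hns (ε * (2 * a - z))
    rw [hrD, h]
    module
  have hQ1 : ρ (mo x φ) ≠ 1 := by
    intro h
    rw [hρp, sub_eq_iff_eq_add] at h
    apply hns (ε * (2 * (1 + a) - z))
    rw [hrD, h]
    module
  have hρ1 : ρ 1 = (z - a * n) • 1 := by
    rw [hρ, hz, LinearMap.trace_one, Module.finrank_eq_card_basis e₀, Fintype.card_fin, sub_smul]
  have hnum : ∀ (e : Basis (Fin n) ℂ U) (k : ℕ) (w : R), k ≤ n → w ≠ 0 →
      (∀ i : Fin n, (i : ℕ) < k → ρ (mu e i i) w = w) →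
      (∀ i : Fin n, k ≤ (i : ℕ) → ρ (mu e i i) w = 0) → z - a * n = (k : ℂ) := by
    intro e k w hk hw h1 h2
    have h3 : ρ 1 w = (k : ℂ) • w := by
      rw [sum_mu_one e, map_sum, LinearMap.sum_apply]
      have h4 : ∀ i : Fin n, ρ (mu e i i) w = if (i : ℕ) < k then w else 0 := by
        intro i
        by_cases h : (i : ℕ) < k
        · rw [if_pos h, h1 i h]
        · rw [if_neg h, h2 i (by omega)]
      rw [Finset.sum_congr rfl fun i _ => h4 i, ← Finset.sum_filter, Finset.sum_const,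
        ← Nat.cast_smul_eq_nsmul ℂ]
      congr 2
      have h5 : (Finset.univ.filter fun i : Fin n => (i : ℕ) < k).card = k := by
        rw [Fin.card_filter_val_lt]
        omega
      exact_mod_cast h5
    rw [hρ1] at h3
    have h4 : (z - a * n - k) • w = 0 := by
      rw [sub_smul, ← h3]
      change (z - a * n) • w - (z - a * n) • w = 0
      rw [sub_self]
    exact sub_eq_zero.1 ((smul_eq_zero.1 h4).resolve_right hw)
  obtain ⟨w₀, hw₀⟩ := exists_ne (0 : R)
  obtain ⟨k, w, hkn, hw, h1, h2, h3⟩ := exists_hw e₀ hρr hrel hw₀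
  have hk := hnum e₀ k w hkn hw h1 h2
  have hmu : ∀ A, ρ A = ∑ i, ∑ j, (e₀.coord i (A (e₀ j))) • ρ (mu e₀ i j) := by
    intro A
    conv_lhs => rw [sum_mu e₀ A]
    rw [map_sum]
    refine Finset.sum_congr rfl fun i _ => ?_
    rw [map_sum]
    exact Finset.sum_congr rfl fun j _ => map_smul _ _ _
  refine ⟨a, ρ, k, fun A => by rw [hρ, sub_add_cancel], hρr, ?_, ?_, fun e => ?_⟩
  · -- `k ≠ 0`
    rw [Nat.one_le_iff_ne_zero]
    intro hk0
    rw [hk0, Nat.cast_zero] at hk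
    have hz : ∀ j, ρ (mu e₀ j j) = 0 := by
      intro j
      by_contra hcon
      obtain ⟨v, hv⟩ : ∃ v, ρ (mu e₀ j j) v ≠ 0 := by
        by_contra hcon'
        push Not at hcon'
        exact hcon (LinearMap.ext hcon')
      obtain ⟨y, hy, hy1, -, hy2⟩ := exists_joint e₀ hρr hrel hv
      obtain ⟨m, hm1, hm2, -⟩ := num_joint e₀ hρr hrel hy1
      have h4 := hm2 j hy (hy2 j (by rw [← End.mul_apply, P_idem e₀ hrel]))
      rw [hρ1, hk, zero_smul, LinearMap.zero_apply] at hm1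
      have h5 := (smul_eq_zero.1 hm1.symm).resolve_right hy
      rw [Nat.cast_eq_zero] at h5
      omega
    apply hQ0
    rw [hmu]
    refine Finset.sum_eq_zero fun i _ => Finset.sum_eq_zero fun j _ => ?_
    rw [← P_left e₀ hrel, hz, zero_mul, smul_zero]
  · -- `k ≠ n`
    by_contra hcon
    have hkn' : k = n := by omega
    rw [hkn'] at hk
    have hz : ∀ j, ρ (mu e₀ j j) = 1 := by
      intro j
      by_contra hcon
      obtain ⟨v, hv⟩ : ∃ v, v - ρ (mu e₀ j j) v ≠ 0 := by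
        by_contra hcon'
        push Not at hcon'
        exact hcon (LinearMap.ext fun v => (sub_eq_zero.1 (hcon' v)).symm)
      obtain ⟨y, hy, hy1, hy2, -⟩ := exists_joint e₀ hρr hrel hv
      obtain ⟨m, hm1, -, hm2⟩ := num_joint e₀ hρr hrel hy1
      have h4 := hm2 j hy (hy2 j (by
        rw [map_sub, ← End.mul_apply, P_idem e₀ hrel, sub_self]))
      rw [hρ1, hk] at hm1
      have h5 : ((n : ℂ) - m) • y = 0 := by
        rw [sub_smul, ← hm1]
        change (n : ℂ) • y - (n : ℂ) • y = 0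
        rw [sub_self]
      have h6 := (smul_eq_zero.1 h5).resolve_right hy
      rw [sub_eq_zero, Nat.cast_inj] at h6
      omega
    have hoff : ∀ i j, i ≠ j → ρ (mu e₀ i j) = 0 := by
      intro i j hij
      rw [← mul_one (ρ (mu e₀ i j)), ← hz i, P_right' e₀ hrel hij]
    apply hQ1
    have h4 : ρ (mo x φ) = (LinearMap.trace ℂ U (mo x φ)) • (1 : End ℂ R) := by
      have h5 : LinearMap.trace ℂ U (mo x φ) =
          ∑ i, ∑ j, (e₀.coord i (mo x φ (e₀ j))) * LinearMap.trace ℂ U (mu e₀ i j) := by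
        conv_lhs => rw [sum_mu e₀ (mo x φ)]
        rw [map_sum]
        refine Finset.sum_congr rfl fun i _ => ?_
        rw [map_sum]
        exact Finset.sum_congr rfl fun j _ => by rw [map_smul, smul_eq_mul]
      rw [hmu, h5, Finset.sum_smul]
      refine Finset.sum_congr rfl fun i _ => ?_
      rw [Finset.sum_smul]
      refine Finset.sum_congr rfl fun j _ => ?_
      by_cases hij : i = j
      · subst hij
        rw [hz, mu_tr, mul_one]
      · have h6 : LinearMap.trace ℂ U (mu e₀ i j) = 0 := by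
          unfold mu
          rw [mo_tr, coord_e, if_neg hij]
        rw [hoff i j hij, h6, mul_zero, zero_smul, smul_zero]
    rw [h4, mo_tr, hφ, one_smul]
  · obtain ⟨k', w', hkn', hw', h1', h2', h3'⟩ := exists_hw e hρr hrel hw₀
    have hk' := hnum e k' w' hkn' hw' h1' h2'
    have h4 : k' = k := by
      rw [hk] at hk'
      exact_mod_cast hk'.symm
    subst h4
    exact ⟨w', hw', h1', h2', h3'⟩

end Pool.Agent.H24GS
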