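import Mathlib
import Pool.Agent.H24GS.X3
import Pool.Agent.H24GS.K3
import Pool.Agent.H24GS.Dfs

/-!
# Exterior powers
-/

set_option autoImplicit false
set_option linter.unusedSectionVars false
set_option linter.unusedVariables false

namespace Pool.Agent.H24GS

open Module Pool.Agent.N183.U8

/-- The bracket of two derivations. -/
theorem der_bracket {V W : Type} [AddCommGroup V] [Module ℂ V] [AddCommGroup W] [Module ℂ W]
    {κ : Type} [Fintype κ] [DecidableEq κ] (f : MultilinearMap ℂ (fun _ : κ => V) W)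
    (X Y : End ℂ V) (v : κ → V) :
    (∑ j, ∑ l, f (Function.update (Function.update v j (Y (v j))) l
        (X (Function.update v j (Y (v j)) l)))) -
      (∑ j, ∑ l, f (Function.update (Function.update v j (X (v j))) l
        (Y (Function.update v j (X (v j)) l)))) =
      ∑ j, f (Function.update v j ((X * Y - Y * X) (v j))) := by
  have key : ∀ (A B : End ℂ V), ∑ j, ∑ l, f (Function.update (Function.update v j (B (v j))) l
      (A (Function.update v j (B (v j)) l))) =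
      (∑ j, f (Function.update v j (A (B (v j))))) +
        ∑ j, ∑ l, if l ≠ j then
          f (Function.update (Function.update v j (B (v j))) l (A (v l))) else 0 := by
    intro A B
    rw [← Finset.sum_add_distrib]
    refine Finset.sum_congr rfl fun j _ => ?_
    rw [← Finset.add_sum_erase _ _ (Finset.mem_univ j), Function.update_self,
      Function.update_idem]
    congr 1
    rw [← Finset.sum_filter]
    refine Finset.sum_congr ?_ fun l hl => ?_
    · ext l
      simp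
    · rw [Finset.mem_filter] at hl
      rw [Function.update_of_ne hl.2]
  have hsw : ∑ j, ∑ l, (if l ≠ j then
      f (Function.update (Function.update v j (Y (v j))) l (X (v l))) else 0) =
      ∑ j, ∑ l, if l ≠ j then
        f (Function.update (Function.update v j (X (v j))) l (Y (v l))) else 0 := by
    rw [Finset.sum_comm]
    refine Finset.sum_congr rfl fun j _ => Finset.sum_congr rfl fun l _ => ?_
    by_cases h : l = j
    · subst h
      simp
    · rw [if_pos (Ne.symm h), if_pos h, Function.update_comm (Ne.symm h)]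
  rw [key X Y, key Y X, hsw, add_sub_add_right_eq_sub, ← Finset.sum_sub_distrib]
  refine Finset.sum_congr rfl fun j _ => ?_
  rw [LinearMap.sub_apply, MultilinearMap.map_update_sub]
  rfl

variable {V : Type} [AddCommGroup V] [Module ℂ V] [FiniteDimensional ℂ V] {S : Set (End ℂ V)}
  {L Hh : Submodule ℂ (End ℂ V)} {om : V →ₗ[ℂ] V →ₗ[ℂ] ℂ}

/-- The comparison of a representation with a subspace. -/
theorem fin_rep (k : HC S L om Hh) {U : Submodule ℂ V} (hU : IrE L U) {n : ℕ}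
    (e : Basis (Fin n) ℂ U)
    (hfull : ∀ A : End ℂ U, ∃ C ∈ L, ∀ u : U, C u = A u)
    {R : Type} [AddCommGroup R] [Module ℂ R] (r : Hh →ₗ[ℂ] End ℂ R)
    (hr3 : ∀ W : Submodule ℂ R, (∀ A, ∀ w ∈ W, r A w ∈ W) → W = ⊥ ∨ W = ⊤)
    {a : ℂ} {ρ : End ℂ U →ₗ[ℂ] End ℂ R}
    (hρ : ∀ (C : Hh) (A : End ℂ U), (∀ u : U, (C : End ℂ V) u = A u) →
      r C = ρ A + (a * LinearMap.trace ℂ U A) • 1) (hρr : IsRp ρ)
    (V₂ : Submodule ℂ V) (d : Hh →ₗ[ℂ] ℂ) (h1 : ∀ C : Hh, ∀ x ∈ V₂, (C : End ℂ V) x ∈ V₂)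
    (h2 : ∀ C C' C'' : Hh, (C'' : End ℂ V) = C * C' - C' * C → d C'' = 0)
    (h3 : ∀ Q : Hh, (∀ u ∈ U, (Q : End ℂ V) u = 0) → ∀ x ∈ V₂, (Q : End ℂ V) x = d Q • x)
    (wt : Fin n → ℂ) {w : R} (hw : w ≠ 0) {v : V} (hv : v ∈ V₂) (hv0 : v ≠ 0)
    (hwd : ∀ i, ρ (mu e i i) w = wt i • w) (hwr : ∀ i j : Fin n, i < j → ρ (mu e i j) w = 0)
    (hvd : ∀ (i : Fin n) (C : Hh), (∀ u : U, (C : End ℂ V) u = mu e i i u) →
      (C : End ℂ V) v = (wt i + d C) • v)
    (hvr : ∀ (i j : Fin n), i < j → ∀ C : Hh, (∀ u : U, (C : End ℂ V) u = mu e i j u) →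
      (C : End ℂ V) v = d C • v) :
    ∃ f : R →ₗ[ℂ] V, f ≠ 0 ∧
      ∀ A : Hh, ∃ c : ℂ, ∀ x, (A : End ℂ V) (f x) = f (r A x) + c • f x := by
  classical
  -- the section
  let res : L →ₗ[ℂ] End ℂ U :=
    { toFun := fun C => (C : End ℂ V).restrict (hU.2.1 C C.2)
      map_add' := fun C C' => rfl
      map_smul' := fun c C => rfl }
  have hres : ∀ (C : L) (u : U), ((res C u : U) : V) = (C : End ℂ V) u := fun C u => rfl
  obtain ⟨σ₀, hσ₀⟩ := LinearMap.exists_rightInverse_of_surjective res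
    (LinearMap.range_eq_top.2 fun A => by
      obtain ⟨C, hC, h⟩ := hfull A
      exact ⟨⟨C, hC⟩, LinearMap.ext fun u => Subtype.ext (h u)⟩)
  let ic : L →ₗ[ℂ] Hh := Submodule.inclusion k.le
  obtain ⟨σ, hσ⟩ : ∃ σ : End ℂ U →ₗ[ℂ] Hh, σ = ic.comp σ₀ := ⟨_, rfl⟩
  have hσL : ∀ A, ((σ A : Hh) : End ℂ V) ∈ L := fun A => by
    rw [hσ]
    exact (σ₀ A).2
  have hσu : ∀ (A : End ℂ U) (u : U), ((σ A : Hh) : End ℂ V) u = A u := by
    intro A u
    have h4 := LinearMap.congr_fun (LinearMap.congr_fun hσ₀ A) u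
    have h5 := congrArg Subtype.val h4
    rw [hσ]
    exact h5
  -- the second representation
  have hst : ∀ A : End ℂ U, ∀ x ∈ V₂, (((σ A : Hh) : End ℂ V) - d (σ A) • 1) x ∈ V₂ :=
    fun A x hx => V₂.sub_mem (h1 _ x hx) (V₂.smul_mem _ hx)
  let ρ₂ : End ℂ U →ₗ[ℂ] End ℂ V₂ :=
    { toFun := fun A => (((σ A : Hh) : End ℂ V) - d (σ A) • 1).restrict (hst A)
      map_add' := fun A B => LinearMap.ext fun x => Subtype.ext (by
        change ((σ (A + B) : Hh) : End ℂ V) x - d (σ (A + B)) • (x : V) =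
          (((σ A : Hh) : End ℂ V) x - d (σ A) • (x : V)) +
            (((σ B : Hh) : End ℂ V) x - d (σ B) • (x : V))
        rw [map_add, map_add, Submodule.coe_add, LinearMap.add_apply]
        module)
      map_smul' := fun c A => LinearMap.ext fun x => Subtype.ext (by
        change ((σ (c • A) : Hh) : End ℂ V) x - d (σ (c • A)) • (x : V) =
          c • (((σ A : Hh) : End ℂ V) x - d (σ A) • (x : V))
        rw [map_smul, map_smul, Submodule.coe_smul, LinearMap.smul_apply, smul_sub, smul_smul]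
        rfl) }
  have hρ₂ : ∀ (A : End ℂ U) (x : V₂), ((ρ₂ A x : V₂) : V) =
      ((σ A : Hh) : End ℂ V) x - d (σ A) • (x : V) := fun A x => rfl
  have hC2 : ∀ (C : Hh) (A : End ℂ U), (∀ u : U, (C : End ℂ V) u = A u) → ∀ x : V₂,
      (C : End ℂ V) x = ρ₂ A x + d C • (x : V) := by
    intro C A hCA x
    have h4 := h3 (C - σ A) (fun u hu => by
      rw [Submodule.coe_sub, LinearMap.sub_apply, hCA ⟨u, hu⟩, hσu A ⟨u, hu⟩, sub_self]) x x.2
    rw [Submodule.coe_sub, LinearMap.sub_apply, map_sub, sub_smul] at h4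
    rw [hρ₂, sub_eq_iff_eq_add.1 h4]
    abel
  have hρ₂r : IsRp ρ₂ := by
    intro A B
    refine LinearMap.ext fun x => Subtype.ext ?_
    have hbr : ((σ A : Hh) : End ℂ V) * ((σ B : Hh) : End ℂ V) -
        ((σ B : Hh) : End ℂ V) * ((σ A : Hh) : End ℂ V) ∈ Hh := k.hbr _ (σ A).2 _ (σ B).2
    have h4 := hC2 ⟨_, hbr⟩ (A * B - B * A) (fun u => by
      change ((σ A : Hh) : End ℂ V) (((σ B : Hh) : End ℂ V) u) -
        ((σ B : Hh) : End ℂ V) (((σ A : Hh) : End ℂ V) u) = _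
      rw [hσu, hσu, hσu, hσu]
      rfl) x
    rw [h2 (σ A) (σ B) ⟨_, hbr⟩ rfl, zero_smul, add_zero] at h4
    rw [← h4]
    change ((σ A : Hh) : End ℂ V) (((σ B : Hh) : End ℂ V) x) -
        ((σ B : Hh) : End ℂ V) (((σ A : Hh) : End ℂ V) x) =
      ((ρ₂ A (ρ₂ B x) : V₂) : V) - ((ρ₂ B (ρ₂ A x) : V₂) : V)
    rw [hρ₂, hρ₂, hρ₂, hρ₂, map_sub, map_sub, map_smul, map_smul]
    module
  -- the comparison
  obtain ⟨f, hf0, hf⟩ := compare e (ρ₁ := ρ) (ρ₂ := ρ₂) hρr hρ₂r (fun W hW => by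
      refine hr3 W fun C w hw => ?_
      rw [hρ C ((C : End ℂ V).restrict (k.stb C.2 hU.2.1)) fun u => rfl, LinearMap.add_apply]
      exact W.add_mem (hW _ w hw) (W.smul_mem _ hw))
    (fun W hW => by
      have h4 : Stb L (W.map V₂.subtype) := by
        rintro C hC _ ⟨x, hx, rfl⟩
        have h5 := hC2 ⟨C, k.le hC⟩ (C.restrict (hU.2.1 C hC)) (fun u => rfl) x
        refine ⟨ρ₂ (C.restrict (hU.2.1 C hC)) x + d ⟨C, k.le hC⟩ • x,
          W.add_mem (hW _ x hx) (W.smul_mem _ hx), h5.symm⟩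
      obtain ⟨π, hπ1, hπ2, hπ3⟩ := exists_pr k.SL k.cr h4
      have hπV : ∀ x ∈ V₂, π x ∈ V₂ := fun x _ => by
        obtain ⟨y, -, hy⟩ := hπ1 x
        rw [← hy]
        exact y.2
      refine ⟨π.restrict hπV, fun x => ?_, fun x hx => Subtype.ext (hπ2 _ ⟨x, hx, rfl⟩),
        fun A x => Subtype.ext ?_⟩
      · obtain ⟨y, hy, hyx⟩ := hπ1 (x : V)
        have h5 : π.restrict hπV x = y := Subtype.ext hyx.symm
        rw [h5]
        exact hy
      · change π (((σ A : Hh) : End ℂ V) x - d (σ A) • (x : V)) =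
          ((σ A : Hh) : End ℂ V) (π x) - d (σ A) • π x
        rw [map_sub, map_smul, hπ3 _ (hσL A)])
    wt hw (v := ⟨v, hv⟩) (fun h => hv0 (congrArg Subtype.val h)) hwd
    (fun i => Subtype.ext (by
      rw [hρ₂, hvd i _ (hσu _), add_smul, add_sub_cancel_right]
      rfl)) hwr
    (fun i j hij => Subtype.ext (by
      rw [hρ₂, hvr i j hij _ (hσu _), sub_self]
      rfl))
  refine ⟨V₂.subtype.comp f, fun h => hf0 (LinearMap.ext fun x => Subtype.ext
    (LinearMap.congr_fun h x)), fun C => ⟨d C - a * LinearMap.trace ℂ U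
      ((C : End ℂ V).restrict (k.stb C.2 hU.2.1)), fun x => ?_⟩⟩
  have h4 := hC2 C ((C : End ℂ V).restrict (k.stb C.2 hU.2.1)) (fun u => rfl) (f x)
  change (C : End ℂ V) (f x) = ((f (r C x) : V₂) : V) + _ • ((f x : V₂) : V)
  rw [h4, hρ C ((C : End ℂ V).restrict (k.stb C.2 hU.2.1)) fun u => rfl, LinearMap.add_apply,
    map_add, hf, Submodule.coe_add]
  change _ = _ + ((f ((a * LinearMap.trace ℂ U _) • x) : V₂) : V) + _
  rw [map_smul, Submodule.coe_smul, sub_smul]
  abel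

end Pool.Agent.H24GS
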