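import Mathlib
import Pool.Agent.H24GS.X4

/-!
# Exterior powers and the dual
-/

set_option autoImplicit false
set_option linter.unusedSectionVars false
set_option linter.unusedVariables false

namespace Pool.Agent.H24GS

open Module Pool.Agent.N183.U8

variable {V : Type} [AddCommGroup V] [Module ℂ V] [FiniteDimensional ℂ V] {S : Set (End ℂ V)}
  {L Hh : Submodule ℂ (End ℂ V)} {om : V →ₗ[ℂ] V →ₗ[ℂ] ℂ}

/-- Permutation of a basis. -/
theorem exists_perm {n k : ℕ} (v : Fin k → Fin n) (hv : Function.Injective v) (hkn : k ≤ n) :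
    ∃ σ : Fin n ≃ Fin n, ∀ i : Fin k, σ (Fin.castLE hkn i) = v i := by
  classical
  let f : Fin n → Fin n := fun x => if h : (x : ℕ) < k then v ⟨x, h⟩ else x
  have hf : ∀ i : Fin k, f (Fin.castLE hkn i) = v i := fun i => by
    change (if h : (i : ℕ) < k then v ⟨i, h⟩ else _) = v i
    rw [dif_pos i.2]
  obtain ⟨g, hg⟩ := Finset.exists_equiv_extend_of_card_eq (α := Fin n) (β := Fin n)
    (t := Finset.univ) (by rw [Finset.card_univ]) (s := Finset.univ.filter fun x => (x : ℕ) < k)
    (f := f) (Finset.subset_univ _) (by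
      intro x hx y hy hxy
      rw [Finset.mem_coe, Finset.mem_filter] at hx hy
      change (if h : (x : ℕ) < k then v ⟨x, h⟩ else x) =
        (if h : (y : ℕ) < k then v ⟨y, h⟩ else y) at hxy
      rw [dif_pos hx.2, dif_pos hy.2] at hxy
      have h1 := congrArg Fin.val (hv hxy)
      exact Fin.ext h1)
  refine ⟨g.trans (Equiv.subtypeUnivEquiv fun x => Finset.mem_univ x), fun i => ?_⟩
  change ((g (Fin.castLE hkn i) : Finset.univ) : Fin n) = v i
  rw [hg _ (Finset.mem_filter.2 ⟨Finset.mem_univ _, i.2⟩), hf]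

/-- **Exterior powers.** -/
theorem ext_case (k : HC S L om Hh) {U : Submodule ℂ V} (hU : IrE L U) {n : ℕ}
    (e₀ : Basis (Fin n) ℂ U)
    (hfull : ∀ A : End ℂ U, ∃ C ∈ L, ∀ u : U, C u = A u)
    {R : Type} [AddCommGroup R] [Module ℂ R] (r : Hh →ₗ[ℂ] End ℂ R)
    (hr3 : ∀ W : Submodule ℂ R, (∀ A, ∀ w ∈ W, r A w ∈ W) → W = ⊥ ∨ W = ⊤)
    {a : ℂ} {ρ : End ℂ U →ₗ[ℂ] End ℂ R}
    (hρ : ∀ (C : Hh) (A : End ℂ U), (∀ u : U, (C : End ℂ V) u = A u) →
      r C = ρ A + (a * LinearMap.trace ℂ U A) • 1) (hρr : IsRp ρ) {m : ℕ}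
    (hw : ∀ e : Basis (Fin n) ℂ U, ∃ w : R, w ≠ 0 ∧
        (∀ i : Fin n, (i : ℕ) < m → ρ (mu e i i) w = w) ∧
        (∀ i : Fin n, m ≤ (i : ℕ) → ρ (mu e i i) w = 0) ∧
        ∀ i j : Fin n, i < j → ρ (mu e i j) w = 0)
    (B : V [⋀^Fin m]→ₗ[ℂ] V) (hB0 : ∃ u : Fin m → V, (∀ j, u j ∈ U) ∧ B u ≠ 0)
    (hB : ∀ A ∈ Hh, ∃ c : ℂ, ∀ u : Fin m → V, (∀ j, u j ∈ U) →
        A (B u) = ∑ j, B (Function.update u j (A (u j))) + c • B u) :
    ∃ f : R →ₗ[ℂ] V, f ≠ 0 ∧
      ∀ A : Hh, ∃ c : ℂ, ∀ x, (A : End ℂ V) (f x) = f (r A x) + c • f x := by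
  classical
  -- the basis
  obtain ⟨v, hvi, hv0⟩ : ∃ v : Fin m → Fin n, Function.Injective v ∧
      B (fun i => (e₀ (v i) : V)) ≠ 0 := by
    by_contra hcon
    push Not at hcon
    have h1 : B.compLinearMap U.subtype = 0 := by
      refine Basis.ext_alternating e₀ fun v hv => ?_
      exact hcon v hv
    obtain ⟨u, hu, hu0⟩ := hB0
    exact hu0 (DFunLike.congr_fun h1 fun j => (⟨u j, hu j⟩ : U))
  have hkn : m ≤ n := by
    have h1 := Fintype.card_le_of_injective v hvi
    rwa [Fintype.card_fin, Fintype.card_fin] at h1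
  obtain ⟨σ, hσ⟩ := exists_perm v hvi hkn
  obtain ⟨e, he⟩ : ∃ e : Basis (Fin n) ℂ U, ∀ i, e i = e₀ (σ i) :=
    ⟨e₀.reindex σ.symm, fun i => by rw [Basis.reindex_apply, Equiv.symm_symm]⟩
  obtain ⟨e', he'⟩ : ∃ e' : Fin m → V, ∀ j, e' j = (e (Fin.castLE hkn j) : V) :=
    ⟨_, fun j => rfl⟩
  have he'U : ∀ j, e' j ∈ U := fun j => by
    rw [he']
    exact (e _).2
  have hb0 : B e' ≠ 0 := by
    have h1 : e' = fun i => (e₀ (v i) : V) := funext fun i => by rw [he', he, hσ]
    rw [h1]
    exact hv0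
  obtain ⟨ψ, hψ⟩ : ∃ ψ : Dual ℂ V, ψ (B e') = 1 := by
    obtain ⟨f, hf⟩ : ∃ f : Dual ℂ V, f (B e') ≠ 0 := by
      by_contra hcon
      push Not at hcon
      exact hb0 ((Module.forall_dual_apply_eq_zero_iff ℂ _).1 hcon)
    exact ⟨(f (B e'))⁻¹ • f, by rw [LinearMap.smul_apply, smul_eq_mul, inv_mul_cancel₀ hf]⟩
  -- the character
  obtain ⟨d, hd⟩ : ∃ d : Hh →ₗ[ℂ] ℂ, ∀ A : Hh, d A = ψ ((A : End ℂ V) (B e')) -
      ∑ j, ψ (B (Function.update e' j ((A : End ℂ V) (e' j)))) := by
    refine ⟨{ toFun := fun A => ψ ((A : End ℂ V) (B e')) -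
                ∑ j, ψ (B (Function.update e' j ((A : End ℂ V) (e' j))))
              map_add' := fun A A' => ?_
              map_smul' := fun c A => ?_ }, fun A => rfl⟩
    · rw [Submodule.coe_add, LinearMap.add_apply, map_add]
      have h1 : ∀ j, ψ (B (Function.update e' j (((A : End ℂ V) + A') (e' j)))) =
          ψ (B (Function.update e' j ((A : End ℂ V) (e' j)))) +
            ψ (B (Function.update e' j ((A' : End ℂ V) (e' j)))) := by
        intro j
        rw [LinearMap.add_apply, B.map_update_add, map_add]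
      rw [Finset.sum_congr rfl fun j _ => h1 j, Finset.sum_add_distrib]
      ring
    · rw [Submodule.coe_smul, LinearMap.smul_apply, map_smul, RingHom.id_apply]
      have h1 : ∀ j, ψ (B (Function.update e' j ((c • (A : End ℂ V)) (e' j)))) =
          c * ψ (B (Function.update e' j ((A : End ℂ V) (e' j)))) := by
        intro j
        rw [LinearMap.smul_apply, B.map_update_smul, map_smul, smul_eq_mul]
      rw [Finset.sum_congr rfl fun j _ => h1 j, ← Finset.mul_sum, smul_eq_mul, smul_eq_mul,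
        mul_sub]
  have hBd : ∀ (A : Hh) (u : Fin m → V), (∀ j, u j ∈ U) →
      (A : End ℂ V) (B u) = ∑ j, B (Function.update u j ((A : End ℂ V) (u j))) + d A • B u := by
    intro A
    obtain ⟨c, hc⟩ := hB A A.2
    have h1 : d A = c := by
      rw [hd, hc e' he'U, map_add, map_sum, map_smul, hψ, smul_eq_mul, mul_one,
        add_sub_cancel_left]
    rw [h1]
    exact hc
  have hup : ∀ (A : Hh) (u : Fin m → V), (∀ j, u j ∈ U) → ∀ l, ∀ j,
      Function.update u l ((A : End ℂ V) (u l)) j ∈ U := by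
    intro A u hu l j
    by_cases h : j = l
    · subst h
      rw [Function.update_self]
      exact k.stb A.2 hU.2.1 _ (hu j)
    · rw [Function.update_of_ne h]
      exact hu j
  obtain ⟨V₂, hV₂⟩ : ∃ V₂ : Submodule ℂ V, V₂ = Submodule.span ℂ
    {x | ∃ u : Fin m → V, (∀ j, u j ∈ U) ∧ x = B u} := ⟨_, rfl⟩
  have hBV : ∀ u : Fin m → V, (∀ j, u j ∈ U) → B u ∈ V₂ := fun u hu => by
    rw [hV₂]
    exact Submodule.subset_span ⟨u, hu, rfl⟩
  obtain ⟨w, hw0, hw1, hw2, hw3⟩ := hw e
  refine fin_rep k hU e hfull r hr3 hρ hρr V₂ d (fun C x hx => ?_) (fun C C' C'' hC => ?_)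
    (fun Q hQ x hx => ?_) (fun i => if (i : ℕ) < m then 1 else 0) hw0 (hBV e' he'U) hb0
    (fun i => ?_) hw3 (fun i C hC => ?_) (fun i j hij C hC => ?_)
  · rw [hV₂] at hx
    refine Submodule.span_induction (p := fun x _ => (C : End ℂ V) x ∈ V₂) ?_ ?_ ?_ ?_ hx
    · rintro _ ⟨u, hu, rfl⟩
      rw [hBd C u hu]
      exact V₂.add_mem (V₂.sum_mem fun j _ => hBV _ (hup C u hu j)) (V₂.smul_mem _ (hBV u hu))
    · rw [map_zero]
      exact V₂.zero_mem
    · intro x y _ _ h1 h2
      rw [map_add]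
      exact V₂.add_mem h1 h2
    · intro c x _ h1
      rw [map_smul]
      exact V₂.smul_mem c h1
  · have key : ∀ C C' : Hh, (C : End ℂ V) ((C' : End ℂ V) (B e')) =
        (∑ j, ∑ l, B (Function.update (Function.update e' j ((C' : End ℂ V) (e' j))) l
          ((C : End ℂ V) (Function.update e' j ((C' : End ℂ V) (e' j)) l)))) +
        (d C • ∑ j, B (Function.update e' j ((C' : End ℂ V) (e' j))) +
          d C' • ∑ j, B (Function.update e' j ((C : End ℂ V) (e' j))) + (d C * d C') • B e') := by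
      intro C C'
      rw [hBd C' e' he'U, map_add, map_sum, map_smul, hBd C e' he'U]
      rw [Finset.sum_congr rfl fun j _ => hBd C _ (hup C' e' he'U j), Finset.sum_add_distrib,
        ← Finset.smul_sum, smul_add, smul_smul]
      rw [mul_comm (d C') (d C)]
      abel
    have h1 := hBd C'' e' he'U
    have h2 := der_bracket B.toMultilinearMap (C : End ℂ V) (C' : End ℂ V) e'
    have h3 : (C'' : End ℂ V) (B e') = ∑ j, B (Function.update e' j ((C'' : End ℂ V) (e' j))) := by
      rw [hC, LinearMap.sub_apply, End.mul_apply, End.mul_apply, key C C', key C' C,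
        mul_comm (d C') (d C)]
      have h4 : ∑ j, B (Function.update e' j (((C : End ℂ V) * C' - (C' : End ℂ V) * C) (e' j))) =
          (∑ j, ∑ l, B (Function.update (Function.update e' j ((C' : End ℂ V) (e' j))) l
            ((C : End ℂ V) (Function.update e' j ((C' : End ℂ V) (e' j)) l)))) -
          (∑ j, ∑ l, B (Function.update (Function.update e' j ((C : End ℂ V) (e' j))) l
            ((C' : End ℂ V) (Function.update e' j ((C : End ℂ V) (e' j)) l)))) := h2.symm
      rw [h4]
      abel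
    rw [h3] at h1
    have h4 : d C'' • B e' = 0 := left_eq_add.1 h1
    exact (smul_eq_zero.1 h4).resolve_right hb0
  · rw [hV₂] at hx
    refine Submodule.span_induction (p := fun x _ => (Q : End ℂ V) x = d Q • x) ?_ ?_ ?_ ?_ hx
    · rintro _ ⟨u, hu, rfl⟩
      rw [hBd Q u hu, Finset.sum_eq_zero fun j _ => ?_, zero_add]
      rw [hQ _ (hu j)]
      exact B.map_coord_zero j (Function.update_self _ _ _)
    · rw [map_zero, smul_zero]
    · intro x y _ _ h1 h2
      rw [map_add, h1, h2, smul_add]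
    · intro c x _ h1
      rw [map_smul, h1, smul_comm]
  · by_cases h : (i : ℕ) < m
    · rw [if_pos h, one_smul, hw1 i h]
    · rw [if_neg h, zero_smul, hw2 i (by omega)]
  · rw [hBd C e' he'U, add_smul]
    congr 1
    have h1 : ∀ j, B (Function.update e' j ((C : End ℂ V) (e' j))) =
        if Fin.castLE hkn j = i then B e' else 0 := by
      intro j
      have h2 : (C : End ℂ V) (e' j) = ((if Fin.castLE hkn j = i then (1 : ℂ) else 0) • (e i : V)) := by
        rw [he', hC, mu, mo_apply, coord_e]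
        rfl
      rw [h2]
      by_cases h : Fin.castLE hkn j = i
      · rw [if_pos h, if_pos h, one_smul, ← h, ← he', Function.update_eq_self]
      · rw [if_neg h, if_neg h, zero_smul]
        exact B.map_coord_zero j (Function.update_self _ _ _)
    rw [Finset.sum_congr rfl fun j _ => h1 j]
    by_cases h : (i : ℕ) < m
    · rw [if_pos h, one_smul, Finset.sum_eq_single ⟨i, h⟩]
      · rw [if_pos (show Fin.castLE hkn ⟨(i : ℕ), h⟩ = i from Fin.ext rfl)]
      · intro j _ hj
        rw [if_neg]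
        intro h3
        apply hj
        have h4 := congrArg Fin.val h3
        exact Fin.ext h4
      · intro h3
        exact absurd (Finset.mem_univ _) h3
    · rw [if_neg h, zero_smul]
      refine Finset.sum_eq_zero fun j _ => ?_
      rw [if_neg]
      intro h3
      apply h
      rw [← h3]
      exact j.2
  · rw [hBd C e' he'U, Finset.sum_eq_zero fun l _ => ?_, zero_add]
    have h2 : (C : End ℂ V) (e' l) = ((if Fin.castLE hkn l = j then (1 : ℂ) else 0) • (e i : V)) := by
      rw [he', hC, mu, mo_apply, coord_e]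
      rfl
    rw [h2]
    by_cases h : Fin.castLE hkn l = j
    · rw [if_pos h, one_smul]
      have h3 : (j : ℕ) = l := by rw [← h]; rfl
      have h4 : (i : ℕ) < (l : ℕ) := by
        have h5 : (i : ℕ) < (j : ℕ) := hij
        omega
      have h5 : (i : ℕ) < m := lt_trans h4 l.2
      refine B.map_eq_zero_of_eq _ (i := l) (j := ⟨i, h5⟩) ?_ fun h6 => ?_
      · rw [Function.update_self, Function.update_of_ne (fun h6 => by
          have h7 := congrArg Fin.val h6
          change (i : ℕ) = (l : ℕ) at h7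
          omega), he']
        rfl
      · have h7 := congrArg Fin.val h6
        change (l : ℕ) = (i : ℕ) at h7
        omega
    · rw [if_neg h, zero_smul]
      exact B.map_coord_zero l (Function.update_self _ _ _)

end Pool.Agent.H24GS
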