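import Mathlib
import Pool.Agent.H24GS.X5

/-!
# The dual, and saturated subspaces
-/

set_option autoImplicit false
set_option linter.unusedSectionVars false
set_option linter.unusedVariables false

namespace Pool.Agent.H24GS

open Module Pool.Agent.N183.U8

variable {V : Type} [AddCommGroup V] [Module ℂ V] [FiniteDimensional ℂ V] {S : Set (End ℂ V)}
  {L Hh : Submodule ℂ (End ℂ V)} {om : V →ₗ[ℂ] V →ₗ[ℂ] ℂ}

/-- **The dual.** -/
theorem dual_case (k : HC S L om Hh) {U : Submodule ℂ V} (hU : IrE L U) {n : ℕ}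
    (e₀ : Basis (Fin n) ℂ U)
    (hfull : ∀ A : End ℂ U, ∃ C ∈ L, ∀ u : U, C u = A u)
    {R : Type} [AddCommGroup R] [Module ℂ R] (r : Hh →ₗ[ℂ] End ℂ R)
    (hr3 : ∀ W : Submodule ℂ R, (∀ A, ∀ w ∈ W, r A w ∈ W) → W = ⊥ ∨ W = ⊤)
    {a : ℂ} {ρ : End ℂ U →ₗ[ℂ] End ℂ R}
    (hρ : ∀ (C : Hh) (A : End ℂ U), (∀ u : U, (C : End ℂ V) u = A u) →
      r C = ρ A + (a * LinearMap.trace ℂ U A) • 1) (hρr : IsRp ρ) {m : ℕ} (hm : m + 1 = n)
    (hw : ∀ e : Basis (Fin n) ℂ U, ∃ w : R, w ≠ 0 ∧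
        (∀ i : Fin n, (i : ℕ) < m → ρ (mu e i i) w = w) ∧
        (∀ i : Fin n, m ≤ (i : ℕ) → ρ (mu e i i) w = 0) ∧
        ∀ i j : Fin n, i < j → ρ (mu e i j) w = 0) :
    ∃ f : R →ₗ[ℂ] V, f ≠ 0 ∧
      ∀ A : Hh, ∃ c : ℂ, ∀ x, (A : End ℂ V) (f x) = f (r A x) + c • f x := by
  classical
  obtain ⟨U', -, hU', huu⟩ := k.toCtx.exists_dual (U := U) (V₀ := ⊤) (fun X _ v _ => trivial) (by
    obtain ⟨u, hu, hu0⟩ := Submodule.exists_mem_ne_zero_of_ne_bot hU.1
    by_contra hcon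
    push Not at hcon
    exact hu0 (k.nd u fun v => hcon u hu v trivial))
  -- nondegeneracy
  have hdl : ∀ u : U, (∀ u' ∈ U', om u u' = 0) → u = 0 := by
    have h1 : Stb L (U ⊓ {
        carrier := {v | ∀ u' ∈ U', om v u' = 0}
        add_mem' := fun {x y} hx hy u' hu' => by
          rw [map_add, LinearMap.add_apply, hx u' hu', hy u' hu', add_zero]
        zero_mem' := fun u' hu' => by rw [map_zero, LinearMap.zero_apply]
        smul_mem' := fun c x hx u' hu' => by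
          rw [map_smul, LinearMap.smul_apply, hx u' hu', smul_zero] : Submodule ℂ V}) := by
      rintro X hX u ⟨hu, hu1⟩
      refine ⟨hU.2.1 X hX u hu, fun u' hu' => ?_⟩
      have h2 := k.skw X hX u u'
      have h3 : om u (X u') = 0 := hu1 _ (hU'.2.1 X hX u' hu')
      rwa [h3, add_zero] at h2
    rcases hU.2.2 _ inf_le_left h1 with h2 | h2
    · intro u hu
      have h4 : (u : V) ∈ (⊥ : Submodule ℂ V) := by
        rw [← h2]
        exact ⟨u.2, hu⟩
      exact Subtype.ext ((Submodule.mem_bot ℂ).1 h4)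
    · exfalso
      obtain ⟨u, hu, u', hu', h4⟩ := huu
      apply h4
      have h5 : u ∈ U := hu
      rw [← h2] at h5
      exact h5.2 u' hu'
  have hdr : ∀ x ∈ U', (∀ u ∈ U, om u x = 0) → x = 0 := by
    have h1 : Stb L (U' ⊓ {
        carrier := {v | ∀ u ∈ U, om u v = 0}
        add_mem' := fun {x y} hx hy u hu => by
          rw [map_add, hx u hu, hy u hu, add_zero]
        zero_mem' := fun u hu => by rw [map_zero]
        smul_mem' := fun c x hx u hu => by
          rw [map_smul, hx u hu, smul_zero] : Submodule ℂ V}) := by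
      rintro X hX v ⟨hv, hv1⟩
      refine ⟨hU'.2.1 X hX v hv, fun u hu => ?_⟩
      have h2 := k.skw X hX u v
      have h3 : om (X u) v = 0 := hv1 _ (hU.2.1 X hX u hu)
      rwa [h3, zero_add] at h2
    rcases hU'.2.2 _ inf_le_left h1 with h2 | h2
    · intro x hx hx0
      have h4 : x ∈ (⊥ : Submodule ℂ V) := by
        rw [← h2]
        exact ⟨hx, hx0⟩
      exact (Submodule.mem_bot ℂ).1 h4
    · exfalso
      obtain ⟨u, hu, u', hu', h4⟩ := huu
      apply h4
      rw [← h2] at hu'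
      exact hu'.2 u hu
  let δ : U' →ₗ[ℂ] Dual ℂ U := (om.compl₁₂ U.subtype U'.subtype).flip
  have hδ : ∀ (u' : U') (u : U), δ u' u = om u u' := fun u' u => rfl
  have hδs : Function.Surjective δ := by
    rw [← LinearMap.range_eq_top]
    by_contra hcon
    obtain ⟨φ, hφ0, hφ⟩ := Submodule.exists_dual_map_eq_bot_of_lt_top (lt_top_iff_ne_top.2 hcon)
      inferInstance
    let u : U := (Module.evalEquiv ℂ U).symm φ
    have hu : ∀ ψ : Dual ℂ U, φ ψ = ψ u := fun ψ => by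
      rw [Module.apply_evalEquiv_symm_apply]
    have hu0 : u = 0 := by
      refine hdl u fun u' hu' => ?_
      have h4 : φ (δ ⟨u', hu'⟩) ∈ (⊥ : Submodule ℂ ℂ) := by
        rw [← hφ]
        exact ⟨_, ⟨_, rfl⟩, rfl⟩
      rw [hu] at h4
      exact (Submodule.mem_bot ℂ).1 h4
    apply hφ0
    refine LinearMap.ext fun ψ => ?_
    rw [hu, hu0, map_zero, LinearMap.zero_apply]
  have hmn : m < n := by omega
  obtain ⟨⟨b₀, hb₀⟩, hbδ⟩ := hδs (e₀.coord ⟨m, hmn⟩)
  have hb : ∀ j : Fin n, om (e₀ j) b₀ = if j = ⟨m, hmn⟩ then 1 else 0 := by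
    intro j
    have h1 := LinearMap.congr_fun hbδ (e₀ j)
    rw [hδ, coord_e] at h1
    exact h1
  -- comparison of vectors
  have hcmp : ∀ x ∈ U', ∀ y ∈ U', (∀ j, om (e₀ j) x = om (e₀ j) y) → x = y := by
    intro x hx y hy h
    refine sub_eq_zero.1 (hdr _ (U'.sub_mem hx hy) fun u hu => ?_)
    have h1 : δ ⟨x - y, U'.sub_mem hx hy⟩ = 0 := e₀.ext fun j => by
      rw [hδ]
      change om (e₀ j) (x - y) = 0
      rw [map_sub, h j, sub_self]
    exact LinearMap.congr_fun h1 ⟨u, hu⟩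
  have hst : ∀ C : Hh, ∀ x ∈ U', (C : End ℂ V) x ∈ U' := fun C => k.stb C.2 hU'.2.1
  -- the character
  let res : Hh →ₗ[ℂ] End ℂ U :=
    { toFun := fun C => (C : End ℂ V).restrict (k.stb C.2 hU.2.1)
      map_add' := fun C C' => rfl
      map_smul' := fun c C => rfl }
  have hres : ∀ (C : Hh) (A : End ℂ U), (∀ u : U, (C : End ℂ V) u = A u) → res C = A :=
    fun C A h => LinearMap.ext fun u => Subtype.ext (h u)
  obtain ⟨w, hw0, hw1, hw2, hw3⟩ := hw e₀
  refine fin_rep k hU e₀ hfull r hr3 hρ hρr U' (-((LinearMap.trace ℂ U).comp res)) hst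
    (fun C C' C'' hC => ?_) (fun Q hQ x hx => ?_) (fun i => if (i : ℕ) < m then 1 else 0) hw0 hb₀
    (fun h => ?_) (fun i => ?_) hw3 (fun i C hC => ?_) (fun i j hij C hC => ?_)
  · have h1 : res C'' = res C * res C' - res C' * res C := LinearMap.ext fun u =>
      Subtype.ext (by
        change (C'' : End ℂ V) u = (C : End ℂ V) ((C' : End ℂ V) u) -
          (C' : End ℂ V) ((C : End ℂ V) u)
        rw [hC]
        rfl)
    rw [LinearMap.neg_apply, LinearMap.comp_apply, h1, map_sub, LinearMap.trace_mul_comm, sub_self,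
      neg_zero]
  · have h1 := k.toCtx.zero_dual hU.2.1 hU' huu (k.hskw Q Q.2) (hst Q) hQ x hx
    have h2 : res Q = 0 := LinearMap.ext fun u => Subtype.ext (hQ u u.2)
    rw [h1, LinearMap.neg_apply, LinearMap.comp_apply, h2, map_zero, neg_zero, zero_smul]
  · have h1 := hb ⟨m, hmn⟩
    rw [h, map_zero, if_pos rfl] at h1
    exact zero_ne_one h1
  · by_cases h : (i : ℕ) < m
    · rw [if_pos h, one_smul, hw1 i h]
    · rw [if_neg h, zero_smul, hw2 i (by omega)]
  · have h1 : res C = mu e₀ i i := hres C _ hC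
    rw [LinearMap.neg_apply, LinearMap.comp_apply, h1, mu_tr]
    refine hcmp _ (hst C _ hb₀) _ (U'.smul_mem _ hb₀) fun j => ?_
    have h2 := k.hskw C C.2 (e₀ j) b₀
    have h3 : (C : End ℂ V) (e₀ j) = (if j = i then (1 : ℂ) else 0) • (e₀ i : V) := by
      rw [hC, mu, mo_apply, coord_e]
      rfl
    rw [h3, map_smul, LinearMap.smul_apply, smul_eq_mul, hb] at h2
    rw [map_smul, smul_eq_mul, hb]
    have h4 : om (e₀ j) ((C : End ℂ V) b₀) =
        -((if j = i then (1 : ℂ) else 0) * if i = ⟨m, hmn⟩ then 1 else 0) :=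
      eq_neg_of_add_eq_zero_right h2
    rw [h4]
    by_cases hj : j = ⟨m, hmn⟩
    · by_cases hi : i = ⟨m, hmn⟩
      · rw [if_pos (hj.trans hi.symm), if_pos hi, if_pos hj]
        have h5 : ¬ (i : ℕ) < m := by
          rw [hi]
          exact lt_irrefl m
        rw [if_neg h5]
        ring
      · have h5 : (i : ℕ) < m := by
          have h6 : (i : ℕ) ≠ m := fun h7 => hi (Fin.ext h7)
          have h7 := i.2
          omega
        rw [if_neg hi, if_pos h5]
        ring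
    · rw [if_neg hj]
      by_cases hi : i = ⟨m, hmn⟩
      · rw [if_neg (fun h => hj (h.trans hi))]
        ring
      · rw [if_neg hi]
        ring
  · have h1 : res C = mu e₀ i j := hres C _ hC
    have htr : LinearMap.trace ℂ U (mu e₀ i j) = 0 := by
      unfold mu
      rw [mo_tr, coord_e, if_neg (ne_of_lt hij)]
    rw [LinearMap.neg_apply, LinearMap.comp_apply, h1, htr, neg_zero, zero_smul]
    refine hcmp _ (hst C _ hb₀) _ U'.zero_mem fun l => ?_
    have h2 := k.hskw C C.2 (e₀ l) b₀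
    have h3 : (C : End ℂ V) (e₀ l) = (if l = j then (1 : ℂ) else 0) • (e₀ i : V) := by
      rw [hC, mu, mo_apply, coord_e]
      rfl
    have hi : i ≠ ⟨m, hmn⟩ := by
      intro h4
      have h5 : (i : ℕ) < (j : ℕ) := hij
      have h6 : (i : ℕ) = m := by rw [h4]
      have h7 := j.2
      omega
    rw [h3, map_smul, LinearMap.smul_apply, smul_eq_mul, hb, if_neg hi, mul_zero, zero_add] at h2
    rw [h2, map_zero]

/-- **Saturated subspaces.** -/
theorem sat_of_ext (k : HC S L om Hh) {U : Submodule ℂ V} (hU : IrE L U)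
    (h4 : 4 ≤ finrank ℂ U)
    (hsl : ∀ A : End ℂ U, LinearMap.trace ℂ U A = 0 → ∃ C ∈ L, ∀ u : U, C u = A u)
    {D : End ℂ V} (hDS : D ∈ S) (hDns : ∀ c : ℂ, ∃ u ∈ U, D u ≠ c • u)
    (hD1 : ¬ (2 ≤ finrank ℂ (U ⊓ LinearMap.ker (D - 1) : Submodule ℂ V) ∧
      2 ≤ finrank ℂ (U ⊓ LinearMap.ker (D + 1) : Submodule ℂ V)))
    (hext : ExtS Hh U) : Sat S Hh U := by
  classical
  obtain ⟨n, hn⟩ : ∃ n, n = finrank ℂ U := ⟨_, rfl⟩
  rw [← hn] at h4
  have e₀ : Basis (Fin n) ℂ U := by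
    rw [hn]
    exact Module.finBasis ℂ U
  have hDU := hU.2.1 D (k.SL D hDS)
  obtain ⟨D', hD'⟩ : ∃ D' : End ℂ U, D' = D.restrict hDU := ⟨_, rfl⟩
  have hD'u : ∀ u : U, ((D' u : U) : V) = D u := fun u => by
    rw [hD']
    rfl
  have hDD : D' * D' = 1 := LinearMap.ext fun u => Subtype.ext (by
    rw [End.mul_apply, hD'u, hD'u, ← End.mul_apply, k.sq D hDS]
    rfl)
  have hne : ∀ c : ℂ, D' ≠ c • 1 := by
    intro c hc
    obtain ⟨u, hu, h1⟩ := hDns c
    apply h1
    have h2 := congrArg Subtype.val (LinearMap.congr_fun hc ⟨u, hu⟩)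
    rw [hD'u] at h2
    exact h2
  have hker : ∀ c : ℂ, finrank ℂ (LinearMap.ker (D' - c • 1)) =
      finrank ℂ (U ⊓ LinearMap.ker (D - c • 1) : Submodule ℂ V) := by
    intro c
    have h1 : (LinearMap.ker (D' - c • 1)).map U.subtype =
        U ⊓ LinearMap.ker (D - c • 1) := by
      ext x
      constructor
      · rintro ⟨u, hu, rfl⟩
        refine ⟨u.2, ?_⟩
        have h2 := congrArg Subtype.val (LinearMap.mem_ker.1 hu)
        change ((D' u : U) : V) - c • (u : V) = 0 at h2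
        rw [hD'u] at h2
        exact h2
      · rintro ⟨hx, hx'⟩
        refine ⟨⟨x, hx⟩, LinearMap.mem_ker.2 (Subtype.ext ?_), rfl⟩
        change ((D' ⟨x, hx⟩ : U) : V) - c • x = 0
        rw [hD'u]
        exact hx'
    rw [← h1]
    exact (Submodule.finrank_map_subtype_eq U (LinearMap.ker (D' - c • 1))).symm
  obtain ⟨ε, x, φ, hε, hφ, hDe⟩ := inv_simple hDD (fun h => hne 1 (by rw [one_smul, h]))
    (fun h => hne (-1) (by rw [h]; exact (neg_one_smul ℂ (1 : End ℂ U)).symm)) (fun h => hD1 (by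
      have h1 := hker 1
      have h2 := hker (-1)
      rw [one_smul, one_smul] at h1
      rw [neg_one_smul ℂ (1 : End ℂ U), neg_one_smul ℂ (1 : End ℂ V), sub_neg_eq_add,
        sub_neg_eq_add] at h2
      rw [← h1, ← h2]
      exact h))
  -- the restrictions are all endomorphisms
  have htr : LinearMap.trace ℂ U D' ≠ 0 := by
    rw [hDe, map_smul, map_sub, map_smul, mo_tr, hφ, LinearMap.trace_one, ← hn, smul_eq_mul,
      smul_eq_mul, mul_one]
    have h1 : ε ≠ 0 := fun h => by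
      rw [h, zero_mul] at hε
      exact zero_ne_one hε
    refine mul_ne_zero h1 fun h2 => ?_
    have h3 : (n : ℂ) = 2 := (sub_eq_zero.1 h2).symm
    have h5 : n = 2 := by exact_mod_cast h3
    omega
  have hfull : ∀ A : End ℂ U, ∃ C ∈ L, ∀ u : U, C u = A u := by
    intro A
    obtain ⟨q, hq⟩ : ∃ q, q = LinearMap.trace ℂ U A / LinearMap.trace ℂ U D' := ⟨_, rfl⟩
    obtain ⟨C, hC, hCu⟩ := hsl (A - q • D') (by
      rw [map_sub, map_smul, hq, smul_eq_mul, div_mul_cancel₀ _ htr, sub_self])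
    refine ⟨C + q • D, L.add_mem hC (L.smul_mem _ (k.SL D hDS)), fun u => ?_⟩
    rw [LinearMap.add_apply, hCu, LinearMap.smul_apply, ← hD'u, LinearMap.sub_apply,
      Submodule.coe_sub, LinearMap.smul_apply, Submodule.coe_smul, sub_add_cancel]
  intro R _ _ _ _ r hr1 hr2 hr3 hr4
  -- the section
  let res : L →ₗ[ℂ] End ℂ U :=
    { toFun := fun C => (C : End ℂ V).restrict (hU.2.1 C C.2)
      map_add' := fun C C' => rfl
      map_smul' := fun c C => rfl }
  obtain ⟨σ₀, hσ₀⟩ := LinearMap.exists_rightInverse_of_surjective res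
    (LinearMap.range_eq_top.2 fun A => by
      obtain ⟨C, hC, h⟩ := hfull A
      exact ⟨⟨C, hC⟩, LinearMap.ext fun u => Subtype.ext (h u)⟩)
  let ic : L →ₗ[ℂ] Hh := Submodule.inclusion k.le
  obtain ⟨σ, hσ⟩ : ∃ σ : End ℂ U →ₗ[ℂ] Hh, σ = ic.comp σ₀ := ⟨_, rfl⟩
  have hσu : ∀ (A : End ℂ U) (u : U), ((σ A : Hh) : End ℂ V) u = A u := by
    intro A u
    have h4 := LinearMap.congr_fun (LinearMap.congr_fun hσ₀ A) u
    have h5 := congrArg Subtype.val h4
    rw [hσ]
    exact h5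
  have hrA : ∀ (C : Hh) (A : End ℂ U), (∀ u : U, (C : End ℂ V) u = A u) →
      r C = (r.comp σ) A := by
    intro C A hCA
    have h5 := hr2 (C - σ A) (fun u hu => by
      rw [Submodule.coe_sub, LinearMap.sub_apply, hCA ⟨u, hu⟩, hσu A ⟨u, hu⟩, sub_self])
    rw [map_sub] at h5
    exact sub_eq_zero.1 h5
  have hrp : IsRp (r.comp σ) := by
    intro A B
    have hbr : ((σ A : Hh) : End ℂ V) * ((σ B : Hh) : End ℂ V) -
        ((σ B : Hh) : End ℂ V) * ((σ A : Hh) : End ℂ V) ∈ Hh := k.hbr _ (σ A).2 _ (σ B).2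
    rw [← hrA ⟨_, hbr⟩ (A * B - B * A) (fun u => by
      change ((σ A : Hh) : End ℂ V) (((σ B : Hh) : End ℂ V) u) -
        ((σ B : Hh) : End ℂ V) (((σ A : Hh) : End ℂ V) u) = _
      rw [hσu, hσu, hσu, hσu]
      rfl)]
    exact hr1 (σ A) (σ B) ⟨_, hbr⟩ rfl
  have hirr : ∀ W : Submodule ℂ R, (∀ A, ∀ w ∈ W, (r.comp σ) A w ∈ W) → W = ⊥ ∨ W = ⊤ := by
    intro W hW
    refine hr3 W fun C w hw => ?_
    rw [hrA C ((C : End ℂ V).restrict (k.stb C.2 hU.2.1)) fun u => rfl]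
    exact hW _ w hw
  obtain ⟨⟨c, hc⟩, hcs⟩ := hr4 ⟨D, k.hSL D hDS⟩ hDS
  have hrD : r ⟨D, k.hSL D hDS⟩ = (r.comp σ) (ε • ((2 : ℂ) • mo x φ - 1)) :=
    hrA _ _ fun u => by
      rw [← hDe, hD'u]
  rw [hrD] at hc hcs
  obtain ⟨a, ρ, m, hρ, hρr, hm1, hm2, hw⟩ := rep_data e₀ hrp hirr hε hφ ⟨c, hc⟩ hcs
  have hρC : ∀ (C : Hh) (A : End ℂ U), (∀ u : U, (C : End ℂ V) u = A u) →
      r C = ρ A + (a * LinearMap.trace ℂ U A) • 1 := fun C A hCA => by
    rw [hrA C A hCA, hρ]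
  rcases Nat.lt_or_ge (m + 1) n with hm | hm
  · rcases Nat.lt_or_ge m 2 with hm' | hm'
    · have hm1' : m = 1 := by omega
      subst hm1'
      obtain ⟨u, hu, hu0⟩ := Submodule.exists_mem_ne_zero_of_ne_bot hU.1
      refine ext_case k hU e₀ hfull r hr3 hρC hρr hw
        (AlternatingMap.ofSubsingleton ℂ V V 0 LinearMap.id) ⟨fun _ => u, fun _ => hu, hu0⟩ ?_
      intro A hA
      refine ⟨0, fun u hu => ?_⟩
      rw [zero_smul, add_zero, Fin.sum_univ_one]
      change A (u 0) = Function.update u 0 (A (u 0)) 0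
      rw [Function.update_self]
    · obtain ⟨B, hB0, hB⟩ := hext m hm' (by rw [← hn]; omega)
      exact ext_case k hU e₀ hfull r hr3 hρC hρr hw B hB0 hB
  · exact dual_case k hU e₀ hfull r hr3 hρC hρr (by omega) hw

end Pool.Agent.H24GS
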