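import Mathlib
import Pool.Agent.H24GS.Cls
import Pool.Agent.H24GS.M5
import Pool.Agent.H24GS.K6
import Pool.Agent.H24GS.X6
import Pool.Agent.N183.U8.E6

/-!
# The local conditions for the classes
-/

set_option linter.unusedSectionVars false
set_option linter.unusedVariables false

namespace Pool.Agent.H24GS

open Matrix Module Pool.Agent.W437.HC Pool.Agent.W437.HD Pool.Agent.W548.Odd
open Pool.Agent.H204R3.SP Pool.Agent.H204R3.GP Pool.Agent.Y90 Pool.Agent.Y224.TS TensorProduct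
open Pool.Agent.Y224.TS.St (IsHodgeTate IsTateModule)
open Pool.Agent.W437.HP (cK cK_mul cK_one)
open Pool.Agent.R915 (VE mem_VE descent_gen commL_of IsFactor RealMax VE_cj root_conj pd_sig)
open Pool.Agent.N183.TS Pool.Agent.N183.U5 Pool.Agent.N183.U6 Pool.Agent.N183.U8
open Polynomial

noncomputable section

/-! ### Isogenies -/

theorem St.EmbAll.iso {X Y : AV} (e : X.H ≃ₗ[ℚ] Y.H) (he : IsHom X Y e.toLinearMap)
    (hes : IsHom Y X e.symm.toLinearMap) (h : EmbAll Y) : EmbAll X := by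
  obtain ⟨E, hE, hEs⟩ := Pool.Agent.N615.GSI1.tangent e he
  obtain ⟨a, Ψ, ha, h1, h2⟩ := h
  refine ⟨N615.GSI1.cj e a, E.symm.toLinearMap.comp (Ψ.comp E.toLinearMap),
    Pool.Agent.N615.GSI1.maxField e he hes ha, fun v => ?_, fun s hs => ?_⟩
  · change E.symm (Ψ (E (X.per v))) = X.per (e.symm (a (e v)))
    rw [hE, h1, hEs]
  · rw [Pool.Agent.N615.GSI1.cj_minpoly] at hs
    have h4 := h2 s hs
    rw [Pool.Agent.N615.GSI1.eigen_finrank]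
    intro h5
    apply h4
    rw [Submodule.eq_bot_iff] at h5 ⊢
    intro x hx
    have h6 : E.symm x ∈ (Module.End.eigenspace Ψ s).comap E.toLinearMap := by
      rw [Submodule.mem_comap]
      change E (E.symm x) ∈ _
      rw [E.apply_symm_apply]
      exact hx
    have h7 := h5 _ h6
    have h8 := congrArg E h7
    rw [E.apply_symm_apply, map_zero] at h8
    exact h8

/-! ### The weak local conditions -/

section weak

variable {G : ℕ} {Z : Matrix (Fin G) (Fin G) ℂ}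
  {S : Set (Matrix (Fin G ⊕ Fin G) (Fin G ⊕ Fin G) ℂ)}

/-- The weak local conditions. -/
structure Lw (S : Set (Matrix (Fin G ⊕ Fin G) (Fin G ⊕ Fin G) ℂ))
    (U : Submodule ℂ (Fin G ⊕ Fin G → ℂ)) : Prop where
  ns : ∀ D ∈ S, ∀ c : ℂ, ∃ u ∈ U, D *ᵥ u ≠ c • u
  rk : Rk1T S U

theorem Lw.nil {U : Submodule ℂ (Fin G ⊕ Fin G → ℂ)} (k : Lw S U) :
    ∃ N ∈ GG (Y224.TS.LT S), N * N = 0 ∧ finrank ℂ (U.map N) = 1 := by
  obtain ⟨D, hD, ε, hε, N, hN, h1, h2, h3⟩ := k.rk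
  refine ⟨ph _ N, mem_GG.2 hN, ?_, h3⟩
  rw [← map_mul]
  have h4 : N * N = 0 := by
    have h3 : N * N = -(N * N) := by
      calc N * N = N * ((ε • D) * N) := by rw [h1]
        _ = -(N * N) := by rw [← mul_assoc, h2, neg_mul]
    have h4 : (2 : ℂ) • (N * N) = 0 := by
      rw [two_smul]
      nth_rewrite 1 [h3]
      rw [neg_add_cancel]
    exact (smul_eq_zero.1 h4).resolve_left two_ne_zero
  rw [h4, map_zero]

theorem Lw.of_fac {a : ℕ} {Z' : Matrix (Fin a) (Fin a) ℂ}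
    {E : Matrix (Fin G ⊕ Fin G) (Fin a ⊕ Fin a) ℚ} {F : Matrix (Fin a ⊕ Fin a) (Fin G ⊕ Fin G) ℚ}
    (h : TD Z S) (hf : Fac Z Z' E F) (hZ : PM Z)
    {U : Submodule ℂ (Fin G ⊕ Fin G → ℂ)} (hU : IrS (LZ Z) U) (h0 : ∃ u ∈ U, ml F u ≠ 0)
    (k : Lw (SF E F S) (U.map (ml F))) : Lw S U := by
  refine ⟨fun D hD c => ?_, k.rk.of_fac h hf hZ hU h0⟩
  obtain ⟨_, ⟨u, hu, rfl⟩, h1⟩ := k.ns _ ⟨D, hD, rfl⟩ c
  refine ⟨u, hu, fun h2 => h1 ?_⟩
  rw [← actT hf h (LT_gen hD), h2, map_smul]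

theorem Lw.of_map (h : TD Z S) (hZ : PM Z) {U : Submodule ℂ (Fin G ⊕ Fin G → ℂ)}
    (hU : IrS (LZ Z) U) {T : (Fin G ⊕ Fin G → ℂ) →ₗ[ℂ] (Fin G ⊕ Fin G → ℂ)}
    (hT : ∀ X ∈ LZ Z, ∀ u ∈ U, T (X *ᵥ u) = X *ᵥ T u) (hi : ∀ u ∈ U, T u = 0 → u = 0)
    (k : Lw S (U.map T)) : Lw S U := by
  have hT' := (h.eqv_on hZ hU.2.1 T).2 hT
  refine ⟨fun D hD c => ?_, Pool.Agent.N183.U5.Rk1T.of_map h hZ hU hT hi k.rk⟩
  obtain ⟨_, ⟨u, hu, rfl⟩, h1⟩ := k.ns _ hD c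
  refine ⟨u, hu, fun h2 => h1 ?_⟩
  rw [← hT' D (LT_gen hD) u hu, h2, map_smul]

/-- The weak local conditions for `EmbAll`. -/
theorem St.EmbAll.lw (h : PM Z) (hT : TD Z S) (hs : R915.IsSimple (AVZ h)) (hg : 0 < G)
    (k : EmbAll (AVZ h)) (hrk : ∀ U, IrS (LZ Z) U → (∀ W, IrS (LZ Z) W →
      ∀ (σ : ℂ ≃+* ℂ) (c : ℂ), ∃ u ∈ W, DS Z σ *ᵥ u ≠ c • u) → 2 ≤ finrank ℂ U → Rk1T S U)
    {U : Submodule ℂ (Fin G ⊕ Fin G → ℂ)} (hU : IrS (LZ Z) U) : Lw S U := by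
  obtain ⟨a, Ψ, k, hΨ, hpos⟩ := k
  have hs' := R915.simple_AVZ h hs
  set M := LinearMap.toMatrix' a with hM
  have hMm : minpoly ℚ M = minpoly ℚ a := minpoly_mat a
  have hpd : ∀ s, pd Z (VE M s) = finrank ℂ (Ψ.eigenspace s) := fun s => pd_mult h k hΨ s
  have hqd : ∀ s, qd Z (VE M s) = finrank ℂ (Ψ.eigenspace (cc s)) := fun s => by
    rw [← pd_cc, VE_cj, hpd]
  have hps : ∀ s : ℂ, aeval s (minpoly ℚ M) = 0 → 0 < pd Z (VE M s) := by
    intro s hs0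
    rw [hpd, Nat.pos_iff_ne_zero, ne_eq, Submodule.finrank_eq_zero]
    exact hpos s (by rw [← hMm]; exact hs0)
  have hns : ∀ U, IrS (LZ Z) U → ∀ (σ : ℂ ≃+* ℂ) (c : ℂ), ∃ u ∈ U, DS Z σ *ᵥ u ≠ c • u := by
    intro U hU σ c
    refine (k.mf h).ns h hs' hg (fun s hs0 => ⟨hps s hs0, ?_⟩) hU σ c
    rw [hqd, ← hpd]
    exact hps _ (root_conj hs0 cc)
  obtain ⟨s, T, hs0, hne, hT1, hT2, hTU⟩ := (k.mf h).proj h hs' hg hU
  have hW := (k.mf h).irr h hs' hne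
  refine Lw.of_map hT h hU hT1 hT2 ?_
  rw [hTU]
  exact ⟨fun D hD c => hT.nonscalar h hD hW.2.1 (hns _ hW) c,
    hrk _ hW hns (two_le_of_ns hW fun c => by
      have h1 := hns _ hW (RingEquiv.refl ℂ) c
      rwa [DS_refl'] at h1)⟩

end weak

/-! ### The factors -/

section

variable {K : Type} [Field K] [CharZero K] [Algebra K ℂ] {Γ : Type} [Group Γ] {X : AV}
  {E : X.H → X.H → ℚ} {ρ : Representation K Γ (K ⊗[ℚ] X.H)} {χ : Γ →* K} {G : ℕ}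
  {Z : Matrix (Fin G) (Fin G) ℂ}

/-- The simple factors attached to the submodules of the part of `Y`. -/
theorem exists_facY (hZ : PM Z) (b : Basis (Fin G ⊕ Fin G) ℚ X.H)
    (hC : Cht (X.per.comp b.equivFun.symm.toLinearMap.toAddMonoidHom) (JR Z)) {Y : AV}
    (hY : IsFactor Y X) {U : Submodule ℂ (Fin G ⊕ Fin G → ℂ)} (hU0 : U ≠ ⊥)
    (hUV : U ≤ V0 X Y b) :
    ∃ (a : ℕ) (Z' : Matrix (Fin a) (Fin a) ℂ) (E' : Matrix (Fin G ⊕ Fin G) (Fin a ⊕ Fin a) ℚ)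
      (F' : Matrix (Fin a ⊕ Fin a) (Fin G ⊕ Fin G) ℚ) (h' : PM Z'), Fac Z Z' E' F' ∧
      0 < a ∧ (∃ u ∈ U, ml F' u ≠ 0) ∧ IsHom (AVZ h') X (inc h' b E') ∧
      R915.IsSimple (AVZ h') ∧ ∃ e : (AVZ h').H ≃ₗ[ℚ] Y.H, IsHom (AVZ h') Y e.toLinearMap ∧
        IsHom Y (AVZ h') e.symm.toLinearMap := by
  obtain ⟨a, Z', E', F', hf, h', hs, ha, u, hu, hu0⟩ := exists_fac hZ hU0
  obtain ⟨hi, hfa, p, hp, hpv⟩ := fac_hom b hC h' hf hs ha
  obtain ⟨i, hi', y, hy⟩ : ∃ i : Y.H →ₗ[ℚ] X.H, IsHom Y X i ∧ ∃ y, p (i y) ≠ 0 := by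
    by_contra hcon
    push Not at hcon
    apply hu0
    have h1 : V0 X Y b ≤ LinearMap.ker (ml F') := by
      unfold V0
      rw [Submodule.span_le]
      rintro _ ⟨i, y, hi', rfl⟩
      change ml F' (Pool.Agent.Y90.cv (b.equivFun (i y))) = 0
      have h2 := hcon i hi' y
      rw [hpv] at h2
      rw [ml_apply]
      have h3 : cK ℂ F' *ᵥ Pool.Agent.Y90.cv (b.equivFun (i y)) =
          Pool.Agent.Y90.cv (F' *ᵥ b.equivFun (i y)) := by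
        funext i
        simp [Pool.Agent.Y90.cv, cK, Matrix.mulVec, dotProduct]
      rw [h3, h2]
      funext i
      change (((0 : Fin a ⊕ Fin a → ℚ) i : ℚ) : ℂ) = 0
      rw [Pi.zero_apply, Rat.cast_zero]
    exact LinearMap.mem_ker.1 (h1 (hUV hu))
  have hf₀ : IsHom Y (AVZ h') (p ∘ₗ i) := R915.IsHom.comp' hp hi'
  have hf₀0 : p ∘ₗ i ≠ 0 := fun h1 => hy (LinearMap.congr_fun h1 y)
  obtain ⟨e, he, he'⟩ := R915.iso_of_simple hY.1 hfa.1 hf₀ hf₀0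
  exact ⟨a, Z', E', F', h', hf, ha, ⟨u, hu, hu0⟩, hi, hfa.1, e.symm, he', he⟩

theorem hgC_mat {b : Basis (Fin G ⊕ Fin G) ℚ X.H}
    (hC : Cht (X.per.comp b.equivFun.symm.toLinearMap.toAddMonoidHom) (JR Z))
    {A : Module.End ℂ (CV K X)} (hA : (eY K b).conj A ∈ GG (lieM (DZ Z) ℂ)) : A ∈ hgC K X :=
  (hg_rl b hC A).2 hA

/-- The alternative in coordinates. -/
theorem pu_of_alt (b : Basis (Fin G ⊕ Fin G) ℚ X.H)
    (hC : Cht (X.per.comp b.equivFun.symm.toLinearMap.toAddMonoidHom) (JR Z))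
    (k : HC (ph (Fin G ⊕ Fin G) '' SH X.per ρ χ b) (GG (Y224.TS.LT (SH X.per ρ χ b))) (om G)
      (GG (lieM (DZ Z) ℂ))) {U : Submodule ℂ (Fin G ⊕ Fin G → ℂ)}
    (hU : IrE (GG (Y224.TS.LT (SH X.per ρ χ b))) U) (hlw : Lw (SH X.per ρ χ b) U)
    {U₁ : Submodule ℂ (CV K X)} (hU₁m : U₁.map (eY K b).toLinearMap = U)
    (hA : AltS X ρ χ U₁) :
    PU (ph (Fin G ⊕ Fin G) '' SH X.per ρ χ b) (GG (Y224.TS.LT (SH X.per ρ χ b)))
      (GG (lieM (DZ Z) ℂ)) U := by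
  have hns : ∀ D ∈ ph (Fin G ⊕ Fin G) '' SH X.per ρ χ b, ∀ c : ℂ, ∃ u ∈ U, D u ≠ c • u := by
    rintro _ ⟨D, hD, rfl⟩ c
    exact hlw.ns D hD c
  by_cases hD2 : ∃ D ∈ ph (Fin G ⊕ Fin G) '' SH X.per ρ χ b,
      2 ≤ finrank ℂ (U ⊓ LinearMap.ker (D - 1) : Submodule ℂ (Fin G ⊕ Fin G → ℂ)) ∧
      2 ≤ finrank ℂ (U ⊓ LinearMap.ker (D + 1) : Submodule ℂ (Fin G ⊕ Fin G → ℂ))
  · exact pu_of_lc leafA leafB leafC leafBsl leafCsl leafF3 k hU
      ⟨hns, hlw.nil, Or.inr (Or.inr hD2)⟩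
  rcases hA with ⟨β, hβ, u, hu, v, hv, h0⟩ | ⟨D, hD, h1, h2⟩ | hext
  · refine pu_of_lc leafA leafB leafC leafBsl leafCsl leafF3 k hU ⟨hns, hlw.nil, Or.inl
      ⟨β.compl₁₂ (eY K b).symm.toLinearMap (eY K b).symm.toLinearMap, ?_,
        eY K b u, by rw [← hU₁m]; exact ⟨u, hu, rfl⟩, eY K b v, by
          rw [← hU₁m]; exact ⟨v, hv, rfl⟩, ?_⟩⟩
    · intro A hA
      obtain ⟨A₁, rfl⟩ := exists_cj (e := eY K b) A
      have hA₁ := hgC_mat hC (k.le hA)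
      rw [← hU₁m]
      rintro _ ⟨x, hx, rfl⟩ _ ⟨y, hy, rfl⟩
      rw [LinearMap.compl₁₂_apply, LinearMap.compl₁₂_apply]
      change β ((eY K b).symm ((eY K b).conj A₁ (eY K b x))) ((eY K b).symm (eY K b y)) +
        β ((eY K b).symm (eY K b x)) ((eY K b).symm ((eY K b).conj A₁ (eY K b y))) = 0
      rw [cj_ap, cj_ap]
      simp only [LinearEquiv.symm_apply_apply]
      exact hβ A₁ hA₁ x hx y hy
    · rw [LinearMap.compl₁₂_apply]
      change β ((eY K b).symm (eY K b u)) ((eY K b).symm (eY K b v)) ≠ 0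
      rw [LinearEquiv.symm_apply_apply, LinearEquiv.symm_apply_apply]
      exact h0
  · exfalso
    apply hD2
    have h3 : ∀ c : ℂ, (U₁ ⊓ LinearMap.ker (D - c • 1) : Submodule ℂ (CV K X)).map
        (eY K b).toLinearMap = U ⊓ LinearMap.ker ((eY K b).conj D - c • 1) := by
      intro c
      rw [← hU₁m]
      ext x
      constructor
      · rintro ⟨y, ⟨hy, hy'⟩, rfl⟩
        refine ⟨⟨y, hy, rfl⟩, LinearMap.mem_ker.2 ?_⟩
        have h4 : D y - c • y = 0 := LinearMap.mem_ker.1 hy'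
        change (eY K b).conj D (eY K b y) - c • eY K b y = 0
        rw [cj_ap, ← map_smul, ← map_sub, h4, map_zero]
      · rintro ⟨⟨y, hy, rfl⟩, hx'⟩
        refine ⟨y, ⟨hy, LinearMap.mem_ker.2 ?_⟩, rfl⟩
        have h4 : (eY K b).conj D (eY K b y) - c • eY K b y = 0 := LinearMap.mem_ker.1 hx'
        rw [cj_ap, ← map_smul, ← map_sub] at h4
        exact (LinearEquiv.map_eq_zero_iff _).1 h4
    refine ⟨_, (ht_rl b D).1 hD, ?_, ?_⟩
    · have h4 := h3 1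
      rw [one_smul, one_smul] at h4
      rw [← h4]
      exact h1.trans (LinearEquiv.finrank_map_eq (eY K b) _).ge
    · have h4 := h3 (-1)
      rw [neg_one_smul ℂ (1 : Module.End ℂ (CV K X)),
        neg_one_smul ℂ (1 : Module.End ℂ (Fin G ⊕ Fin G → ℂ)), sub_neg_eq_add,
        sub_neg_eq_add] at h4
      rw [← h4]
      exact h2.trans (LinearEquiv.finrank_map_eq (eY K b) _).ge
  · refine pu_of_rk leafA leafB leafC leafBsl leafCsl leafF3 k hU hns hlw.nil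
      (fun h2 => leafF4 _ _ _ k.sq k.SL k.gen U hU.2.1 h2 hns) (fun h4' hsl => ?_)
    obtain ⟨D, hD, -⟩ := hlw.rk
    have hDS : ph (Fin G ⊕ Fin G) D ∈ ph (Fin G ⊕ Fin G) '' SH X.per ρ χ b := ⟨D, hD, rfl⟩
    refine sat_of_ext k hU h4' hsl hDS (hns _ hDS) (fun h7 => hD2 ⟨_, hDS, h7⟩) ?_
    have h8 := ext_tr (hg_rl b hC) hext
    rwa [hU₁m] at h8

/-- **The classes imply the local conditions.** -/
theorem locB [Algebra.IsAlgebraic K ℂ] (hZ : PM Z) (b : Basis (Fin G ⊕ Fin G) ℚ X.H)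
    (hC : Cht (X.per.comp b.equivFun.symm.toLinearMap.toAddMonoidHom) (JR Z))
    (hTD : TD Z (SH X.per ρ χ b)) (hdel : Deligne X ρ χ) {Y : AV} (hY : IsFactor Y X)
    (hG : GoodS X ρ χ Y) : LocB X ρ χ Y Z b := by
  have k := hc_of hTD hZ fun D hD => SH_lieM b hC hdel hD
  intro U hUV hU
  have hU' : IrS (LZ Z) U := (hTD.irS hZ).1 (irE_iff.1 hU)
  -- the same subspace in `ℂ ⊗ H_1`
  have hUH : IrE (GG (lieM (DZ Z) ℂ)) U :=
    ⟨hU.1, fun A hA => k.stb hA hU.2.1, fun W hW hst => hU.2.2 W hW fun A hA => hst A (k.le hA)⟩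
  obtain ⟨U₁, hU₁⟩ : ∃ U₁ : Submodule ℂ (CV K X), U₁ = U.map (eY K b).symm.toLinearMap := ⟨_, rfl⟩
  have hU₁m : U₁.map (eY K b).toLinearMap = U := by rw [hU₁, map_symm_map]
  have hU₁i : IrE (hgC K X) U₁ := by
    rw [hU₁]
    exact irE_tr (hg_rl b hC).symm hUH
  have hU₁V : U₁ ≤ isoP K X Y := by
    intro x hx
    have h1 : (eY K b) x ∈ (isoP K X Y).map (eY K b).toLinearMap := by
      rw [isoP_map]
      exact hUV (by rw [← hU₁m]; exact ⟨x, hx, rfl⟩)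
    obtain ⟨x', hx', h2⟩ := h1
    rwa [← (eY K b).injective h2]
  have hnsS : NonS X ρ χ U₁ → ∀ D ∈ ph (Fin G ⊕ Fin G) '' SH X.per ρ χ b, ∀ c : ℂ,
      ∃ u ∈ U, D u ≠ c • u := by
    intro h3 D hD c
    obtain ⟨D₁, rfl⟩ := exists_cj (e := eY K b) D
    have h5 := ns_tr (e := eY K b) (h3 D₁ ((ht_rl b D₁).2 hD)) c
    rwa [hU₁m] at h5
  obtain ⟨a, Z', E', F', h', hf, ha, h0, hi, hs, e, he, he'⟩ := exists_facY hZ b hC hY hU.1 hUV
  rcases hG with ⟨hE, hc, hext⟩ | hG | hG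
  · have hs' := R915.simple_AVZ h' hs
    have hTD' := tdF hf hTD hZ h'
    obtain ⟨-, -, -, h4, h5⟩ := Pool.Agent.N615.GSI1.I1 (AVZ h') Y e he he'
    have h6 := Pool.Agent.N615.GSI2.I2 K Γ X ρ (AVZ h') Y e he he'
    have hlw : Lw (SH X.per ρ χ b) U := by
      refine Lw.of_fac hTD hf hZ hU' h0 ?_
      refine St.EmbAll.lw h' hTD' hs ha (hE.iso e he he') (fun U hU hns hn => ?_) (hf.irr hU' h0)
      rcases hc with hc | hc | hc
      · exact ((h4 hc).cls h' hTD' hU hn).1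
      · exact (h5 hc).cls h' hTD' hs' ha hU hn
      · exact GalMultTwo.cls' h' hZ hC hTD hf hs' ha hi (h6 hc) hns hU hn
    exact ⟨pu_of_alt b hC k hU hlw hU₁m (hext U₁ hU₁V hU₁i), hlw.ns⟩
  · obtain ⟨h3, ⟨N, hN, hN1⟩, halt⟩ := hG U₁ hU₁V hU₁i
    have hns := hnsS h3
    have hns' : ∀ D ∈ SH X.per ρ χ b, ∀ c : ℂ, ∃ u ∈ U, D *ᵥ u ≠ c • u := fun D hD c =>
      hns _ ⟨D, hD, rfl⟩ c
    have hn := two_le_of_ns hU' (ns_DZ hTD hZ hU' hns')
    have hN' := (gal_rl b N).1 hN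
    obtain ⟨M, hM, hMN⟩ := exists_GG hN'
    have hU'' := hU.2.1 _ hN'
    have hlw : Lw (SH X.per ρ χ b) U := by
      refine ⟨hns', rk1T_of_rk hTD hZ hU' hn (x := ((eY K b).conj N).restrict hU'')
        ⟨M, hM, fun u => ?_⟩ ?_⟩
      · change (eY K b).conj N u = M *ᵥ (u : Fin G ⊕ Fin G → ℂ)
        rw [hMN]
        rfl
      · unfold rk
        have h5 : (LinearMap.range (((eY K b).conj N).restrict hU'')).map U.subtype =
            (U₁.map N).map (eY K b).toLinearMap := by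
          ext x
          simp only [Submodule.mem_map, LinearMap.mem_range]
          constructor
          · rintro ⟨_, ⟨⟨u, hu⟩, rfl⟩, rfl⟩
            obtain ⟨y, hy, hyu⟩ : u ∈ U₁.map (eY K b).toLinearMap := by
              rw [hU₁m]
              exact hu
            refine ⟨N y, ⟨y, hy, rfl⟩, ?_⟩
            change eY K b (N y) = (eY K b).conj N u
            rw [← hyu]
            exact (cj_ap N y).symm
          · rintro ⟨_, ⟨y, hy, rfl⟩, rfl⟩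
            refine ⟨_, ⟨⟨eY K b y, by rw [← hU₁m]; exact ⟨y, hy, rfl⟩⟩, rfl⟩, ?_⟩
            change (eY K b).conj N (eY K b y) = eY K b (N y)
            exact cj_ap N y
        rw [← Submodule.finrank_map_subtype_eq, h5, LinearEquiv.finrank_map_eq]
        exact hN1
    exact ⟨pu_of_alt b hC k hU hlw hU₁m halt, hns'⟩
  · obtain ⟨h3, h1, h2, h4⟩ := hG U₁ hU₁V hU₁i
    have h1' := full_tr (gal_rl b) (hg_rl b hC) h1
    have h2' := simp_tr (hg_rl b hC) h2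
    have h4' := sat_tr (ht_rl b) (hg_rl b hC) h4
    rw [hU₁m] at h1' h2' h4'
    have hns := hnsS h3
    exact ⟨pu_of_sat leafA k hU h1' h2' hns h4', fun D hD c => hns _ ⟨D, hD, rfl⟩ c⟩

end

end

end Pool.Agent.H24GS
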