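import Mathlib
import Pool.Agent.H24GS.M6

/-!
# A direct factor of an abelian variety
-/

set_option linter.unusedSectionVars false
set_option linter.unusedVariables false

namespace Pool.Agent.H24GS

open Module Pool.Agent.Y90 Pool.Agent.R915 TensorProduct
open Pool.Agent.Y224.TS.St (IsTateModule)
open Pool.Agent.N183.U5 (IsHodgeTensor)
open Pool.Agent.N183.TS Pool.Agent.H204R3.SP Pool.Agent.Y224.TS

/-- Multilinear forms on a direct factor. -/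
theorem upd_retr {R V V₀ : Type*} {n : Type*} [DecidableEq n] [Semiring R] [AddCommMonoid V]
    [Module R V] [AddCommMonoid V₀] [Module R V₀] (i : V₀ →ₗ[R] V) (p : V →ₗ[R] V₀)
    (hpi : ∀ v, p (i v) = v) (t : V →ₗ[R] V) (w : n → V₀) (k : n) :
    (fun l => p (Function.update (fun l => i (w l)) k (t (i (w k))) l)) =
      Function.update w k ((p ∘ₗ t ∘ₗ i) (w k)) := by
  funext l
  by_cases hl : l = k
  · subst hl
    rw [Function.update_self, Function.update_self]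
    rfl
  · rw [Function.update_of_ne hl, Function.update_of_ne hl, hpi]

/-- The image of the Hodge Lie algebra in a direct factor. -/
theorem inHg_retr {X X₀ : AV} {i : X₀.H →ₗ[ℚ] X.H} {p : X.H →ₗ[ℚ] X₀.H} (hp : IsHom X X₀ p)
    (hpi : ∀ v, p (i v) = v) {t : Module.End ℚ X.H} (ht : InHg X t) :
    InHg X₀ (p ∘ₗ t ∘ₗ i) := by
  intro n r hr w
  obtain ⟨ψ, h1, h2⟩ := hr
  obtain ⟨Φ, hΦ⟩ := hp
  have h3 : IsHodgeTensor X.per (r.compLinearMap fun _ => p) := by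
    refine ⟨ψ.compLinearMap fun _ => (Φ.restrictScalars ℝ), fun v => ?_, fun z hz u => ?_⟩
    · change ψ (fun l => Φ (X.per (v l))) = r (fun l => p (v l))
      rw [← h1]
      congr 1
      funext l
      exact hΦ (v l)
    · change ψ (fun l => Φ (z • u l)) = ψ (fun l => Φ (u l))
      have h3 : (fun l => Φ (z • u l)) = fun l => z • Φ (u l) :=
        funext fun l => Φ.map_smul z (u l)
      rw [h3, h2 z hz]
  have h4 := ht n _ h3 fun l => i (w l)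
  rw [← h4]
  refine Finset.sum_congr rfl fun k _ => ?_
  change _ = r (fun l => p (Function.update (fun l => i (w l)) k (t (i (w k))) l))
  rw [upd_retr i p hpi t w k]

section

variable {K : Type} [Field K] [CharZero K] [Algebra K ℂ] {Γ : Type} [Group Γ] {X X₀ : AV}
  {E : X.H → X.H → ℚ} {ρ : Representation K Γ (K ⊗[ℚ] X.H)} {χ : Γ →* K}
  {ρ₀ : Representation K Γ (K ⊗[ℚ] X₀.H)} {i : X₀.H →ₗ[ℚ] X.H} {p : X.H →ₗ[ℚ] X₀.H}

theorem bc_retr {i : X₀.H →ₗ[ℚ] X.H} {p : X.H →ₗ[ℚ] X₀.H} (hpi : ∀ v, p (i v) = v)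
    (v : K ⊗[ℚ] X₀.H) :
    p.baseChange K (i.baseChange K v) = v := by
  have h1 : p ∘ₗ i = LinearMap.id := LinearMap.ext hpi
  have h2 : (p ∘ₗ i).baseChange K = LinearMap.id := by rw [h1, LinearMap.baseChange_id]
  rw [LinearMap.baseChange_comp] at h2
  exact LinearMap.congr_fun h2 v

/-- The projection to a direct factor is equivariant. -/
theorem equiv_retr (hρ : IsTateModule X.per E ρ χ) (hi : IsHom X₀ X i) (hp : IsHom X X₀ p)
    (hpi : ∀ v, p (i v) = v) (hρ₀ : ∃ Δ : Subgroup Γ, Δ.FiniteIndex ∧ ∀ g ∈ Δ, ∀ v,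
      ρ g (i.baseChange K v) = i.baseChange K (ρ₀ g v)) :
    ∃ Δ : Subgroup Γ, Δ.FiniteIndex ∧ ∀ g ∈ Δ, ∀ v,
      p.baseChange K (ρ g v) = ρ₀ g (p.baseChange K v) := by
  obtain ⟨Δ₁, hΔ₁, h1⟩ := hρ₀
  obtain ⟨Δ₂, hΔ₂, h2⟩ := hρ.endo (i ∘ₗ p) (R915.IsHom.comp' hi hp)
  refine ⟨Δ₁ ⊓ Δ₂, inferInstance, fun g hg v => ?_⟩
  have h3 := h2 g hg.2 v
  rw [LinearMap.baseChange_comp, LinearMap.comp_apply, LinearMap.comp_apply, h1 g hg.1] at h3
  have h4 := congrArg (p.baseChange K) h3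
  rw [bc_retr hpi, bc_retr hpi] at h4
  exact h4.symm

/-- Tate tensors of a direct factor. -/
theorem tate_retr (hρ : IsTateModule X.per E ρ χ) (hi : IsHom X₀ X i) (hp : IsHom X X₀ p)
    (hpi : ∀ v, p (i v) = v) (hρ₀ : ∃ Δ : Subgroup Γ, Δ.FiniteIndex ∧ ∀ g ∈ Δ, ∀ v,
      ρ g (i.baseChange K v) = i.baseChange K (ρ₀ g v)) {m : ℕ}
    {φ : MultilinearMap K (fun _ : Fin m × Fin 2 => K ⊗[ℚ] X₀.H) K} (hφ : IsTate ρ₀ χ m φ) :
    IsTate ρ χ m (φ.compLinearMap fun _ => p.baseChange K) := by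
  obtain ⟨Δ₁, hΔ₁, h1⟩ := equiv_retr hρ hi hp hpi hρ₀
  obtain ⟨Δ₂, hΔ₂, h2⟩ := hφ
  refine ⟨Δ₁ ⊓ Δ₂, inferInstance, fun g hg v => ?_⟩
  change φ (fun k => p.baseChange K (ρ g (v k))) = χ g ^ m * φ (fun k => p.baseChange K (v k))
  rw [← h2 g hg.2]
  congr 1
  funext k
  exact h1 g hg.1 (v k)

/-- Elements which kill the Tate tensors. -/
theorem kills_retr (hρ : IsTateModule X.per E ρ χ) (hi : IsHom X₀ X i) (hp : IsHom X X₀ p)
    (hpi : ∀ v, p (i v) = v) (hρ₀ : ∃ Δ : Subgroup Γ, Δ.FiniteIndex ∧ ∀ g ∈ Δ, ∀ v,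
      ρ g (i.baseChange K v) = i.baseChange K (ρ₀ g v)) {m : ℕ}
    {φ : MultilinearMap K (fun _ : Fin m × Fin 2 => K ⊗[ℚ] X₀.H) K} (hφ : IsTate ρ₀ χ m φ)
    {t : Module.End ℚ X.H} (ht : ∀ φ' : MultilinearMap K (fun _ : Fin m × Fin 2 => K ⊗[ℚ] X.H) K,
      IsTate ρ χ m φ' → Kills (t.baseChange K) φ') :
    Kills ((p ∘ₗ t ∘ₗ i).baseChange K) φ := by
  intro w
  have h1 := ht _ (tate_retr hρ hi hp hpi hρ₀ hφ) fun l => i.baseChange K (w l)
  rw [← h1]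
  refine Finset.sum_congr rfl fun k _ => ?_
  rw [LinearMap.baseChange_comp, LinearMap.baseChange_comp]
  change _ = φ (fun l => p.baseChange K (Function.update (fun l => i.baseChange K (w l)) k
    (t.baseChange K (i.baseChange K (w k))) l))
  rw [upd_retr (i.baseChange K) (p.baseChange K) (bc_retr hpi) (t.baseChange K) w k]

/-- **The Lie algebra `𝔫` kills the Tate tensors.** -/
theorem main_kills [Algebra.IsAlgebraic K ℂ] (hE : Pool.Agent.Y90.St.IsPolarization X.per E)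
    (hρ : IsTateModule X.per E ρ χ) (hdel : Deligne X ρ χ) {Y : AV} (hY : IsFactor Y X)
    (hG : GoodS X ρ χ Y) {t : Module.End ℚ X.H} (ht : InNS X Y t) {m : ℕ}
    {φ : MultilinearMap K (fun _ : Fin m × Fin 2 => K ⊗[ℚ] X.H) K} (hφ : IsTate ρ χ m φ) :
    Kills (t.baseChange K) φ := by
  obtain ⟨G, Z, hZ, b, hC, hb⟩ := exists_ppav' (AV.isAV X) hE
  have hTD := td_of b hb hC hρ
  exact kills_of_LT b (inNS_LT hZ b hC hTD hE hdel hY (locB hZ b hC hTD hdel hY hG) ht) hφ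

/-- **The Lie algebra `𝔫` is not trivial.** -/
theorem main_exists [Algebra.IsAlgebraic K ℂ] (hE : Pool.Agent.Y90.St.IsPolarization X.per E)
    (hρ : IsTateModule X.per E ρ χ) (hdel : Deligne X ρ χ) (hi : IsHom X₀ X i)
    (hp : IsHom X X₀ p) (hpi : ∀ v, p (i v) = v) {Y : AV} (hY : IsFactor Y X₀)
    (hG : GoodS X ρ χ Y) : ∃ t, InNS X Y t ∧ ¬ IsHom X₀ X₀ (p ∘ₗ t ∘ₗ i) := by
  obtain ⟨G, Z, hZ, b, hC, hb⟩ := exists_ppav' (AV.isAV X) hE
  have hTD := td_of b hb hC hρ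
  obtain ⟨hYs, i₀, hi₀, hi₀'⟩ := id hY
  have hYX : IsFactor Y X := ⟨hYs, i ∘ₗ i₀, R915.IsHom.comp' hi hi₀, fun x y hxy => hi₀' (by
    have h1 : i (i₀ x) = i (i₀ y) := hxy
    rw [← hpi (i₀ x), h1, hpi])⟩
  exact exists_inNS hZ b hC hTD hE hdel hi hp hpi hY (locB hZ b hC hTD hdel hYX hG)

end

end Pool.Agent.H24GS
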