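import Mathlib
import Pool.Agent.H24GS.Fin

/-!
# The definitions of the statement
-/

set_option linter.unusedSectionVars false
set_option linter.unusedVariables false

namespace Pool.Agent.H24GS

open Matrix Module Pool.Agent.W437.HC Pool.Agent.W437.HD Pool.Agent.W548.Odd
open Pool.Agent.H204R3.SP Pool.Agent.H204R3.GP Pool.Agent.Y90 Pool.Agent.Y224.TS TensorProduct
open Pool.Agent.Y224.TS.St (IsHodgeTate IsTateModule)
open Pool.Agent.R915 (IsFactor)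
open Pool.Agent.N183.TS Pool.Agent.N183.U5 Pool.Agent.N183.U6 Pool.Agent.N183.U8

section lin

variable {V : Type} [AddCommGroup V] [Module ℂ V] {S : Set (End ℂ V)}
  {Hh : Submodule ℂ (End ℂ V)} {U : Submodule ℂ V}

theorem sat_of (hbr : ∀ A ∈ Hh, ∀ B ∈ Hh, A * B - B * A ∈ Hh) (hS : ∀ D ∈ S, D ∈ Hh)
    (h : St.Saturated S Hh U) : Sat S Hh U := by
  intro R _ _ _ _ r h1 h2 h3 h4
  obtain ⟨r', hr'⟩ := LinearMap.exists_extend r
  have hr : ∀ (A : End ℂ V) (hA : A ∈ Hh), r' A = r ⟨A, hA⟩ := fun A hA =>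
    LinearMap.congr_fun hr' ⟨A, hA⟩
  obtain ⟨f, hf0, hf⟩ := h R r' ⟨fun A hA B hB => by
      rw [hr _ (hbr A hA B hB), hr A hA, hr B hB]
      exact h1 ⟨A, hA⟩ ⟨B, hB⟩ _ rfl, fun A hA hAu => by
      rw [hr A hA]
      exact h2 _ hAu, fun W hW => h3 W fun A w hw => by
      rw [← hr A A.2]
      exact hW A A.2 w hw⟩ (fun D hD => by
      rw [hr D (hS D hD)]
      exact h4 ⟨D, hS D hD⟩ hD)
  refine ⟨f, hf0, fun A => ?_⟩
  obtain ⟨c, hc⟩ := hf A A.2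
  refine ⟨c, fun x => ?_⟩
  rw [hc x, hr A A.2]

end lin

section

variable {K : Type} [Field K] [CharZero K] [Algebra K ℂ] {Γ : Type} [Group Γ] {X : AV}
  {E : X.H → X.H → ℚ} {ρ : Representation K Γ (K ⊗[ℚ] X.H)} {χ : Γ →* K}

theorem htS_eq : St.htS X ρ χ = htS X ρ χ := by
  ext D
  constructor
  · rintro ⟨h, ⟨σ, hσ⟩, rfl⟩
    exact ⟨σ, h, hσ, rfl⟩
  · rintro ⟨σ, h, hσ, rfl⟩
    exact ⟨h, ⟨σ, hσ⟩, rfl⟩

theorem hgC_eq : St.hgC K X = hgC K X := by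
  unfold St.hgC hgC
  congr 1
  ext T
  constructor
  · rintro ⟨t, ht, rfl⟩
    exact ⟨t, ht, rfl⟩
  · rintro ⟨t, ht, rfl⟩
    exact ⟨t, ht, rfl⟩

theorem isoP_eq {Y : AV} : St.isoP K X Y = isoP K X Y := by
  unfold St.isoP isoP
  congr 1
  ext w
  constructor
  · rintro ⟨_, ⟨i, hi, y, rfl⟩, rfl⟩
    exact ⟨i, y, hi, rfl⟩
  · rintro ⟨i, y, hi, rfl⟩
    exact ⟨_, ⟨i, hi, y, rfl⟩, rfl⟩

theorem gen_eq : St.gen (St.htS X ρ χ) = galC X ρ χ := by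
  rw [htS_eq]
  rfl

theorem hgC_br (hE : Pool.Agent.Y90.St.IsPolarization X.per E) :
    ∀ A ∈ hgC K X, ∀ B ∈ hgC K X, A * B - B * A ∈ hgC K X := by
  obtain ⟨G, Z, hZ, b, hC, hb⟩ := exists_ppav' (AV.isAV X) hE
  intro A hA B hB
  refine (hg_rl b hC _).2 ?_
  rw [cj_br]
  obtain ⟨A', hA', h1⟩ := exists_GG ((hg_rl b hC _).1 hA)
  obtain ⟨B', hB', h2⟩ := exists_GG ((hg_rl b hC _).1 hB)
  rw [h1, h2, ← map_mul, ← map_mul, ← map_sub]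
  exact mem_GG.2 (lieM_bracket _ hA' hB')

theorem htS_hgC [Algebra.IsAlgebraic K ℂ] (hE : Pool.Agent.Y90.St.IsPolarization X.per E)
    (hρ : IsTateModule X.per E ρ χ) (hdel : Deligne X ρ χ) : ∀ D ∈ htS X ρ χ, D ∈ hgC K X := by
  obtain ⟨G, Z, hZ, b, hC, hb⟩ := exists_ppav' (AV.isAV X) hE
  intro D hD
  refine (hg_rl b hC _).2 ?_
  obtain ⟨D', hD', h1⟩ := (ht_rl b D).1 hD
  rw [← h1]
  exact mem_GG.2 (SH_lieM b hC hdel hD')

theorem goodS_of [Algebra.IsAlgebraic K ℂ] (hE : Pool.Agent.Y90.St.IsPolarization X.per E)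
    (hρ : IsTateModule X.per E ρ χ) (hdel : Deligne X ρ χ) {Y : AV} (h : St.GoodS X ρ χ Y) :
    GoodS X ρ χ Y := by
  unfold St.GoodS St.AltAll St.RankAll St.FullAll St.NonScal St.Alt St.Full at h
  rw [gen_eq, htS_eq, hgC_eq, isoP_eq] at h
  rcases h with ⟨h1, h2, h3⟩ | h | h
  · exact Or.inl ⟨h1, Or.inr (Or.inl h2), h3⟩
  · exact Or.inr (Or.inl h)
  · refine Or.inr (Or.inr fun U hU hUi => ?_)
    obtain ⟨h1, h2, h3, h4⟩ := h U hU hUi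
    exact ⟨h1, h2, h3, sat_of (hgC_br hE) (htS_hgC hE hρ hdel) h4⟩

end

end Pool.Agent.H24GS
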